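import Pool.Agent.TriL.Targets

/-!
# MP_5ab805_an, BP1: `L²` bound of a piece (helper81, for helper38)
-/

set_option autoImplicit false

namespace TriL

open MeasureTheory Set Filter
open scoped ENNReal NNReal Topology
open Pool.Agent.Restr (u E E1 QQ)

namespace BP1_

theorem push (k : ℕ) (φ : ℝ × ℝ → ℝ≥0∞) (hφ : Measurable φ) :
    ∫⁻ z in Zk k, φ (z.1 - z.2, z.1 ^ 2 - z.2 ^ 2) ≤ ENNReal.ofReal (2 ^ k) * ∫⁻ v, φ v := by
  set D : Set ℝ := {a | (1 / 2 : ℝ) ^ (k + 1) < |a|} with hD
  have hDm : MeasurableSet D := measurableSet_lt measurable_const (by fun_prop)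
  set Φ : ℝ × ℝ → ℝ≥0∞ := fun z =>
    D.indicator (fun _ => φ (z.1 - z.2, z.1 ^ 2 - z.2 ^ 2)) (z.1 - z.2) with hΦ
  have hΦm : Measurable Φ := by
    have : Φ = fun z : ℝ × ℝ => ((fun z : ℝ × ℝ => z.1 - z.2) ⁻¹' D).indicator
        (fun z : ℝ × ℝ => φ (z.1 - z.2, z.1 ^ 2 - z.2 ^ 2)) z := by
      ext z
      simp only [hΦ, Set.indicator, mem_preimage]
    rw [this]
    refine Measurable.indicator (hφ.comp (by fun_prop)) ?_
    exact hDm.preimage (by fun_prop)
  calc ∫⁻ z in Zk k, φ (z.1 - z.2, z.1 ^ 2 - z.2 ^ 2)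
      ≤ ∫⁻ z in Zk k, Φ z := by
        refine setLIntegral_mono hΦm (fun z hz => ?_)
        have : z.1 - z.2 ∈ D := hz.2.2.1
        simp only [hΦ, Set.indicator_of_mem this]
        exact le_rfl
    _ ≤ ∫⁻ z, Φ z := setLIntegral_le_lintegral _ _
    _ = ∫⁻ y, ∫⁻ x, Φ (x, y) := by
        rw [Measure.volume_eq_prod, lintegral_prod_symm _ hΦm.aemeasurable]
    _ = ∫⁻ y, ∫⁻ a, D.indicator (fun _ => φ (a, a ^ 2 - (-(2 * a)) * y)) a := by
        refine lintegral_congr (fun y => ?_)
        rw [← lintegral_add_right_eq_self (fun x => Φ (x, y)) y]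
        refine lintegral_congr (fun a => ?_)
        simp only [hΦ, add_sub_cancel_right]
        congr 1
        ext _
        congr 2
        ring
    _ = ∫⁻ a, ∫⁻ y, D.indicator (fun _ => φ (a, a ^ 2 - (-(2 * a)) * y)) a := by
        rw [lintegral_lintegral_swap]
        have : (Function.uncurry fun (y a : ℝ) =>
            D.indicator (fun _ => φ (a, a ^ 2 - (-(2 * a)) * y)) a) =
            fun z : ℝ × ℝ => ((fun z : ℝ × ℝ => z.2) ⁻¹' D).indicator
              (fun z : ℝ × ℝ => φ (z.2, z.2 ^ 2 - (-(2 * z.2)) * z.1)) z := by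
          ext z
          simp only [Function.uncurry, Set.indicator, mem_preimage]
        rw [this]
        refine (Measurable.indicator (hφ.comp (by fun_prop)) ?_).aemeasurable
        exact hDm.preimage (by fun_prop)
    _ ≤ ∫⁻ a, ENNReal.ofReal (2 ^ k) * ∫⁻ b, φ (a, b) := by
        refine lintegral_mono (fun a => ?_)
        by_cases ha : a ∈ D
        · simp only [Set.indicator_of_mem ha]
          have ha1 : (1 / 2 : ℝ) ^ (k + 1) < |a| := ha
          have hpos : (0 : ℝ) < (1 / 2 : ℝ) ^ (k + 1) := by positivity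
          have ha0 : a ≠ 0 := by
            intro h0
            rw [h0, abs_zero] at ha1
            linarith
          rw [Pool.Agent.Restr.lintegral_comp_affine (f := fun b => φ (a, b))
            (hφ.comp (by fun_prop)) (by simpa using ha0 : -(2 * a) ≠ 0) (a ^ 2)]
          refine mul_le_mul_left ?_ _
          apply ENNReal.ofReal_le_ofReal
          rw [abs_inv, abs_neg, abs_mul, abs_two]
          have h2 : ((2 : ℝ) ^ k)⁻¹ ≤ 2 * |a| := by
            have h3 : ((2 : ℝ) ^ k)⁻¹ = 2 * (1 / 2 : ℝ) ^ (k + 1) := by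
              rw [pow_succ, one_div, inv_pow]
              ring
            rw [h3]
            linarith
          calc (2 * |a|)⁻¹ ≤ (((2 : ℝ) ^ k)⁻¹)⁻¹ := inv_anti₀ (by positivity) h2
            _ = 2 ^ k := inv_inv _
        · simp only [Set.indicator_of_notMem ha, lintegral_zero]
          exact zero_le
    _ = ENNReal.ofReal (2 ^ k) * ∫⁻ v, φ v := by
        rw [lintegral_const_mul _ hφ.lintegral_prod_right', Measure.volume_eq_prod,
          lintegral_prod _ hφ.aemeasurable]

end BP1_

theorem p_BP1 : T_BP1 := by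
  intro k f g hf hg
  have h := Pool.Agent.Restr.plancherel2 (μ := (volume : Measure (ℝ × ℝ)).restrict (Zk k))
    (s := fun z => (z.1 - z.2, z.1 ^ 2 - z.2 ^ 2)) (by fun_prop) (C := ENNReal.ofReal (2 ^ k))
    (fun φ hφ => BP1_.push k φ hφ) (G := fun z => f z.1 * (starRingEnd ℂ) (g z.2))
    ((hf.comp measurable_fst).mul
      (Complex.continuous_conj.measurable.comp (hg.comp measurable_snd)))
  refine (le_of_eq ?_).trans (h.trans (le_of_eq ?_))
  · rfl
  · congr 1
    · rw [← ENNReal.ofReal_mul (by positivity), ← ENNReal.ofReal_mul (by positivity)]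
      congr 1
      ring
    · refine lintegral_congr (fun z => ?_)
      rw [enorm_mul, mul_pow]
      congr 2
      rw [← ofReal_norm, ← ofReal_norm, RCLike.norm_conj]

end TriL
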