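import Pool.Agent.TriL.Targets

/-!
# BP2: vector valued sup bound of a piece
-/

set_option autoImplicit false

namespace TriL

open MeasureTheory Set Filter
open scoped ENNReal NNReal Topology
open Pool.Agent.Restr (u E E1 QQ)
open Pool.Agent.H27.Fib (Few fib ind vr Ls)

namespace BP2_

lemma cs {α β : Type} [Fintype α] [Fintype β] (a : α → β → ℝ≥0∞) (x : α → ℝ≥0∞)
    (y : β → ℝ≥0∞) :
    ∑ i, ∑ j, a i j * (x i * y j) ≤
      (∑ i, ∑ j, a i j ^ 2) ^ (1 / 2 : ℝ) * ((∑ i, x i ^ 2) * (∑ j, y j ^ 2)) ^ (1 / 2 : ℝ) := by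
  have h := ENNReal.inner_le_Lp_mul_Lq (Finset.univ : Finset (α × β))
    (fun p => a p.1 p.2) (fun p => x p.1 * y p.2) Real.HolderConjugate.two_two
  have e1 : ∑ i, ∑ j, a i j * (x i * y j) =
      ∑ p : α × β, a p.1 p.2 * (x p.1 * y p.2) := by
    rw [Fintype.sum_prod_type]
  have e2 : ∑ i, ∑ j, a i j ^ 2 = ∑ p : α × β, a p.1 p.2 ^ (2 : ℝ) := by
    rw [Fintype.sum_prod_type]
    simp only [ENNReal.rpow_two]
  have e3 : (∑ i, x i ^ 2) * (∑ j, y j ^ 2) = ∑ p : α × β, (x p.1 * y p.2) ^ (2 : ℝ) := by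
    rw [Fintype.sum_prod_type, Finset.sum_mul_sum]
    simp only [ENNReal.rpow_two, mul_pow]
  rw [e1, e2, e3]
  exact h

lemma piece (k : ℕ) (f g : ℝ → ℂ) (w : ℝ × ℝ) :
    ‖Bk k f g w‖ₑ ≤ ∫⁻ z in Zk k, ‖f z.1‖ₑ * ‖g z.2‖ₑ := by
  unfold Bk
  refine (enorm_integral_le_lintegral_enorm _).trans (le_of_eq ?_)
  refine lintegral_congr fun z => ?_
  rw [enorm_mul, Pool.Agent.Restr.enorm_u, one_mul, enorm_mul]
  congr 1
  simp [enorm_eq_nnnorm]

end BP2_

theorem p_BP2 : T_BP2 := by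
  intro ι κ _ _ F U hF hU k w
  set S2 : ℝ≥0∞ := ∑ i, ∑ j, ‖Bk k (F i) (U j) w‖ₑ ^ 2 with hS2
  set I : ℝ≥0∞ := ∫⁻ z in Zk k, (nm F z.1 * nm U z.2) ^ (1 / 2 : ℝ) with hI
  have key : S2 ≤ S2 ^ (1 / 2 : ℝ) * I := by
    calc S2 = ∑ i, ∑ j, ‖Bk k (F i) (U j) w‖ₑ * ‖Bk k (F i) (U j) w‖ₑ := by
          rw [hS2]; simp only [sq]
      _ ≤ ∑ i, ∑ j, ‖Bk k (F i) (U j) w‖ₑ * ∫⁻ z in Zk k, ‖F i z.1‖ₑ * ‖U j z.2‖ₑ := by
          gcongr with i _ j _
          exact BP2_.piece k _ _ w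
      _ = ∑ i, ∑ j, ∫⁻ z in Zk k, ‖Bk k (F i) (U j) w‖ₑ * (‖F i z.1‖ₑ * ‖U j z.2‖ₑ) := by
          refine Finset.sum_congr rfl fun i _ => Finset.sum_congr rfl fun j _ => ?_
          rw [lintegral_const_mul]
          exact ((hF i).1.comp measurable_fst).enorm.mul ((hU j).1.comp measurable_snd).enorm
      _ = ∫⁻ z in Zk k, ∑ i, ∑ j, ‖Bk k (F i) (U j) w‖ₑ * (‖F i z.1‖ₑ * ‖U j z.2‖ₑ) := by
          rw [lintegral_finsetSum]
          · refine Finset.sum_congr rfl fun i _ => ?_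
            rw [lintegral_finsetSum]
            intro j _
            exact (((hF i).1.comp measurable_fst).enorm.mul
              ((hU j).1.comp measurable_snd).enorm).const_mul _
          · intro i _
            refine Finset.measurable_sum _ fun j _ => ?_
            exact (((hF i).1.comp measurable_fst).enorm.mul
              ((hU j).1.comp measurable_snd).enorm).const_mul _
      _ ≤ ∫⁻ z in Zk k, S2 ^ (1 / 2 : ℝ) * (nm F z.1 * nm U z.2) ^ (1 / 2 : ℝ) := by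
          refine lintegral_mono fun z => ?_
          exact BP2_.cs _ _ _
      _ = S2 ^ (1 / 2 : ℝ) * I := by
          rw [hI, lintegral_const_mul]
          refine Measurable.pow_const ?_ _
          refine Measurable.mul ?_ ?_
          · exact Finset.measurable_sum _ fun i _ =>
              ((hF i).1.comp measurable_fst).enorm.pow_const 2
          · exact Finset.measurable_sum _ fun j _ =>
              ((hU j).1.comp measurable_snd).enorm.pow_const 2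
  have hfin : S2 ≠ ⊤ := by
    rw [hS2]
    refine ENNReal.sum_ne_top.2 fun i _ => ENNReal.sum_ne_top.2 fun j _ => ?_
    exact ENNReal.pow_ne_top enorm_ne_top
  by_cases h0 : S2 = 0
  · rw [h0]; exact bot_le
  · have hr0 : S2 ^ (1 / 2 : ℝ) ≠ 0 := by
      intro h
      rcases (ENNReal.rpow_eq_zero_iff.1 h) with h1 | h1
      · exact h0 h1.1
      · exact hfin h1.1
    have hrt : S2 ^ (1 / 2 : ℝ) ≠ ⊤ := ENNReal.rpow_ne_top_of_nonneg (by norm_num) hfin
    have hsq : S2 ^ (1 / 2 : ℝ) * S2 ^ (1 / 2 : ℝ) = S2 := by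
      rw [← ENNReal.rpow_add _ _ h0 hfin]
      norm_num
    have h1 : S2 ^ (1 / 2 : ℝ) * S2 ^ (1 / 2 : ℝ) ≤ S2 ^ (1 / 2 : ℝ) * I := by
      rw [hsq]; exact key
    have h2 : S2 ^ (1 / 2 : ℝ) ≤ I := (ENNReal.mul_le_mul_iff_right hr0 hrt).1 h1
    calc S2 = S2 ^ (1 / 2 : ℝ) * S2 ^ (1 / 2 : ℝ) := hsq.symm
      _ ≤ I * I := mul_le_mul' h2 h2
      _ = I ^ 2 := (sq I).symm

end TriL
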