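import Pool.Agent.TriL.Targets

/-!
# MP_5ab805_an, trilinear extension estimate: decomposition of the product (BP3, helper18)
-/

set_option autoImplicit false

namespace TriL

open MeasureTheory Set Filter
open scoped ENNReal NNReal Topology
open Pool.Agent.Restr (u E1 norm_u u_sub measurable_u)

namespace BP3_

theorem integrable_of_sq {f : ℝ → ℂ} (hf : Measurable f) (h0 : ∀ x, x ∉ II → f x = 0)
    (h2 : ∫⁻ x, ‖f x‖ₑ ^ 2 ≠ ⊤) : Integrable f := by
  refine ⟨hf.aestronglyMeasurable, ?_⟩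
  have h1 : ∀ x, ‖f x‖ₑ ≤ II.indicator 1 x + ‖f x‖ₑ ^ 2 := by
    intro x
    by_cases hx : x ∈ II
    · rw [indicator_of_mem hx, Pi.one_apply]
      rcases le_total ‖f x‖ₑ 1 with h | h
      · exact h.trans le_self_add
      · refine le_trans ?_ le_add_self
        calc ‖f x‖ₑ = ‖f x‖ₑ * 1 := (mul_one _).symm
          _ ≤ ‖f x‖ₑ * ‖f x‖ₑ := by gcongr
          _ = ‖f x‖ₑ ^ 2 := (sq _).symm
    · rw [h0 x hx, enorm_zero]
      exact bot_le
  have h3 : ∫⁻ x, ‖f x‖ₑ ≤ ∫⁻ x, (II.indicator 1 x + ‖f x‖ₑ ^ 2) := lintegral_mono h1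
  have hm : Measurable (II.indicator (1 : ℝ → ℝ≥0∞)) :=
    measurable_one.indicator measurableSet_Icc
  rw [lintegral_add_left hm, lintegral_indicator measurableSet_Icc] at h3
  refine lt_of_le_of_lt h3 ?_
  refine ENNReal.add_lt_top.2 ⟨?_, lt_top_iff_ne_top.2 h2⟩
  simp

theorem measurableSet_Zk (k : ℕ) : MeasurableSet (Zk k) := by
  unfold Zk
  have h1 : MeasurableSet {z : ℝ × ℝ | z.1 ∈ II} := measurable_fst measurableSet_Icc
  have h2 : MeasurableSet {z : ℝ × ℝ | z.2 ∈ II} := measurable_snd measurableSet_Icc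
  have hm : Measurable (fun z : ℝ × ℝ => |z.1 - z.2|) := by fun_prop
  have h3 : MeasurableSet {z : ℝ × ℝ | (1 / 2 : ℝ) ^ (k + 1) < |z.1 - z.2|} :=
    measurableSet_lt measurable_const hm
  have h4 : MeasurableSet {z : ℝ × ℝ | |z.1 - z.2| ≤ (1 / 2 : ℝ) ^ k} :=
    measurableSet_le hm measurable_const
  exact h1.inter (h2.inter (h3.inter h4))

theorem disjoint_Zk : Pairwise (Function.onFun Disjoint Zk) := by
  have key : ∀ i j : ℕ, i < j → Disjoint (Zk i) (Zk j) := by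
    intro i j hij
    rw [Set.disjoint_left]
    rintro z ⟨-, -, h1, -⟩ ⟨-, -, -, h2⟩
    have h3 : (1 / 2 : ℝ) ^ j ≤ (1 / 2 : ℝ) ^ (i + 1) :=
      pow_le_pow_of_le_one (by norm_num) (by norm_num) hij
    linarith
  intro i j hij
  rcases lt_or_gt_of_ne hij with h | h
  · exact key i j h
  · exact (key j i h).symm

theorem ae_ne : ∀ᵐ z : ℝ × ℝ, z.1 ≠ z.2 := by
  have hm : MeasurableSet {z : ℝ × ℝ | z.1 = z.2} :=
    measurableSet_eq_fun measurable_fst measurable_snd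
  have h0 : (volume : Measure (ℝ × ℝ)) {z : ℝ × ℝ | z.1 = z.2} = 0 := by
    rw [Measure.volume_eq_prod, Measure.measure_prod_null hm]
    refine Eventually.of_forall fun x => ?_
    have : Prod.mk x ⁻¹' {z : ℝ × ℝ | z.1 = z.2} = {x} := by
      ext y
      simp only [mem_preimage, mem_singleton_iff]
      constructor
      · intro h; exact h.symm
      · intro h; exact h.symm
    change volume (Prod.mk x ⁻¹' {z : ℝ × ℝ | z.1 = z.2}) = 0
    rw [this]
    simp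
  rw [ae_iff]
  convert h0 using 2
  ext z
  simp

theorem mem_Zk {z : ℝ × ℝ} (h1 : z.1 ∈ II) (h2 : z.2 ∈ II) (hz : z.1 ≠ z.2) :
    z ∈ ⋃ k, Zk k := by
  have h3 : 0 < |z.1 - z.2| := abs_pos.2 (sub_ne_zero.2 hz)
  have h4 : |z.1 - z.2| ≤ 1 := by
    rw [abs_le]
    constructor
    · linarith [h1.1, h2.2]
    · linarith [h1.2, h2.1]
  obtain ⟨k, hk1, hk2⟩ := exists_nat_pow_near_of_lt_one h3 h4
    (by norm_num : (0 : ℝ) < 1 / 2) (by norm_num)
  exact mem_iUnion.2 ⟨k, h1, h2, hk1, hk2⟩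

theorem prod_eq (f g : ℝ → ℂ) (w : ℝ × ℝ) :
    ∫ z : ℝ × ℝ, u (w.1 * (z.1 - z.2) + w.2 * (z.1 ^ 2 - z.2 ^ 2)) *
      (f z.1 * (starRingEnd ℂ) (g z.2)) = E1 f w * (starRingEnd ℂ) (E1 g w) := by
  unfold E1
  rw [← integral_conj, Measure.volume_eq_prod, ← integral_prod_mul]
  refine integral_congr_ae (Eventually.of_forall fun z => ?_)
  simp only [map_mul]
  rw [show w.1 * (z.1 - z.2) + w.2 * (z.1 ^ 2 - z.2 ^ 2) =
    (w.1 * z.1 + w.2 * z.1 ^ 2) - (w.1 * z.2 + w.2 * z.2 ^ 2) by ring, u_sub]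
  ring

theorem integrable_prod {f g : ℝ → ℂ} (hf : Integrable f) (hg : Integrable g) (w : ℝ × ℝ) :
    Integrable (fun z : ℝ × ℝ => u (w.1 * (z.1 - z.2) + w.2 * (z.1 ^ 2 - z.2 ^ 2)) *
      (f z.1 * (starRingEnd ℂ) (g z.2))) := by
  have h1 : Integrable (fun z : ℝ × ℝ => f z.1 * (starRingEnd ℂ) (g z.2)) := by
    have h2 : Integrable (fun x => (starRingEnd ℂ) (g x)) :=
      ContinuousLinearMap.integrable_comp (Complex.conjCLE : ℂ →L[ℝ] ℂ) hg
    rw [Measure.volume_eq_prod]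
    exact hf.mul_prod h2
  have hm : AEStronglyMeasurable
      (fun z : ℝ × ℝ => u (w.1 * (z.1 - z.2) + w.2 * (z.1 ^ 2 - z.2 ^ 2))) volume := by
    have : Measurable (fun z : ℝ × ℝ => w.1 * (z.1 - z.2) + w.2 * (z.1 ^ 2 - z.2 ^ 2)) := by
      fun_prop
    exact (measurable_u.comp this).aestronglyMeasurable
  refine h1.bdd_mul (c := 1) hm (Eventually.of_forall fun z => ?_)
  rw [norm_u]

end BP3_

/-- BP3: decomposition -/
theorem p_BP3 : T_BP3 := by
  intro f g hf hg hf0 hg0 hf2 hg2 w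
  have h1 := BP3_.integrable_of_sq hf hf0 hf2
  have h2 := BP3_.integrable_of_sq hg hg0 hg2
  have h3 := BP3_.integrable_prod h1 h2 w
  have h4 := BP3_.prod_eq f g w
  have h5 : ∫ z in ⋃ k, Zk k, u (w.1 * (z.1 - z.2) + w.2 * (z.1 ^ 2 - z.2 ^ 2)) *
      (f z.1 * (starRingEnd ℂ) (g z.2)) = E1 f w * (starRingEnd ℂ) (E1 g w) := by
    rw [← h4]
    refine setIntegral_eq_integral_of_ae_compl_eq_zero ?_
    filter_upwards [BP3_.ae_ne] with z hz hz'
    by_cases ha : z.1 ∈ II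
    · by_cases hb : z.2 ∈ II
      · exact absurd (BP3_.mem_Zk ha hb hz) hz'
      · rw [hg0 _ hb, map_zero, mul_zero, mul_zero]
    · rw [hf0 _ ha, zero_mul, mul_zero]
  rw [integral_iUnion BP3_.measurableSet_Zk BP3_.disjoint_Zk h3.integrableOn] at h5
  have h6 : ‖E1 f w‖ₑ * ‖E1 g w‖ₑ = ‖E1 f w * (starRingEnd ℂ) (E1 g w)‖ₑ := by
    rw [enorm_mul]
    congr 1
    rw [← ofReal_norm, ← ofReal_norm, RCLike.norm_conj]
  rw [h6, ← h5]
  exact enorm_tsum_le_tsum_enorm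

end TriL
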