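import Pool.Agent.TriL.Targets

/-!
# MP_5ab805_an, target BP4: the norm of the vector of the pieces (helper76)
-/

set_option autoImplicit false

namespace TriL

open MeasureTheory Set Filter
open scoped ENNReal NNReal Topology
open Pool.Agent.Restr (u E E1 QQ)
open Pool.Agent.H27.Fib (Few fib ind vr Ls)

namespace BP4_

theorem measurableSet_Zk (k : ℕ) : MeasurableSet (Zk k) := by
  have h1 : MeasurableSet {z : ℝ × ℝ | z.1 ∈ II} := measurable_fst measurableSet_Icc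
  have h2 : MeasurableSet {z : ℝ × ℝ | z.2 ∈ II} := measurable_snd measurableSet_Icc
  have h3 : MeasurableSet {z : ℝ × ℝ | (1 / 2 : ℝ) ^ (k + 1) < |z.1 - z.2|} :=
    measurableSet_lt measurable_const (by fun_prop)
  have h4 : MeasurableSet {z : ℝ × ℝ | |z.1 - z.2| ≤ (1 / 2 : ℝ) ^ k} :=
    measurableSet_le (by fun_prop) measurable_const
  exact h1.inter (h2.inter (h3.inter h4))

theorem measurable_nm {ι : Type} [Fintype ι] {U : ι → ℝ → ℂ} (hU : Fam U) :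
    Measurable (nm U) := by
  unfold nm
  exact Finset.measurable_sum _ fun j _ => ((hU j).1.enorm).pow_const 2

theorem nm_out {ι : Type} [Fintype ι] {U : ι → ℝ → ℂ} (hU : Fam U) {x : ℝ} (hx : x ∉ II) :
    nm U x = 0 := by
  unfold nm
  refine Finset.sum_eq_zero fun j _ => ?_
  rw [(hU j).2 x hx]
  simp

theorem measurable_piece (k : ℕ) {f g : ℝ → ℂ} (hf : Measurable f) (hg : Measurable g) :
    Measurable (TriL.Bk k f g) := by
  have hu : Measurable u := Pool.Agent.Restr.measurable_u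
  have hm : Measurable (fun q : (ℝ × ℝ) × (ℝ × ℝ) =>
      u (q.1.1 * (q.2.1 - q.2.2) + q.1.2 * (q.2.1 ^ 2 - q.2.2 ^ 2)) *
        (f q.2.1 * (starRingEnd ℂ) (g q.2.2))) := by
    have h1 : Measurable (fun q : (ℝ × ℝ) × (ℝ × ℝ) =>
      u (q.1.1 * (q.2.1 - q.2.2) + q.1.2 * (q.2.1 ^ 2 - q.2.2 ^ 2))) :=
      hu.comp (by fun_prop)
    have h2 : Measurable (fun q : (ℝ × ℝ) × (ℝ × ℝ) => f q.2.1) := hf.comp (by fun_prop)
    have h3 : Measurable (fun q : (ℝ × ℝ) × (ℝ × ℝ) => (starRingEnd ℂ) (g q.2.2)) :=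
      Complex.continuous_conj.measurable.comp (hg.comp (by fun_prop))
    exact h1.mul (h2.mul h3)
  exact (hm.stronglyMeasurable.integral_prod_right
    (ν := (volume : Measure (ℝ × ℝ)).restrict (Zk k))).measurable

theorem vol_section (k : ℕ) (x : ℝ) :
    volume {y : ℝ | (1 / 2 : ℝ) ^ (k + 1) < |x - y| ∧ |x - y| ≤ (1 / 2 : ℝ) ^ k} ≤
      ENNReal.ofReal ((1 / 2 : ℝ) ^ k) := by
  have hsub : {y : ℝ | (1 / 2 : ℝ) ^ (k + 1) < |x - y| ∧ |x - y| ≤ (1 / 2 : ℝ) ^ k} ⊆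
      Icc (x - (1 / 2 : ℝ) ^ k) (x - (1 / 2 : ℝ) ^ (k + 1)) ∪
      Icc (x + (1 / 2 : ℝ) ^ (k + 1)) (x + (1 / 2 : ℝ) ^ k) := by
    rintro y ⟨h1, h2⟩
    rcases le_total 0 (x - y) with h | h
    · rw [abs_of_nonneg h] at h1 h2
      left
      constructor <;> linarith
    · rw [abs_of_nonpos h] at h1 h2
      right
      constructor <;> linarith
  have hp : (0 : ℝ) < (1 / 2 : ℝ) ^ k := by positivity
  calc _ ≤ volume (Icc (x - (1 / 2 : ℝ) ^ k) (x - (1 / 2 : ℝ) ^ (k + 1)) ∪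
      Icc (x + (1 / 2 : ℝ) ^ (k + 1)) (x + (1 / 2 : ℝ) ^ k)) := measure_mono hsub
    _ ≤ volume (Icc (x - (1 / 2 : ℝ) ^ k) (x - (1 / 2 : ℝ) ^ (k + 1))) +
        volume (Icc (x + (1 / 2 : ℝ) ^ (k + 1)) (x + (1 / 2 : ℝ) ^ k)) := measure_union_le _ _
    _ = ENNReal.ofReal ((1 / 2 : ℝ) ^ k) := by
        rw [Real.volume_Icc, Real.volume_Icc, ← ENNReal.ofReal_add]
        · congr 1
          rw [pow_succ]
          ring
        · rw [pow_succ]; linarith
        · rw [pow_succ]; linarith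

/-- Tonelli on a piece, for a function of the first variable -/
theorem lint_piece (k : ℕ) {φ : ℝ → ℝ≥0∞} (hφ : Measurable φ) :
    ∫⁻ z in Zk k, φ z.1 ≤ ENNReal.ofReal ((1 / 2 : ℝ) ^ k) * ∫⁻ x in II, φ x := by
  have hZ := measurableSet_Zk k
  rw [← lintegral_indicator hZ, Measure.volume_eq_prod,
    lintegral_prod _ ((Measurable.indicator (by fun_prop) hZ).aemeasurable),
    ← lintegral_indicator measurableSet_Icc, ← lintegral_const_mul _
      (hφ.indicator measurableSet_Icc)]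
  refine lintegral_mono fun x => ?_
  by_cases hx : x ∈ II
  · calc ∫⁻ y, (Zk k).indicator (fun z : ℝ × ℝ => φ z.1) (x, y)
        ≤ ∫⁻ y, {y : ℝ | (1 / 2 : ℝ) ^ (k + 1) < |x - y| ∧
            |x - y| ≤ (1 / 2 : ℝ) ^ k}.indicator (fun _ => φ x) y := by
          refine lintegral_mono fun y => ?_
          by_cases hz : (x, y) ∈ Zk k
          · have hy : y ∈ {y : ℝ | (1 / 2 : ℝ) ^ (k + 1) < |x - y| ∧
              |x - y| ≤ (1 / 2 : ℝ) ^ k} := ⟨hz.2.2.1, hz.2.2.2⟩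
            rw [indicator_of_mem hz, indicator_of_mem hy]
          · rw [indicator_of_notMem hz]
            exact zero_le
      _ ≤ φ x * volume {y : ℝ | (1 / 2 : ℝ) ^ (k + 1) < |x - y| ∧
            |x - y| ≤ (1 / 2 : ℝ) ^ k} := lintegral_indicator_const_le _ _
      _ ≤ φ x * ENNReal.ofReal ((1 / 2 : ℝ) ^ k) := by
          gcongr
          exact vol_section k x
      _ = _ := by rw [indicator_of_mem hx, mul_comm]
  · have h0 : ∀ y, (Zk k).indicator (fun z : ℝ × ℝ => φ z.1) (x, y) = 0 := by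
      intro y
      exact indicator_of_notMem (fun hz => hx hz.1) _
    simp only [h0, lintegral_const, zero_mul]
    exact zero_le

theorem vol_II : volume II = 1 := by
  rw [Real.volume_Icc]
  norm_num

/-- Cauchy-Schwarz on the unit interval -/
theorem cs_II {φ : ℝ → ℝ≥0∞} (hφ : Measurable φ) :
    (∫⁻ x in II, φ x ^ (1 / 2 : ℝ)) ^ 2 ≤ ∫⁻ x in II, φ x := by
  have h := ENNReal.lintegral_mul_le_Lp_mul_Lq (volume.restrict II)
    (p := 2) (q := 2) (by constructor <;> norm_num)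
    (f := fun x => φ x ^ (1 / 2 : ℝ)) (g := fun _ => 1)
    ((hφ.pow_const _).aemeasurable) aemeasurable_const
  have hone : ∫⁻ _ : ℝ in II, (1 : ℝ≥0∞) = 1 := by
    rw [lintegral_const, Measure.restrict_apply MeasurableSet.univ, univ_inter,
      vol_II, mul_one]
  have h2 : ∀ x, (φ x ^ (1 / 2 : ℝ)) ^ (2 : ℝ) = φ x := by
    intro x
    rw [← ENNReal.rpow_mul]
    norm_num
  simp only [Pi.mul_apply, mul_one, ENNReal.one_rpow, h2] at h
  rw [hone, ENNReal.one_rpow, mul_one] at h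
  calc _ ≤ ((∫⁻ x in II, φ x) ^ (1 / 2 : ℝ)) ^ 2 := by gcongr
    _ = _ := by
      rw [← ENNReal.rpow_natCast, ← ENNReal.rpow_mul]
      norm_num

theorem const_real (s : ℝ) (k : ℕ) :
    (((1 / 2 : ℝ) ^ k) ^ 2) ^ (s / 2 - 1) = 2 ^ (-((s - 2) * k)) := by
  have h1 : ((1 / 2 : ℝ) ^ k) ^ 2 = (2 : ℝ) ^ (-(2 * k : ℝ)) := by
    rw [Real.rpow_neg (by norm_num), show (2 * k : ℝ) = ((2 * k : ℕ) : ℝ) by push_cast; ring,
      Real.rpow_natCast, ← pow_mul, mul_comm k 2, one_div, inv_pow]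
  rw [h1, ← Real.rpow_mul (by norm_num)]
  congr 1
  ring

end BP4_

open BP4_ in
theorem p_BP4 (h1 : T_BP1) (h2 : T_BP2) : T_BP4 := by
  intro s hs ι κ _ _ F U hF hU hU1 k
  set V : ℝ × ℝ → ℝ≥0∞ := fun w => ∑ i, ∑ j, ‖TriL.Bk k (F i) (U j) w‖ₑ ^ 2 with hV
  set I : ℝ≥0∞ := ∫⁻ x, nm F x with hI
  set c : ℝ≥0∞ := ENNReal.ofReal ((1 / 2 : ℝ) ^ k) with hc
  have hmF := measurable_nm hF
  have hmU := measurable_nm hU
  have hII : ∫⁻ x in II, nm F x ≤ I := setLIntegral_le_lintegral _ _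
  have hmB : ∀ i j, Measurable (fun w => ‖TriL.Bk k (F i) (U j) w‖ₑ ^ 2) := fun i j =>
    ((measurable_piece k (hF i).1 (hU j).1).enorm).pow_const 2
  have hmV : Measurable V := by
    rw [hV]
    exact Finset.measurable_sum _ fun i _ => Finset.measurable_sum _ fun j _ => hmB i j
  -- sup bound
  have ha : ∀ w, V w ≤ c ^ 2 * I := by
    intro w
    calc V w ≤ (∫⁻ z in Zk k, (nm F z.1 * nm U z.2) ^ (1 / 2 : ℝ)) ^ 2 :=
          h2 ι κ F U hF hU k w
      _ ≤ (∫⁻ z in Zk k, nm F z.1 ^ (1 / 2 : ℝ)) ^ 2 := by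
          gcongr with z
          calc nm F z.1 * nm U z.2 ≤ nm F z.1 * 1 := by gcongr; exact hU1 _
            _ = _ := mul_one _
      _ ≤ (c * ∫⁻ x in II, nm F x ^ (1 / 2 : ℝ)) ^ 2 := by
          gcongr
          exact lint_piece k (hmF.pow_const _)
      _ = c ^ 2 * (∫⁻ x in II, nm F x ^ (1 / 2 : ℝ)) ^ 2 := mul_pow _ _ _
      _ ≤ c ^ 2 * I := by
          gcongr
          exact (cs_II hmF).trans hII
  -- integral bound
  have hb : ∫⁻ w, V w ≤ ENNReal.ofReal (4 * Real.pi ^ 2) * I := by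
    have e1 : ∫⁻ w, V w = ∑ i, ∑ j, ∫⁻ w, ‖TriL.Bk k (F i) (U j) w‖ₑ ^ 2 := by
      rw [hV, lintegral_finsetSum _ fun i _ => Finset.measurable_sum _ fun j _ => hmB i j]
      refine Finset.sum_congr rfl fun i _ => ?_
      rw [lintegral_finsetSum _ fun j _ => hmB i j]
    have hmp : ∀ i j, Measurable (fun z : ℝ × ℝ => ‖F i z.1‖ₑ ^ 2 * ‖U j z.2‖ₑ ^ 2) := by
      intro i j
      have hFi := (hF i).1
      have hUj := (hU j).1
      fun_prop
    have e2 : ∑ i, ∑ j, ∫⁻ z in Zk k, ‖F i z.1‖ₑ ^ 2 * ‖U j z.2‖ₑ ^ 2 =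
        ∫⁻ z in Zk k, nm F z.1 * nm U z.2 := by
      calc _ = ∑ i, ∫⁻ z in Zk k, ∑ j, ‖F i z.1‖ₑ ^ 2 * ‖U j z.2‖ₑ ^ 2 := by
            refine Finset.sum_congr rfl fun i _ => ?_
            rw [lintegral_finsetSum _ fun j _ => hmp i j]
        _ = ∫⁻ z in Zk k, ∑ i, ∑ j, ‖F i z.1‖ₑ ^ 2 * ‖U j z.2‖ₑ ^ 2 := by
            rw [lintegral_finsetSum _ fun i _ => Finset.measurable_sum _ fun j _ => hmp i j]
        _ = _ := by
            refine lintegral_congr fun z => ?_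
            unfold nm
            rw [Finset.sum_mul_sum]
    calc ∫⁻ w, V w = ∑ i, ∑ j, ∫⁻ w, ‖TriL.Bk k (F i) (U j) w‖ₑ ^ 2 := e1
      _ ≤ ∑ i, ∑ j, ENNReal.ofReal (4 * Real.pi ^ 2 * 2 ^ k) *
          ∫⁻ z in Zk k, ‖F i z.1‖ₑ ^ 2 * ‖U j z.2‖ₑ ^ 2 := by
          gcongr with i _ j _
          exact h1 k (F i) (U j) (hF i).1 (hU j).1
      _ = ENNReal.ofReal (4 * Real.pi ^ 2 * 2 ^ k) * ∫⁻ z in Zk k, nm F z.1 * nm U z.2 := by
          rw [← e2, Finset.mul_sum]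
          refine Finset.sum_congr rfl fun i _ => ?_
          rw [Finset.mul_sum]
      _ ≤ ENNReal.ofReal (4 * Real.pi ^ 2 * 2 ^ k) * ∫⁻ z in Zk k, nm F z.1 := by
          gcongr with z
          calc nm F z.1 * nm U z.2 ≤ nm F z.1 * 1 := by gcongr; exact hU1 _
            _ = _ := mul_one _
      _ ≤ ENNReal.ofReal (4 * Real.pi ^ 2 * 2 ^ k) * (c * I) := by
          gcongr
          refine (lint_piece k hmF).trans ?_
          gcongr
      _ = ENNReal.ofReal (4 * Real.pi ^ 2) * I := by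
          rw [← mul_assoc, hc, ← ENNReal.ofReal_mul (by positivity)]
          congr 2
          rw [mul_assoc, ← mul_pow]
          norm_num
  have hs1 : 0 ≤ s / 2 - 1 := by linarith
  have hpow : ∀ x : ℝ≥0∞, x ^ (s / 2) = x ^ (s / 2 - 1) * x := by
    intro x
    calc x ^ (s / 2) = x ^ ((s / 2 - 1) + 1) := by ring_nf
      _ = x ^ (s / 2 - 1) * x ^ (1 : ℝ) := ENNReal.rpow_add_of_nonneg _ _ hs1 zero_le_one
      _ = _ := by rw [ENNReal.rpow_one]
  have hcc : (c ^ 2) ^ (s / 2 - 1) = ENNReal.ofReal (2 ^ (-((s - 2) * k))) := by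
    rw [hc, ← ENNReal.ofReal_pow (by positivity),
      ENNReal.ofReal_rpow_of_pos (by positivity), const_real]
  calc ∫⁻ w, (∑ i, ∑ j, ‖TriL.Bk k (F i) (U j) w‖ₑ ^ 2) ^ (s / 2)
      = ∫⁻ w, V w ^ (s / 2 - 1) * V w := lintegral_congr fun w => hpow _
    _ ≤ ∫⁻ w, (c ^ 2 * I) ^ (s / 2 - 1) * V w := by
        gcongr with w
        exact ha w
    _ = (c ^ 2 * I) ^ (s / 2 - 1) * ∫⁻ w, V w := lintegral_const_mul _ hmV
    _ ≤ (c ^ 2 * I) ^ (s / 2 - 1) * (ENNReal.ofReal (4 * Real.pi ^ 2) * I) := by gcongr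
    _ = (ENNReal.ofReal (4 * Real.pi ^ 2) * (c ^ 2) ^ (s / 2 - 1)) *
        (I ^ (s / 2 - 1) * I) := by
        rw [ENNReal.mul_rpow_of_nonneg _ _ hs1]
        ring
    _ = ENNReal.ofReal (4 * Real.pi ^ 2 * 2 ^ (-((s - 2) * k))) * I ^ (s / 2) := by
        rw [← hpow, hcc, ← ENNReal.ofReal_mul (by positivity)]

end TriL
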