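import Pool.Agent.TriL.Targets

/-!
# MP_5ab805_an, project TRL: complex functions (job TRL-CPX)
-/

set_option autoImplicit false

namespace TriL

open MeasureTheory Set Filter
open scoped ENNReal NNReal Topology
open Pool.Agent.Restr (u norm_u enorm_u u_add measurable_u E E1 QQ measurable_E eLpNorm_le_one
  support_QQ vol_QQ)
open Pool.Agent.H27.Fib (Few fib ind vr Ls pp Ls_pp measurable_pp E_add E_const_mul four_parts)

/-- CPX: the linear estimate for complex functions -/
theorem p_CPX (hLIN : T_LIN) : T_CPX := by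
  intro q p hq hq4 hp
  obtain ⟨C, hC⟩ := hLIN q p hq hq4 hp
  have hq0 : 0 < q := by linarith
  have hq2 : 0 < q - 2 := by linarith
  have hp1 : 1 < p := by
    refine lt_of_le_of_lt ?_ hp
    rw [le_div_iff₀ hq2]
    linarith
  have h1q : (1 : ℝ≥0∞) ≤ ENNReal.ofReal q := by
    rw [← ENNReal.ofReal_one]
    exact ENNReal.ofReal_le_ofReal (by linarith)
  have h1p : (1 : ℝ≥0∞) ≤ ENNReal.ofReal p := by
    rw [← ENNReal.ofReal_one]
    exact ENNReal.ofReal_le_ofReal (by linarith)
  refine ⟨4 * C + 1, fun f m a b hf hf0 hm hfew ha hb => ?_⟩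
  have hm0 : (m : ℝ≥0∞) ≠ 0 := by
    have : m ≠ 0 := by omega
    exact_mod_cast this
  rcases eq_or_ne (eLpNorm f (ENNReal.ofReal p) volume) ⊤ with htop | htop
  · rw [htop, ENNReal.mul_top]
    · exact le_top
    · refine mul_ne_zero ?_ hm0
      simp
  have hL1 : eLpNorm f 1 volume ≤ eLpNorm f (ENNReal.ofReal p) volume :=
    eLpNorm_le_one (support_QQ hf0) h1p hf.aestronglyMeasurable vol_QQ
  have hint : Integrable f := by
    rw [← memLp_one_iff_integrable]
    exact ⟨hf.aestronglyMeasurable, lt_of_le_of_lt hL1 (lt_top_iff_ne_top.2 htop)⟩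
  have hom : Measurable fun x : ℝ × ℝ => a x.1 * b x.2 :=
    (ha.1.comp measurable_fst).mul (hb.1.comp measurable_snd)
  have hom1 : ∀ x : ℝ × ℝ, ‖a x.1 * b x.2‖ ≤ 1 := by
    intro x
    rw [norm_mul]
    exact mul_le_one₀ (ha.2 _) (norm_nonneg _) (hb.2 _)
  -- a single part
  have part : ∀ g : ℝ × ℝ → ℝ, Measurable g → (∀ x, |g x| ≤ ‖f x‖) →
      (∀ l, 0 < l → ∀ x, Few m (fib (Ls g l) x)) →
      Integrable (fun x : ℝ × ℝ => a x.1 * b x.2 * ((pp g x : ℝ) : ℂ)) ∧
      eLpNorm (E fun x => a x.1 * b x.2 * ((pp g x : ℝ) : ℂ)) (ENNReal.ofReal q) volume ≤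
        C * m * eLpNorm f (ENNReal.ofReal p) volume := by
    intro g hg hgf hgfew
    have hle : ∀ x, ‖pp g x‖ ≤ ‖f x‖ := by
      intro x
      unfold pp
      rw [Real.norm_of_nonneg (le_max_right _ _)]
      exact max_le ((le_abs_self _).trans (hgf x)) (norm_nonneg _)
    constructor
    · have h1 : Integrable (pp g) := hint.mono (measurable_pp hg).aestronglyMeasurable
        (Eventually.of_forall hle)
      exact h1.ofReal.bdd_mul (c := 1) hom.aestronglyMeasurable (Eventually.of_forall hom1)
    · refine (hC (pp g) m a b (measurable_pp hg) (fun x hx => ?_) (fun x => le_max_right _ _) hm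
        (fun l hl x => ?_) ha hb).trans ?_
      · have h1 := hle x
        rw [hf0 x hx, norm_zero] at h1
        exact norm_le_zero_iff.1 h1
      · rw [Ls_pp g hl]
        exact hgfew l hl x
      · gcongr
        exact eLpNorm_mono hle
  have hre : Measurable fun y => (f y).re := Complex.measurable_re.comp hf
  have him : Measurable fun y => (f y).im := Complex.measurable_im.comp hf
  obtain ⟨i1, b1⟩ := part (fun y => (f y).re) hre (fun x => Complex.abs_re_le_norm _)
    (fun l hl x => (hfew l hl x).1)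
  obtain ⟨i2, b2⟩ := part (fun y => -(f y).re) hre.neg (fun x => by
    rw [abs_neg]; exact Complex.abs_re_le_norm _) (fun l hl x => (hfew l hl x).2.1)
  obtain ⟨i3, b3⟩ := part (fun y => (f y).im) him (fun x => Complex.abs_im_le_norm _)
    (fun l hl x => (hfew l hl x).2.2.1)
  obtain ⟨i4, b4⟩ := part (fun y => -(f y).im) him.neg (fun x => by
    rw [abs_neg]; exact Complex.abs_im_le_norm _) (fun l hl x => (hfew l hl x).2.2.2)
  set G1 : ℝ × ℝ → ℂ := fun x => a x.1 * b x.2 * ((pp (fun y => (f y).re) x : ℝ) : ℂ) with hG1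
  set G2 : ℝ × ℝ → ℂ := fun x => a x.1 * b x.2 * ((pp (fun y => -(f y).re) x : ℝ) : ℂ) with hG2
  set G3 : ℝ × ℝ → ℂ := fun x => a x.1 * b x.2 * ((pp (fun y => (f y).im) x : ℝ) : ℂ) with hG3
  set G4 : ℝ × ℝ → ℂ := fun x => a x.1 * b x.2 * ((pp (fun y => -(f y).im) x : ℝ) : ℂ) with hG4
  have m1 : Measurable (E G1) :=
    measurable_E (hom.mul (Complex.measurable_ofReal.comp (measurable_pp hre)))
  have m2 : Measurable (E G2) :=
    measurable_E (hom.mul (Complex.measurable_ofReal.comp (measurable_pp hre.neg)))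
  have m3 : Measurable (E G3) :=
    measurable_E (hom.mul (Complex.measurable_ofReal.comp (measurable_pp him)))
  have m4 : Measurable (E G4) :=
    measurable_E (hom.mul (Complex.measurable_ofReal.comp (measurable_pp him.neg)))
  have hfE : (E fun x => a x.1 * b x.2 * f x) = fun ξ => (E G1 ξ + (-1) * E G2 ξ) +
      (Complex.I * E G3 ξ + (-Complex.I) * E G4 ξ) := by
    funext ξ
    have e1 : (fun x : ℝ × ℝ => a x.1 * b x.2 * f x) = fun x => (G1 x + (-1) * G2 x) +
        (Complex.I * G3 x + (-Complex.I) * G4 x) := by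
      funext x
      have h := congrArg (fun z => a x.1 * b x.2 * z) (four_parts (f x))
      rw [h, hG1, hG2, hG3, hG4]
      unfold pp
      ring
    conv_lhs => rw [e1]
    rw [E_add (f := fun x => G1 x + (-1) * G2 x)
      (g := fun x => Complex.I * G3 x + (-Complex.I) * G4 x)
      (i1.add (i2.const_mul _)) ((i3.const_mul _).add (i4.const_mul _)),
      E_add i1 (i2.const_mul _), E_add (i3.const_mul _) (i4.const_mul _), E_const_mul,
      E_const_mul, E_const_mul]
  have hmono : ∀ (c : ℂ) (g : ℝ × ℝ × ℝ → ℂ), ‖c‖ = 1 →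
      eLpNorm (fun ξ => c * g ξ) (ENNReal.ofReal q) volume =
        eLpNorm g (ENNReal.ofReal q) volume := by
    intro c g hc
    refine eLpNorm_congr_norm_ae (Eventually.of_forall fun ξ => ?_)
    rw [norm_mul, hc, one_mul]
  rw [hfE]
  calc eLpNorm (fun ξ => (E G1 ξ + (-1) * E G2 ξ) +
        (Complex.I * E G3 ξ + (-Complex.I) * E G4 ξ)) (ENNReal.ofReal q) volume
      ≤ eLpNorm (fun ξ => E G1 ξ + (-1) * E G2 ξ) (ENNReal.ofReal q) volume +
        eLpNorm (fun ξ => Complex.I * E G3 ξ + (-Complex.I) * E G4 ξ)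
          (ENNReal.ofReal q) volume :=
        eLpNorm_add_le (m1.add (m2.const_mul _)).aestronglyMeasurable
          ((m3.const_mul _).add (m4.const_mul _)).aestronglyMeasurable h1q
    _ ≤ (eLpNorm (E G1) (ENNReal.ofReal q) volume +
          eLpNorm (fun ξ => (-1) * E G2 ξ) (ENNReal.ofReal q) volume) +
        (eLpNorm (fun ξ => Complex.I * E G3 ξ) (ENNReal.ofReal q) volume +
          eLpNorm (fun ξ => (-Complex.I) * E G4 ξ) (ENNReal.ofReal q) volume) := by
        gcongr
        · exact eLpNorm_add_le m1.aestronglyMeasurable (m2.const_mul _).aestronglyMeasurable h1q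
        · exact eLpNorm_add_le (m3.const_mul _).aestronglyMeasurable
            (m4.const_mul _).aestronglyMeasurable h1q
    _ ≤ (C * m * eLpNorm f (ENNReal.ofReal p) volume +
          C * m * eLpNorm f (ENNReal.ofReal p) volume) +
        (C * m * eLpNorm f (ENNReal.ofReal p) volume +
          C * m * eLpNorm f (ENNReal.ofReal p) volume) := by
        rw [hmono _ _ (by simp), hmono _ _ (by simp), hmono _ _ (by simp)]
        gcongr
    _ = (4 * C : ℝ≥0) * m * eLpNorm f (ENNReal.ofReal p) volume := by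
        push_cast
        ring
    _ ≤ _ := by
        gcongr
        exact_mod_cast le_self_add

end TriL
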