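import Pool.Agent.TriL.Targets

set_option autoImplicit false

namespace TriL

open MeasureTheory Set Filter
open scoped ENNReal NNReal Topology

namespace DY1_

theorem mem_iff (n j : ℕ) (y : ℝ) :
    y ∈ Iv n j ↔ (j : ℝ) ≤ (y + 1 / 2) * 2 ^ n ∧ (y + 1 / 2) * 2 ^ n < j + 1 := by
  have h2 : (0 : ℝ) < 2 ^ n := by positivity
  have e : ((1 : ℝ) / 2) ^ n = (2 ^ n)⁻¹ := by rw [one_div, inv_pow]
  unfold Iv
  rw [Set.mem_Ico, e]
  constructor
  · rintro ⟨h1, h3⟩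
    constructor
    · have h4 : (j : ℝ) * (2 ^ n)⁻¹ ≤ y + 1 / 2 := by linarith
      calc (j : ℝ) = (j : ℝ) * (2 ^ n)⁻¹ * 2 ^ n := by field_simp
        _ ≤ (y + 1 / 2) * 2 ^ n := mul_le_mul_of_nonneg_right h4 h2.le
    · have h4 : y + 1 / 2 < ((j : ℝ) + 1) * (2 ^ n)⁻¹ := by linarith
      calc (y + 1 / 2) * 2 ^ n < (((j : ℝ) + 1) * (2 ^ n)⁻¹) * 2 ^ n :=
            mul_lt_mul_of_pos_right h4 h2
        _ = j + 1 := by field_simp
  · rintro ⟨h1, h3⟩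
    constructor
    · have h4 : (j : ℝ) * (2 ^ n)⁻¹ ≤ ((y + 1 / 2) * 2 ^ n) * (2 ^ n)⁻¹ :=
        mul_le_mul_of_nonneg_right h1 (inv_nonneg.2 h2.le)
      have h5 : ((y + 1 / 2) * 2 ^ n) * (2 ^ n)⁻¹ = y + 1 / 2 := by field_simp
      linarith
    · have h4 : ((y + 1 / 2) * 2 ^ n) * (2 ^ n)⁻¹ < ((j : ℝ) + 1) * (2 ^ n)⁻¹ :=
        mul_lt_mul_of_pos_right h3 (inv_pos.2 h2)
      have h5 : ((y + 1 / 2) * 2 ^ n) * (2 ^ n)⁻¹ = y + 1 / 2 := by field_simp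
      linarith

theorem uniq {n i j : ℕ} {y : ℝ} (hi : y ∈ Iv n i) (hj : y ∈ Iv n j) : i = j := by
  rw [mem_iff] at hi hj
  have h1 : (i : ℝ) < j + 1 := hi.1.trans_lt hj.2
  have h2 : (j : ℝ) < i + 1 := hj.1.trans_lt hi.2
  have h3 : i < j + 1 := by exact_mod_cast h1
  have h4 : j < i + 1 := by exact_mod_cast h2
  omega

theorem up {n j : ℕ} {y : ℝ} (h : y ∈ Iv (n + 1) j) : y ∈ Iv n (j / 2) := by
  rw [mem_iff] at h ⊢
  have h1 : j / 2 * 2 ≤ j := Nat.div_mul_le_self j 2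
  have h2 : j + 1 ≤ (j / 2 + 1) * 2 := by omega
  have h3 : ((j / 2 : ℕ) : ℝ) * 2 ≤ j := by exact_mod_cast h1
  have h4 : (j : ℝ) + 1 ≤ (((j / 2 : ℕ) : ℝ) + 1) * 2 := by exact_mod_cast h2
  rw [pow_succ] at h
  constructor
  · nlinarith [h.1]
  · nlinarith [h.2]

theorem down {n i : ℕ} {y : ℝ} (h : y ∈ Iv n i) :
    y ∈ Iv (n + 1) (2 * i) ∨ y ∈ Iv (n + 1) (2 * i + 1) := by
  rw [mem_iff] at h
  rw [mem_iff, mem_iff, pow_succ]
  push_cast
  by_cases h1 : (y + 1 / 2) * (2 ^ n * 2) < 2 * i + 1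
  · left
    exact ⟨by nlinarith [h.1], h1⟩
  · right
    exact ⟨by linarith, by nlinarith [h.2]⟩

theorem sum_single {n N : ℕ} (f : ℕ → ℂ) {j : ℕ} (hj : j < N) {y : ℝ} (h : y ∈ Iv n j) :
    ∑ i : Fin N, f i * (Iv n i).indicator (1 : ℝ → ℂ) y = f j := by
  rw [Finset.sum_eq_single (⟨j, hj⟩ : Fin N)]
  · rw [Set.indicator_of_mem h]
    simp
  · intro i _ hi
    rw [Set.indicator_of_notMem, mul_zero]
    intro hy
    exact hi (Fin.ext (uniq hy h))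
  · intro h1
    exact absurd (Finset.mem_univ _) h1

theorem sum_zero {n N : ℕ} (f : ℕ → ℂ) {y : ℝ} (h : ∀ j, j < N → y ∉ Iv n j) :
    ∑ i : Fin N, f i * (Iv n i).indicator (1 : ℝ → ℂ) y = 0 := by
  refine Finset.sum_eq_zero fun i _ => ?_
  rw [Set.indicator_of_notMem (h i i.2), mul_zero]

theorem first (k : ℝ → ℂ) (n : ℕ) (y : ℝ) : Ea k (n + 1) y - Ea k n y =
    ∑ j : Fin (2 ^ (n + 1)), df k n j * (Iv (n + 1) j).indicator 1 y := by
  unfold Ea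
  by_cases h : ∃ j, j < 2 ^ (n + 1) ∧ y ∈ Iv (n + 1) j
  · obtain ⟨j, hj, hy⟩ := h
    have hj2 : j / 2 < 2 ^ n := by
      rw [pow_succ] at hj
      omega
    rw [sum_single (fun i => av k (n + 1) i) hj hy, sum_single (fun i => av k n i) hj2 (up hy),
      sum_single (fun i => df k n i) hj hy]
    rfl
  · have h1 : ∀ j, j < 2 ^ (n + 1) → y ∉ Iv (n + 1) j := fun j hj hy => h ⟨j, hj, hy⟩
    have h2 : ∀ i, i < 2 ^ n → y ∉ Iv n i := by
      intro i hi hy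
      rcases down hy with h3 | h3
      · exact h1 _ (by rw [pow_succ]; omega) h3
      · exact h1 _ (by rw [pow_succ]; omega) h3
    rw [sum_zero (fun i => av k (n + 1) i) h1, sum_zero (fun i => av k n i) h2,
      sum_zero (fun i => df k n i) h1, sub_zero]

theorem enorm_sq {n N : ℕ} (f : ℕ → ℂ) (y : ℝ) :
    ‖∑ i : Fin N, f i * (Iv n i).indicator (1 : ℝ → ℂ) y‖ₑ ^ 2 =
      ∑ i : Fin N, (Iv n i).indicator (fun _ => ‖f i‖ₑ ^ 2) y := by
  by_cases h : ∃ j, j < N ∧ y ∈ Iv n j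
  · obtain ⟨j, hj, hy⟩ := h
    rw [sum_single f hj hy, Finset.sum_eq_single (⟨j, hj⟩ : Fin N)]
    · rw [Set.indicator_of_mem hy]
    · intro i _ hi
      rw [Set.indicator_of_notMem]
      intro hy'
      exact hi (Fin.ext (uniq hy' hy))
    · intro h1
      exact absurd (Finset.mem_univ _) h1
  · have h1 : ∀ j, j < N → y ∉ Iv n j := fun j hj hy => h ⟨j, hj, hy⟩
    rw [sum_zero f h1, Finset.sum_eq_zero]
    · simp
    · intro i _
      rw [Set.indicator_of_notMem (h1 i i.2)]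

theorem vol (n j : ℕ) : volume (Iv n j) = ENNReal.ofReal ((1 / 2) ^ n) := by
  unfold Iv
  rw [Real.volume_Ico]
  congr 1
  ring

end DY1_

theorem p_DY1 : T_DY1 := by
  intro k n
  refine ⟨DY1_.first k n, ?_⟩
  have h1 : ∀ y, ‖Ea k (n + 1) y - Ea k n y‖ₑ ^ 2 =
      ∑ i : Fin (2 ^ (n + 1)), (Iv (n + 1) i).indicator (fun _ => ‖df k n i‖ₑ ^ 2) y := by
    intro y
    rw [DY1_.first k n y]
    exact DY1_.enorm_sq (fun i => df k n i) y
  rw [lintegral_congr h1, lintegral_finsetSum]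
  · have h2 : ∀ i : Fin (2 ^ (n + 1)),
        ∫⁻ y, (Iv (n + 1) i).indicator (fun _ => ‖df k n i‖ₑ ^ 2) y =
          ‖df k n i‖ₑ ^ 2 * ENNReal.ofReal ((1 / 2) ^ (n + 1)) := by
      intro i
      rw [lintegral_indicator (by unfold Iv; exact measurableSet_Ico), lintegral_const,
        Measure.restrict_apply MeasurableSet.univ, Set.univ_inter, DY1_.vol]
    rw [Finset.sum_congr rfl fun i _ => h2 i, ← Finset.sum_mul, mul_comm _ (ENNReal.ofReal _),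
      ← mul_assoc, ← ENNReal.ofReal_mul (by positivity)]
    have e : (2 : ℝ) ^ (n + 1) * (1 / 2) ^ (n + 1) = 1 := by
      rw [← mul_pow]
      norm_num
    rw [e, ENNReal.ofReal_one, one_mul]
  · intro i _
    exact measurable_const.indicator (by unfold Iv; exact measurableSet_Ico)

end TriL
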