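import Pool.Agent.TriL.Targets

/-!
# MP_5ab805_an, project TRL, job DY2 (helper21)

Distance to the dyadic average by the modulus of continuity.
-/

set_option autoImplicit false

namespace TriL

open MeasureTheory Set Filter
open scoped ENNReal NNReal Topology

namespace DY2_

lemma pow_inv (n : ℕ) : (1 / 2 : ℝ) ^ n * 2 ^ n = 1 := by
  rw [← mul_pow]; norm_num

lemma mem_iff (n j : ℕ) (y : ℝ) : y ∈ Iv n j ↔
    (j : ℝ) ≤ (y + 1 / 2) * 2 ^ n ∧ (y + 1 / 2) * 2 ^ n < j + 1 := by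
  have h2 : (0 : ℝ) < 2 ^ n := by positivity
  have hp := pow_inv n
  have h1 : (0 : ℝ) < (1 / 2 : ℝ) ^ n := by positivity
  unfold Iv
  rw [mem_Ico]
  constructor
  · rintro ⟨ha, hb⟩
    constructor
    · have := mul_le_mul_of_nonneg_right (show (j : ℝ) * (1 / 2) ^ n ≤ y + 1 / 2 by linarith) h2.le
      rwa [mul_assoc, hp, mul_one] at this
    · have := mul_lt_mul_of_pos_right (show y + 1 / 2 < ((j : ℝ) + 1) * (1 / 2) ^ n by linarith) h2
      rwa [mul_assoc ((j : ℝ) + 1), hp, mul_one] at this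
  · rintro ⟨ha, hb⟩
    constructor
    · have := mul_le_mul_of_nonneg_right ha h1.le
      rw [mul_assoc, mul_comm ((2 : ℝ) ^ n), hp, mul_one] at this
      linarith
    · have := mul_lt_mul_of_pos_right hb h1
      rw [mul_assoc, mul_comm ((2 : ℝ) ^ n), hp, mul_one] at this
      linarith

lemma uniq (n i j : ℕ) (y : ℝ) (hi : y ∈ Iv n i) (hj : y ∈ Iv n j) : i = j := by
  rw [mem_iff] at hi hj
  have h1 : (i : ℝ) < j + 1 := lt_of_le_of_lt hi.1 hj.2
  have h2 : (j : ℝ) < i + 1 := lt_of_le_of_lt hj.1 hi.2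
  have h1' : i < j + 1 := by exact_mod_cast h1
  have h2' : j < i + 1 := by exact_mod_cast h2
  omega

lemma exi (n : ℕ) (y : ℝ) (h0 : -(1 / 2) ≤ y) (h1 : y < 1 / 2) :
    ∃ j : Fin (2 ^ n), y ∈ Iv n j := by
  have h2 : (0 : ℝ) < 2 ^ n := by positivity
  have hnn : 0 ≤ (y + 1 / 2) * 2 ^ n := mul_nonneg (by linarith) h2.le
  have hlt : (y + 1 / 2) * 2 ^ n < 2 ^ n := by
    have := mul_lt_mul_of_pos_right (show y + 1 / 2 < 1 by linarith) h2
    linarith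
  refine ⟨⟨⌊(y + 1 / 2) * 2 ^ n⌋₊, ?_⟩, ?_⟩
  · rw [Nat.floor_lt hnn]
    push_cast
    exact hlt
  · rw [mem_iff]
    exact ⟨Nat.floor_le hnn, Nat.lt_floor_add_one _⟩

lemma Iv_sub (n : ℕ) (j : Fin (2 ^ n)) : Iv n j ⊆ Ico (-(1 / 2)) (1 / 2) := by
  intro y hy
  rw [mem_iff] at hy
  have h2 : (0 : ℝ) < 2 ^ n := by positivity
  have hj : ((j : ℕ) : ℝ) + 1 ≤ 2 ^ n := by
    have := j.2
    have h : (j : ℕ) + 1 ≤ 2 ^ n := this
    exact_mod_cast h
  have h0 : (0 : ℝ) ≤ (j : ℕ) := Nat.cast_nonneg _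
  constructor
  · by_contra hc
    push Not at hc
    have := mul_neg_of_neg_of_pos (show y + 1 / 2 < 0 by linarith) h2
    linarith [hy.1]
  · have h3 : (y + 1 / 2) * 2 ^ n < 1 * 2 ^ n := by linarith [hy.2]
    have := lt_of_mul_lt_mul_right h3 h2.le
    linarith

lemma Ea_eq (k : ℝ → ℂ) (n : ℕ) (y : ℝ) (j : Fin (2 ^ n)) (hy : y ∈ Iv n j) :
    Ea k n y = av k n j := by
  unfold Ea
  rw [Finset.sum_eq_single j]
  · rw [indicator_of_mem hy, Pi.one_apply, mul_one]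
  · intro i _ hij
    rw [indicator_of_notMem, mul_zero]
    intro hi
    exact hij (Fin.ext (uniq n i j y hi hy))
  · intro h
    exact absurd (Finset.mem_univ j) h

lemma Ea_zero (k : ℝ → ℂ) (n : ℕ) (y : ℝ) (hy : y ∉ Ico (-(1 / 2) : ℝ) (1 / 2)) :
    Ea k n y = 0 := by
  unfold Ea
  apply Finset.sum_eq_zero
  intro j _
  rw [indicator_of_notMem, mul_zero]
  intro h
  exact hy (Iv_sub n j h)

lemma meas_Iv (n j : ℕ) : MeasurableSet (Iv n j) := measurableSet_Ico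

lemma vol_Iv (n j : ℕ) : volume (Iv n j) = ENNReal.ofReal ((1 / 2) ^ n) := by
  unfold Iv
  rw [Real.volume_Ico]
  congr 1
  ring

/-- the pointwise estimate -/
lemma point (k : ℝ → ℂ) (n : ℕ) (hk : Measurable k) (hA : ∃ A : ℝ, ∀ y, ‖k y‖ ≤ A)
    (y : ℝ) (j : Fin (2 ^ n)) (hy : y ∈ Iv n j) :
    ‖k y - Ea k n y‖ₑ ^ 2 ≤ ENNReal.ofReal (2 ^ n) *
      ∫⁻ h in Icc (-(1 / 2 : ℝ) ^ n) ((1 / 2 : ℝ) ^ n), ‖k (y + h) - k y‖ₑ ^ 2 := by
  obtain ⟨A, hA⟩ := hA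
  have hvol := vol_Iv n j
  have hfin : volume (Iv n j) ≠ ⊤ := by rw [hvol]; exact ENNReal.ofReal_ne_top
  have hreal : (volume (Iv n j)).toReal = (1 / 2) ^ n := by
    rw [hvol, ENNReal.toReal_ofReal (by positivity)]
  have hint : IntegrableOn k (Iv n j) :=
    Measure.integrableOn_of_bounded hfin hk.aestronglyMeasurable (ae_of_all _ hA)
  have hcst : IntegrableOn (fun _ : ℝ => k y) (Iv n j) := integrableOn_const hfin
  have hpc : (2 : ℂ) ^ n * (1 / 2) ^ n = 1 := by rw [← mul_pow]; norm_num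
  -- the difference as an integral
  have h1 : k y - Ea k n y = 2 ^ n * ∫ z in Iv n j, (k y - k z) := by
    rw [Ea_eq k n y j hy, integral_sub hcst hint, setIntegral_const, Measure.real, hreal]
    unfold av
    rw [mul_sub]
    congr 1
    rw [Complex.real_smul, ← mul_assoc]
    push_cast
    rw [hpc, one_mul]
  have h2n : ‖(2 : ℂ) ^ n‖ₑ = ENNReal.ofReal (2 ^ n) := by
    rw [← ofReal_norm]
    congr 1
    rw [norm_pow]
    norm_num
  have h2 : ‖k y - Ea k n y‖ₑ ≤ ENNReal.ofReal (2 ^ n) * ∫⁻ z in Iv n j, ‖k y - k z‖ₑ := by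
    rw [h1, enorm_mul, h2n]
    gcongr
    exact enorm_integral_le_lintegral_enorm _
  -- Cauchy-Schwarz
  have h3 : (∫⁻ z in Iv n j, ‖k y - k z‖ₑ) ^ 2 ≤
      ENNReal.ofReal ((1 / 2) ^ n) * ∫⁻ z in Iv n j, ‖k y - k z‖ₑ ^ 2 := by
    have hm : AEMeasurable (fun z => ‖k y - k z‖ₑ) (volume.restrict (Iv n j)) :=
      (measurable_const.sub hk).enorm.aemeasurable
    have hcs := ENNReal.lintegral_mul_le_Lp_mul_Lq (volume.restrict (Iv n j))
      Real.HolderConjugate.two_two (f := fun _ => (1 : ℝ≥0∞)) (g := fun z => ‖k y - k z‖ₑ)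
      aemeasurable_const hm
    simp only [Pi.mul_apply, one_mul, ENNReal.one_rpow, lintegral_const, Measure.restrict_apply,
      MeasurableSet.univ, univ_inter, hvol] at hcs
    have hsq : ∀ X : ℝ≥0∞, (X ^ (1 / 2 : ℝ)) ^ 2 = X := by
      intro X
      rw [← ENNReal.rpow_natCast, ← ENNReal.rpow_mul]
      norm_num
    calc (∫⁻ z in Iv n j, ‖k y - k z‖ₑ) ^ 2
        ≤ (ENNReal.ofReal ((1 / 2) ^ n) ^ (1 / 2 : ℝ) *
          (∫⁻ z in Iv n j, ‖k y - k z‖ₑ ^ (2 : ℝ)) ^ (1 / 2 : ℝ)) ^ 2 := by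
          exact pow_le_pow_left' hcs 2
      _ = _ := by
          rw [mul_pow, hsq, hsq]
          congr 1
          apply lintegral_congr
          intro z
          exact_mod_cast ENNReal.rpow_natCast (‖k y - k z‖ₑ) 2
  -- substitution
  have h4 : ∫⁻ z in Iv n j, ‖k y - k z‖ₑ ^ 2 ≤
      ∫⁻ h in Icc (-(1 / 2 : ℝ) ^ n) ((1 / 2 : ℝ) ^ n), ‖k (y + h) - k y‖ₑ ^ 2 := by
    rw [← lintegral_indicator (meas_Iv n j), ← lintegral_indicator measurableSet_Icc,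
      ← lintegral_add_left_eq_self (fun z => (Iv n j).indicator (fun z => ‖k y - k z‖ₑ ^ 2) z) y]
    apply lintegral_mono
    intro h
    by_cases hh : y + h ∈ Iv n j
    · have hmem : h ∈ Icc (-(1 / 2 : ℝ) ^ n) ((1 / 2 : ℝ) ^ n) := by
        unfold Iv at hy hh
        rw [mem_Ico] at hy hh
        constructor <;> nlinarith [hy.1, hy.2, hh.1, hh.2]
      simp only [indicator_of_mem hh, indicator_of_mem hmem]
      rw [← enorm_neg, neg_sub]
    · simp only [indicator_of_notMem hh]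
      exact bot_le
  have hpow : ENNReal.ofReal (2 ^ n) * ENNReal.ofReal ((1 / 2) ^ n) = 1 := by
    rw [← ENNReal.ofReal_mul (by positivity), mul_comm, pow_inv, ENNReal.ofReal_one]
  calc ‖k y - Ea k n y‖ₑ ^ 2 ≤ (ENNReal.ofReal (2 ^ n) * ∫⁻ z in Iv n j, ‖k y - k z‖ₑ) ^ 2 :=
        pow_le_pow_left' h2 2
    _ = ENNReal.ofReal (2 ^ n) ^ 2 * (∫⁻ z in Iv n j, ‖k y - k z‖ₑ) ^ 2 := mul_pow _ _ _
    _ ≤ ENNReal.ofReal (2 ^ n) ^ 2 * (ENNReal.ofReal ((1 / 2) ^ n) *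
        ∫⁻ h in Icc (-(1 / 2 : ℝ) ^ n) ((1 / 2 : ℝ) ^ n), ‖k (y + h) - k y‖ₑ ^ 2) := by
        gcongr
        exact h3.trans (by gcongr)
    _ = _ := by
        rw [sq, mul_assoc, ← mul_assoc (ENNReal.ofReal (2 ^ n)) (ENNReal.ofReal ((1 / 2) ^ n)),
          hpow, one_mul]

end DY2_

open DY2_ in
theorem p_DY2 : T_DY2 := by
  intro k n hk hA hsupp
  have hae : ∀ᵐ y : ℝ, ‖k y - Ea k n y‖ₑ ^ 2 ≤ ENNReal.ofReal (2 ^ n) *
      ∫⁻ h in Icc (-(1 / 2 : ℝ) ^ n) ((1 / 2 : ℝ) ^ n), ‖k (y + h) - k y‖ₑ ^ 2 := by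
    have hne : ∀ᵐ y : ℝ, y ≠ 1 / 2 := by
      rw [ae_iff]
      simp
    filter_upwards [hne] with y hy
    by_cases hm : y ∈ Ico (-(1 / 2) : ℝ) (1 / 2)
    · obtain ⟨j, hj⟩ := exi n y hm.1 hm.2
      exact point k n hk hA y j hj
    · have h0 : k y = 0 := by
        apply hsupp
        intro hI
        apply hm
        exact ⟨hI.1, lt_of_le_of_ne hI.2 hy⟩
      rw [h0, Ea_zero k n y hm, sub_zero, enorm_zero]
      simp
  have hmeas : Measurable (Function.uncurry fun y h : ℝ => ‖k (y + h) - k y‖ₑ ^ 2) := by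
    unfold Function.uncurry
    exact (((hk.comp (measurable_fst.add measurable_snd)).sub (hk.comp measurable_fst)).enorm).pow_const 2
  refine (lintegral_mono_ae hae).trans ?_
  rw [lintegral_const_mul]
  · rw [lintegral_lintegral_swap hmeas.aemeasurable]
  · exact Measurable.lintegral_prod_right' (f := fun p : ℝ × ℝ => ‖k (p.1 + p.2) - k p.1‖ₑ ^ 2) hmeas

end TriL
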