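import Pool.Agent.TriL.Targets

/-!
# MP_5ab805_an: dyadic averages are contractions on `L²` (helper90)
-/

set_option autoImplicit false

namespace TriL

open MeasureTheory Set Filter
open scoped ENNReal NNReal Topology

namespace DY3_

theorem meas_Iv (n j : ℕ) : MeasurableSet (Iv n j) := measurableSet_Ico

theorem vol_Iv (n j : ℕ) : volume (Iv n j) = ENNReal.ofReal ((1 / 2 : ℝ) ^ n) := by
  unfold Iv
  rw [Real.volume_Ico]
  congr 1
  ring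

theorem disj_aux {n i j : ℕ} (h : i < j) {y : ℝ} (hi : y ∈ Iv n i) (hj : y ∈ Iv n j) : False := by
  have h1 : ((i : ℝ) + 1) ≤ (j : ℝ) := by exact_mod_cast h
  have h2 : (0 : ℝ) < (1 / 2 : ℝ) ^ n := by positivity
  have h3 := hi.2
  have h4 := hj.1
  have h5 := mul_le_mul_of_nonneg_right h1 h2.le
  linarith

theorem disj {n i j : ℕ} (h : i ≠ j) : Disjoint (Iv n i) (Iv n j) := by
  rw [Set.disjoint_left]
  intro y hi hj
  rcases lt_or_gt_of_ne h with h' | h'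
  · exact disj_aux h' hi hj
  · exact disj_aux h' hj hi

/-- the square of the dyadic average is a sum over the intervals -/
theorem sq_Ea (k : ℝ → ℂ) (n : ℕ) (y : ℝ) :
    ‖Ea k n y‖ₑ ^ 2 = ∑ j : Fin (2 ^ n), (Iv n j).indicator (fun _ => ‖av k n j‖ₑ ^ 2) y := by
  unfold Ea
  by_cases hy : ∃ j : Fin (2 ^ n), y ∈ Iv n j
  · obtain ⟨j, hj⟩ := hy
    have hne : ∀ i : Fin (2 ^ n), i ≠ j → y ∉ Iv n i := by
      intro i hi hyi
      exact (Set.disjoint_left.1 (disj (n := n) (i := i) (j := j) (fun h => hi (Fin.ext h)))) hyi hj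
    rw [Finset.sum_eq_single j, Finset.sum_eq_single j]
    · simp [Set.indicator_of_mem hj]
    · intro i _ hi
      exact Set.indicator_of_notMem (hne i hi) _
    · intro h
      exact absurd (Finset.mem_univ j) h
    · intro i _ hi
      rw [Set.indicator_of_notMem (hne i hi), mul_zero]
    · intro h
      exact absurd (Finset.mem_univ j) h
  · have h0 : ∀ i : Fin (2 ^ n), y ∉ Iv n i := fun i hi => hy ⟨i, hi⟩
    rw [Finset.sum_eq_zero, Finset.sum_eq_zero]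
    · simp
    · intro i _
      exact Set.indicator_of_notMem (h0 i) _
    · intro i _
      rw [Set.indicator_of_notMem (h0 i), mul_zero]

/-- Cauchy-Schwarz -/
theorem cs (k : ℝ → ℂ) (hk : Measurable k) (S : Set ℝ) :
    (∫⁻ y in S, ‖k y‖ₑ) ^ 2 ≤ volume S * ∫⁻ y in S, ‖k y‖ₑ ^ 2 := by
  have h := ENNReal.lintegral_mul_le_Lp_mul_Lq (volume.restrict S)
    (Real.HolderConjugate.two_two) (f := fun y => ‖k y‖ₑ) (g := fun _ => 1)
    hk.enorm.aemeasurable measurable_const.aemeasurable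
  have e1 : (fun y => (‖k y‖ₑ : ℝ≥0∞)) * (fun _ => (1 : ℝ≥0∞)) = fun y => ‖k y‖ₑ := by
    funext y
    simp
  rw [e1] at h
  have h2 : (∫⁻ y in S, ‖k y‖ₑ) ^ 2 ≤
      ((∫⁻ y in S, ‖k y‖ₑ ^ (2 : ℝ)) ^ (1 / 2 : ℝ) *
        (∫⁻ _ in S, (1 : ℝ≥0∞) ^ (2 : ℝ)) ^ (1 / 2 : ℝ)) ^ 2 := by
    gcongr
  refine h2.trans (le_of_eq ?_)
  rw [mul_pow, ← ENNReal.rpow_natCast, ← ENNReal.rpow_mul, ← ENNReal.rpow_natCast,
    ← ENNReal.rpow_mul]
  simp [mul_comm]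

theorem av_le (k : ℝ → ℂ) (hk : Measurable k) (n j : ℕ) :
    ‖av k n j‖ₑ ^ 2 * volume (Iv n j) ≤ ∫⁻ y in Iv n j, ‖k y‖ₑ ^ 2 := by
  have h1 : ‖∫ y in Iv n j, k y‖ₑ ≤ ∫⁻ y in Iv n j, ‖k y‖ₑ := enorm_integral_le_lintegral_enorm _
  have h2 := cs k hk (Iv n j)
  have h3 : ‖av k n j‖ₑ = ENNReal.ofReal (2 ^ n) * ‖∫ y in Iv n j, k y‖ₑ := by
    unfold av
    rw [enorm_mul]
    congr 1
    rw [← ofReal_norm]
    simp
  have h4 : ENNReal.ofReal (2 ^ n) * ENNReal.ofReal ((1 / 2 : ℝ) ^ n) = 1 := by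
    rw [← ENNReal.ofReal_mul (by positivity), ← mul_pow]
    norm_num
  calc ‖av k n j‖ₑ ^ 2 * volume (Iv n j)
      = (ENNReal.ofReal (2 ^ n)) ^ 2 * ‖∫ y in Iv n j, k y‖ₑ ^ 2 *
          ENNReal.ofReal ((1 / 2 : ℝ) ^ n) := by rw [h3, mul_pow, vol_Iv]
    _ ≤ (ENNReal.ofReal (2 ^ n)) ^ 2 *
          (ENNReal.ofReal ((1 / 2 : ℝ) ^ n) * ∫⁻ y in Iv n j, ‖k y‖ₑ ^ 2) *
          ENNReal.ofReal ((1 / 2 : ℝ) ^ n) := by
        gcongr
        rw [← vol_Iv n j]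
        exact le_trans (by gcongr) h2
    _ = (ENNReal.ofReal (2 ^ n) * ENNReal.ofReal ((1 / 2 : ℝ) ^ n)) ^ 2 *
          ∫⁻ y in Iv n j, ‖k y‖ₑ ^ 2 := by ring
    _ = ∫⁻ y in Iv n j, ‖k y‖ₑ ^ 2 := by rw [h4]; simp

end DY3_

open DY3_ in
/-- DY3: contraction -/
theorem p_DY3 : T_DY3 := by
  intro k n hk _ _
  have e1 : ∫⁻ y, ‖Ea k n y‖ₑ ^ 2 =
      ∑ j : Fin (2 ^ n), ‖av k n j‖ₑ ^ 2 * volume (Iv n j) := by
    simp_rw [sq_Ea k n]
    rw [lintegral_finsetSum]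
    · refine Finset.sum_congr rfl fun j _ => ?_
      rw [lintegral_indicator (meas_Iv n j), setLIntegral_const]
    · intro j _
      exact measurable_const.indicator (meas_Iv n j)
  rw [e1]
  calc ∑ j : Fin (2 ^ n), ‖av k n j‖ₑ ^ 2 * volume (Iv n j)
      ≤ ∑ j : Fin (2 ^ n), ∫⁻ y in Iv n j, ‖k y‖ₑ ^ 2 :=
        Finset.sum_le_sum fun j _ => av_le k hk n j
    _ = ∫⁻ y in ⋃ j ∈ (Finset.univ : Finset (Fin (2 ^ n))), Iv n j, ‖k y‖ₑ ^ 2 := by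
        rw [lintegral_biUnion_finset]
        · intro i _ j _ hij
          exact disj (fun h => hij (Fin.ext h))
        · intro j _
          exact meas_Iv n j
    _ ≤ ∫⁻ y, ‖k y‖ₑ ^ 2 := setLIntegral_le_lintegral _ _

end TriL
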