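import Pool.Agent.TriL.Targets

/-!
# MP_5ab805_an, project TRL: bounds for the dyadic differences (DYD)
-/

set_option autoImplicit false

namespace TriL

open MeasureTheory Set Filter
open scoped ENNReal NNReal Topology
open Pool.Agent.Restr (u E E1 QQ)

namespace DYD_

theorem measurable_Ea (k : ℝ → ℂ) (n : ℕ) : Measurable (Ea k n) := by
  unfold Ea
  refine Finset.measurable_sum _ fun j _ => ?_
  refine Measurable.const_mul ?_ _
  exact (measurable_const (a := (1 : ℂ))).indicator measurableSet_Ico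

theorem vol_II : volume II = 1 := by
  rw [Real.volume_Icc]
  norm_num

theorem dist_le (h2 : T_DY2) {k : ℝ → ℂ} {s : ℝ} {M : ℝ≥0} (n : ℕ) (hk : Measurable k)
    (hb : ∃ A : ℝ, ∀ y, ‖k y‖ ≤ A) (h0 : ∀ y, y ∉ II → k y = 0) (hs : 0 < s)
    (hM : ∀ h : ℝ, ∫⁻ y, ‖k (y + h) - k y‖ₑ ^ 2 ≤
      (M : ℝ≥0∞) ^ 2 * ENNReal.ofReal (|h| ^ (2 * s))) :
    ∫⁻ y, ‖k y - Ea k n y‖ₑ ^ 2 ≤
      2 * (M : ℝ≥0∞) ^ 2 * ENNReal.ofReal (2 ^ (-(2 * s * n))) := by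
  have hp : (0 : ℝ) < (1 / 2 : ℝ) ^ n := by positivity
  have e1 : ((1 / 2 : ℝ) ^ n) ^ (2 * s) = 2 ^ (-(2 * s * n)) := by
    rw [one_div, inv_pow, Real.inv_rpow (by positivity), ← Real.rpow_natCast 2 n,
      ← Real.rpow_mul (by norm_num), Real.rpow_neg (by norm_num)]
    congr 2
    ring
  calc ∫⁻ y, ‖k y - Ea k n y‖ₑ ^ 2
      ≤ ENNReal.ofReal (2 ^ n) * ∫⁻ h in Icc (-(1 / 2 : ℝ) ^ n) ((1 / 2 : ℝ) ^ n),
          ∫⁻ y, ‖k (y + h) - k y‖ₑ ^ 2 := h2 k n hk hb h0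
    _ ≤ ENNReal.ofReal (2 ^ n) * ∫⁻ _h in Icc (-(1 / 2 : ℝ) ^ n) ((1 / 2 : ℝ) ^ n),
          (M : ℝ≥0∞) ^ 2 * ENNReal.ofReal (2 ^ (-(2 * s * n))) := by
        refine mul_le_mul_right (setLIntegral_mono' measurableSet_Icc fun h hh => ?_) _
        refine (hM h).trans ?_
        refine mul_le_mul_right (ENNReal.ofReal_le_ofReal ?_) _
        rw [← e1]
        exact Real.rpow_le_rpow (abs_nonneg _) (abs_le.2 ⟨hh.1, hh.2⟩) (by positivity)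
    _ = 2 * (M : ℝ≥0∞) ^ 2 * ENNReal.ofReal (2 ^ (-(2 * s * n))) := by
        rw [setLIntegral_const, Real.volume_Icc]
        have e2 : ENNReal.ofReal (2 ^ n) *
            ENNReal.ofReal ((1 / 2 : ℝ) ^ n - -(1 / 2 : ℝ) ^ n) = 2 := by
          rw [← ENNReal.ofReal_mul (by positivity)]
          have : (2 : ℝ) ^ n * ((1 / 2 : ℝ) ^ n - -(1 / 2 : ℝ) ^ n) = 2 := by
            have h3 : (2 : ℝ) ^ n * (1 / 2 : ℝ) ^ n = 1 := by
              rw [← mul_pow]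
              norm_num
            linear_combination 2 * h3
          rw [this]
          norm_num
        calc ENNReal.ofReal (2 ^ n) * ((M : ℝ≥0∞) ^ 2 * ENNReal.ofReal (2 ^ (-(2 * s * n))) *
              ENNReal.ofReal ((1 / 2 : ℝ) ^ n - -(1 / 2 : ℝ) ^ n))
            = (ENNReal.ofReal (2 ^ n) * ENNReal.ofReal ((1 / 2 : ℝ) ^ n - -(1 / 2 : ℝ) ^ n)) *
                (M : ℝ≥0∞) ^ 2 * ENNReal.ofReal (2 ^ (-(2 * s * n))) := by ring
          _ = _ := by rw [e2]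

theorem enorm_sub_sq_le (a b : ℂ) : ‖a - b‖ₑ ^ 2 ≤ 2 * ‖a‖ₑ ^ 2 + 2 * ‖b‖ₑ ^ 2 := by
  have h : ‖a - b‖ ^ 2 ≤ 2 * ‖a‖ ^ 2 + 2 * ‖b‖ ^ 2 := by
    have h1 := norm_sub_le a b
    have h2 : ‖a - b‖ ^ 2 ≤ (‖a‖ + ‖b‖) ^ 2 := by gcongr
    nlinarith [sq_nonneg (‖a‖ - ‖b‖)]
  have e : ∀ z : ℂ, ‖z‖ₑ ^ 2 = ENNReal.ofReal (‖z‖ ^ 2) := fun z => by
    rw [← ofReal_norm, ENNReal.ofReal_pow (norm_nonneg _)]
  rw [e, e, e]
  have e2 : (2 : ℝ≥0∞) = ENNReal.ofReal 2 := by norm_num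
  rw [e2, ← ENNReal.ofReal_mul (by norm_num), ← ENNReal.ofReal_mul (by norm_num),
    ← ENNReal.ofReal_add (by positivity) (by positivity)]
  exact ENNReal.ofReal_le_ofReal h

theorem diff_le (h2 : T_DY2) {k : ℝ → ℂ} {s : ℝ} {M : ℝ≥0} (n : ℕ) (hk : Measurable k)
    (hb : ∃ A : ℝ, ∀ y, ‖k y‖ ≤ A) (h0 : ∀ y, y ∉ II → k y = 0) (hs : 0 < s)
    (hM : ∀ h : ℝ, ∫⁻ y, ‖k (y + h) - k y‖ₑ ^ 2 ≤
      (M : ℝ≥0∞) ^ 2 * ENNReal.ofReal (|h| ^ (2 * s))) :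
    ∫⁻ y, ‖Ea k (n + 1) y - Ea k n y‖ₑ ^ 2 ≤
      8 * (M : ℝ≥0∞) ^ 2 * ENNReal.ofReal (2 ^ (-(2 * s * n))) := by
  have hm : ∀ m, Measurable fun y => ‖k y - Ea k m y‖ₑ ^ 2 := fun m =>
    ((hk.sub (measurable_Ea k m)).enorm.pow_const 2)
  calc ∫⁻ y, ‖Ea k (n + 1) y - Ea k n y‖ₑ ^ 2
      ≤ ∫⁻ y, (2 * ‖k y - Ea k n y‖ₑ ^ 2 + 2 * ‖k y - Ea k (n + 1) y‖ₑ ^ 2) := by
        refine lintegral_mono fun y => ?_
        have := enorm_sub_sq_le (k y - Ea k n y) (k y - Ea k (n + 1) y)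
        have e : k y - Ea k n y - (k y - Ea k (n + 1) y) = Ea k (n + 1) y - Ea k n y := by ring
        rwa [e] at this
    _ = (2 * ∫⁻ y, ‖k y - Ea k n y‖ₑ ^ 2) + (2 * ∫⁻ y, ‖k y - Ea k (n + 1) y‖ₑ ^ 2) := by
        rw [lintegral_add_left ((hm n).const_mul 2), lintegral_const_mul _ (hm n),
          lintegral_const_mul _ (hm (n + 1))]
    _ ≤ 2 * (2 * (M : ℝ≥0∞) ^ 2 * ENNReal.ofReal (2 ^ (-(2 * s * n)))) +
          2 * (2 * (M : ℝ≥0∞) ^ 2 * ENNReal.ofReal (2 ^ (-(2 * s * n)))) := by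
        refine add_le_add (mul_le_mul_right (dist_le h2 n hk hb h0 hs hM) _)
          (mul_le_mul_right ((dist_le h2 (n + 1) hk hb h0 hs hM).trans ?_) _)
        refine mul_le_mul_right (ENNReal.ofReal_le_ofReal ?_) _
        refine Real.rpow_le_rpow_of_exponent_le (by norm_num) ?_
        push_cast
        nlinarith
    _ = _ := by ring

theorem enorm_le_one' {z : ℂ} (h : ‖z‖ ≤ 1) : ‖z‖ₑ ≤ 1 := by
  rw [← ofReal_norm]
  exact ENNReal.ofReal_le_one.2 h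

theorem lint_le {F : ℝ → ℝ≥0∞} {c : ℝ≥0∞} (hF : ∀ x, F x ≤ c) (hF0 : ∀ x, x ∉ II → F x = 0) :
    ∫⁻ x, F x ≤ c := by
  calc ∫⁻ x, F x ≤ ∫⁻ x, II.indicator (fun _ => c) x := by
        refine lintegral_mono fun x => ?_
        by_cases hx : x ∈ II
        · rw [indicator_of_mem hx]
          exact hF x
        · rw [hF0 x hx]
          exact zero_le
    _ = c := by
        rw [lintegral_indicator measurableSet_Icc, setLIntegral_const, vol_II, mul_one]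

theorem ten_eq (h1 : T_DY1) (K : ℝ × ℝ → ℂ) (a b : ℝ → ℂ) (n : ℕ) (x : ℝ × ℝ) :
    ten (Ua K a n) (Vb b n) x = a x.1 * b x.2 * (Em K (n + 1) x - Em K n x) := by
  have h := (h1 (fun y => K (x.1, y)) n).1 x.2
  have e : Em K (n + 1) x - Em K n x = ∑ j : Fin (2 ^ (n + 1)),
      df (fun y => K (x.1, y)) n j * (Iv (n + 1) j).indicator 1 x.2 := h
  rw [e, Finset.mul_sum]
  refine Finset.sum_congr rfl fun j _ => ?_
  change a x.1 * df (fun y => K (x.1, y)) n j * (b x.2 * (Iv (n + 1) j).indicator 1 x.2) = _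
  ring

theorem nm_le (h1 : T_DY1) {K : ℝ × ℝ → ℂ} {a : ℝ → ℂ} (ha : Mu a) (n : ℕ) (x : ℝ) :
    nm (Ua K a n) x ≤ ENNReal.ofReal (2 ^ (n + 1)) *
      ∫⁻ y, ‖Ea (fun y => K (x, y)) (n + 1) y - Ea (fun y => K (x, y)) n y‖ₑ ^ 2 := by
  rw [← (h1 (fun y => K (x, y)) n).2]
  refine Finset.sum_le_sum fun j _ => ?_
  change ‖a x * df (fun y => K (x, y)) n j‖ₑ ^ 2 ≤ _
  rw [enorm_mul]
  refine pow_le_pow_left' ?_ 2
  calc ‖a x‖ₑ * ‖df (fun y => K (x, y)) n j‖ₑ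
      ≤ 1 * ‖df (fun y => K (x, y)) n j‖ₑ := mul_le_mul_left (enorm_le_one' (ha.2 x)) _
    _ = _ := one_mul _

theorem pow_id (s : ℝ) (n : ℕ) (M : ℝ≥0∞) :
    ENNReal.ofReal (2 ^ (n + 1)) * (8 * M ^ 2 * ENNReal.ofReal (2 ^ (-(2 * s * n)))) =
      16 * M ^ 2 * ENNReal.ofReal (2 ^ ((1 - 2 * s) * n)) := by
  have e : (2 : ℝ) ^ (n + 1) * 2 ^ (-(2 * s * n)) = 2 * 2 ^ ((1 - 2 * s) * n) := by
    rw [pow_succ, ← Real.rpow_natCast 2 n, mul_comm _ (2 : ℝ), mul_assoc,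
      ← Real.rpow_add (by norm_num)]
    congr 2
    ring
  have e2 : ENNReal.ofReal 2 = 2 := by norm_num
  calc ENNReal.ofReal (2 ^ (n + 1)) * (8 * M ^ 2 * ENNReal.ofReal (2 ^ (-(2 * s * n))))
      = 8 * M ^ 2 * (ENNReal.ofReal (2 ^ (n + 1)) * ENNReal.ofReal (2 ^ (-(2 * s * n)))) := by
        ring
    _ = 8 * M ^ 2 * (2 * ENNReal.ofReal (2 ^ ((1 - 2 * s) * n))) := by
        rw [← ENNReal.ofReal_mul (by positivity), e, ENNReal.ofReal_mul (by norm_num), e2]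
    _ = _ := by ring

end DYD_

open DYD_

theorem p_DYD (h1 : T_DY1) (h2 : T_DY2) (h3 : T_DY3) (hm : T_DYM) : T_DYD := by
  intro K a b s M n hK hK1 ha hb hs hs2 hMo
  have hSq : ∀ m, Sq (Em K m) := fun m => (hm K a b m hK hK1 ha hb).1
  have hkm : ∀ x, Measurable fun y => K (x, y) := fun x => hK.1.comp measurable_prodMk_left
  have hkb : ∀ x, ∃ A : ℝ, ∀ y, ‖K (x, y)‖ ≤ A := fun x => ⟨1, fun y => hK1 _⟩
  have hk0 : ∀ x y, y ∉ II → K (x, y) = 0 := fun x y hy => hK.2 _ fun h => hy h.2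
  have hEm : ∀ m, Measurable (Em K m) := fun m => (hSq m).1
  have hmd : Measurable fun x => ‖Em K (n + 1) x - Em K n x‖ₑ ^ 2 :=
    ((hEm (n + 1)).sub (hEm n)).enorm.pow_const 2
  have hEa : ∀ m x y, Em K m (x, y) = Ea (fun y => K (x, y)) m y := fun _ _ _ => rfl
  have hzero : ∀ m x y, x ∉ II → Ea (fun y => K (x, y)) m y = 0 := fun m x y hx =>
    (hSq m).2 (x, y) fun h => hx h.1
  have hten : n2 (ten (Ua K a n) (Vb b n)) ≤ ∫⁻ x, ‖Em K (n + 1) x - Em K n x‖ₑ ^ 2 := by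
    refine lintegral_mono fun x => ?_
    change ‖ten (Ua K a n) (Vb b n) x‖ₑ ^ 2 ≤ ‖Em K (n + 1) x - Em K n x‖ₑ ^ 2
    rw [ten_eq h1, enorm_mul, enorm_mul]
    refine pow_le_pow_left' ?_ 2
    calc ‖a x.1‖ₑ * ‖b x.2‖ₑ * ‖Em K (n + 1) x - Em K n x‖ₑ
        ≤ 1 * 1 * ‖Em K (n + 1) x - Em K n x‖ₑ :=
          mul_le_mul_left (mul_le_mul' (enorm_le_one' (ha.2 _)) (enorm_le_one' (hb.2 _))) _
      _ = _ := by rw [one_mul, one_mul]
  refine ⟨fun x => ?_, ?_, ?_, fun x => ten_eq h1 K a b n x, ?_⟩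
  · refine (nm_le h1 ha n x).trans ?_
    rw [← pow_id]
    exact mul_le_mul_right (diff_le h2 n (hkm x) (hkb x) (hk0 x) hs (hMo x)) _
  · refine hten.trans ?_
    rw [Measure.volume_eq_prod, lintegral_prod _ hmd.aemeasurable]
    simp only [hEa]
    refine (lint_le (c := 8 * (M : ℝ≥0∞) ^ 2 * ENNReal.ofReal (2 ^ (-(2 * s * n)))) (fun x => diff_le h2 n (hkm x) (hkb x) (hk0 x) hs (hMo x)) ?_).trans ?_
    · intro x hx
      simp only [hzero _ x _ hx, sub_zero, enorm_zero]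
      simp
    · refine mul_le_mul_left (mul_le_mul_left ?_ _) _
      norm_num
  · refine hten.trans ?_
    unfold n2
    rw [Measure.volume_eq_prod, lintegral_prod _ hmd.aemeasurable,
      lintegral_prod _ (hK.1.enorm.pow_const 2).aemeasurable,
      ← lintegral_const_mul' _ _ (by norm_num)]
    refine lintegral_mono fun x => ?_
    simp only [hEa]
    have hme : ∀ m, Measurable fun y => ‖Ea (fun y => K (x, y)) m y‖ₑ ^ 2 := fun m =>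
      (measurable_Ea _ m).enorm.pow_const 2
    calc ∫⁻ y, ‖Ea (fun y => K (x, y)) (n + 1) y - Ea (fun y => K (x, y)) n y‖ₑ ^ 2
        ≤ ∫⁻ y, (2 * ‖Ea (fun y => K (x, y)) (n + 1) y‖ₑ ^ 2 +
            2 * ‖Ea (fun y => K (x, y)) n y‖ₑ ^ 2) :=
          lintegral_mono fun y => enorm_sub_sq_le _ _
      _ = (2 * ∫⁻ y, ‖Ea (fun y => K (x, y)) (n + 1) y‖ₑ ^ 2) +
            (2 * ∫⁻ y, ‖Ea (fun y => K (x, y)) n y‖ₑ ^ 2) := by
          rw [lintegral_add_left ((hme (n + 1)).const_mul 2), lintegral_const_mul _ (hme (n + 1)),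
            lintegral_const_mul _ (hme n)]
      _ ≤ (2 * ∫⁻ y, ‖K (x, y)‖ₑ ^ 2) + (2 * ∫⁻ y, ‖K (x, y)‖ₑ ^ 2) :=
          add_le_add (mul_le_mul_right (h3 _ (n + 1) (hkm x) (hkb x) (hk0 x)) _)
            (mul_le_mul_right (h3 _ n (hkm x) (hkb x) (hk0 x)) _)
      _ = 4 * ∫⁻ y, ‖K (x, y)‖ₑ ^ 2 := by
          rw [← add_mul]
          norm_num
  · unfold n2
    have hmk : Measurable fun x => ‖K x - Em K n x‖ₑ ^ 2 := (hK.1.sub (hEm n)).enorm.pow_const 2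
    rw [Measure.volume_eq_prod, lintegral_prod _ hmk.aemeasurable]
    simp only [hEa]
    refine lint_le (fun x => dist_le h2 n (hkm x) (hkb x) (hk0 x) hs (hMo x)) ?_
    intro x hx
    have e0 : ∀ y, K (x, y) = 0 := fun y => hK.2 _ fun h => hx h.1
    simp only [hzero n x _ hx]
    simp only [e0, sub_zero, enorm_zero]
    simp

end TriL
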