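import Pool.Agent.TriL.Targets

/-!
# MP_5ab805_an, target DYM: measurability and supports
-/

set_option autoImplicit false

namespace TriL

open MeasureTheory Set Filter
open scoped ENNReal NNReal Topology
open Pool.Agent.Restr (u E E1 QQ)
open Pool.Agent.H27.Fib (Few fib ind vr Ls)

namespace DYM_

theorem Iv_subset {n j : ℕ} (hj : j < 2 ^ n) : Iv n j ⊆ II := by
  intro y hy
  obtain ⟨h1, h2⟩ := hy
  have hp : (0 : ℝ) < (1 / 2 : ℝ) ^ n := by positivity
  have hjn : (0 : ℝ) ≤ j := Nat.cast_nonneg j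
  have hj' : (j : ℝ) + 1 ≤ 2 ^ n := by exact_mod_cast hj
  have h3 : ((j : ℝ) + 1) * (1 / 2 : ℝ) ^ n ≤ 2 ^ n * (1 / 2 : ℝ) ^ n :=
    mul_le_mul_of_nonneg_right hj' hp.le
  have h4 : (2 : ℝ) ^ n * (1 / 2 : ℝ) ^ n = 1 := by
    rw [← mul_pow]; norm_num
  have h5 : 0 ≤ (j : ℝ) * (1 / 2 : ℝ) ^ n := mul_nonneg hjn hp.le
  constructor
  · linarith
  · linarith

theorem Iv_eq {n i j : ℕ} {y : ℝ} (hi : y ∈ Iv n i) (hj : y ∈ Iv n j) : i = j := by
  have key : ∀ {i j : ℕ}, y ∈ Iv n i → y ∈ Iv n j → ¬ i < j := by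
    intro i j hi hj hij
    have hp : (0 : ℝ) < (1 / 2 : ℝ) ^ n := by positivity
    have h1 : (i : ℝ) + 1 ≤ j := by exact_mod_cast hij
    have h2 := mul_le_mul_of_nonneg_right h1 hp.le
    have h3 := hi.2
    have h4 := hj.1
    linarith
  have h1 := key hi hj
  have h2 := key hj hi
  omega

theorem measurableSet_Iv (n j : ℕ) : MeasurableSet (Iv n j) := measurableSet_Ico

theorem measurable_av {K : ℝ × ℝ → ℂ} (hK : Measurable K) (n j : ℕ) :
    Measurable fun x : ℝ => av (fun y => K (x, y)) n j := by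
  unfold av
  have h : StronglyMeasurable fun x : ℝ => ∫ y in Iv n j, K (x, y) := by
    apply StronglyMeasurable.integral_prod_right (f := fun x y => K (x, y))
    exact hK.stronglyMeasurable
  exact h.measurable.const_mul _

theorem av_zero (n j : ℕ) : av (fun _ => 0) n j = 0 := by
  unfold av
  simp

theorem measurable_ind (n j : ℕ) : Measurable ((Iv n j).indicator (1 : ℝ → ℂ)) :=
  measurable_one.indicator (measurableSet_Iv n j)

end DYM_

open DYM_ in
theorem p_DYM : T_DYM := by
  intro K a b n hK hK1 ha hb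
  obtain ⟨hKm, hK0⟩ := hK
  have hslice : ∀ x : ℝ, x ∉ II → (fun y => K (x, y)) = fun _ => 0 := by
    intro x hx
    funext y
    exact hK0 (x, y) fun h => hx h.1
  refine ⟨⟨?_, ?_⟩, ?_, ?_, ?_⟩
  · unfold Em Ea
    refine Finset.measurable_fun_sum _ fun j _ => ?_
    exact ((measurable_av hKm n j).comp measurable_fst).mul
      ((measurable_ind n j).comp measurable_snd)
  · intro x hx
    unfold Em Ea
    refine Finset.sum_eq_zero fun j _ => ?_
    by_cases h1 : x.1 ∈ II
    · have h2 : x.2 ∉ II := fun h => hx ⟨h1, h⟩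
      rw [indicator_of_notMem fun h => h2 (Iv_subset j.2 h), mul_zero]
    · rw [hslice _ h1, av_zero, zero_mul]
  · intro j
    refine ⟨?_, ?_⟩
    · unfold Ua df
      exact ha.1.mul ((measurable_av hKm (n + 1) j).sub (measurable_av hKm n (j / 2)))
    · intro x hx
      unfold Ua df
      rw [hslice _ hx, av_zero, av_zero, sub_zero, mul_zero]
  · intro j
    refine ⟨?_, ?_⟩
    · unfold Vb
      exact hb.1.mul (measurable_ind (n + 1) j)
    · intro x hx
      unfold Vb
      rw [indicator_of_notMem fun h => hx (Iv_subset j.2 h), mul_zero]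
  · intro y
    unfold nm Vb
    by_cases h : ∃ j : Fin (2 ^ (n + 1)), y ∈ Iv (n + 1) j
    · obtain ⟨j, hj⟩ := h
      rw [Finset.sum_eq_single j]
      · rw [indicator_of_mem hj, Pi.one_apply, mul_one]
        have h1 : ‖b y‖ₑ ≤ 1 := by
          rw [← enorm_one (G := ℂ)]
          rw [enorm_le_iff_norm_le, norm_one]
          exact hb.2 y
        calc ‖b y‖ₑ ^ 2 ≤ 1 ^ 2 := by gcongr
          _ = 1 := one_pow 2
      · intro i _ hij
        rw [indicator_of_notMem fun h => hij (Fin.ext (Iv_eq h hj)), mul_zero]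
        simp
      · intro h
        exact absurd (Finset.mem_univ j) h
    · push Not at h
      rw [Finset.sum_eq_zero]
      · exact bot_le
      · intro j _
        rw [indicator_of_notMem (h j), mul_zero]
        simp

end TriL
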