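import Pool.Agent.TriL.Targets

/-!
# MP_5ab805_an: factorisation for tensors (helper95)
-/

set_option autoImplicit false

namespace TriL

namespace FAC_

open MeasureTheory Set Filter
open scoped ENNReal NNReal Topology
open Pool.Agent.Restr (u E E1 QQ)

theorem u_add (a b : ℝ) : u (a + b) = u a * u b := by
  unfold u
  rw [← Complex.exp_add]
  congr 1
  push_cast
  ring

theorem meas_u : Measurable u := by
  unfold u
  fun_prop

theorem integrable_aux {g : ℝ → ℂ} (hg : Measurable g) (hs : ∀ x, x ∉ II → g x = 0)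
    {A : ℝ} (hA : ∀ x, ‖g x‖ ≤ A) (a t : ℝ) :
    Integrable (fun x : ℝ => u (a * x + t * x ^ 2) * g x) := by
  have hm : Measurable (fun x : ℝ => u (a * x + t * x ^ 2) * g x) :=
    (meas_u.comp (by fun_prop)).mul hg
  have hsupp : (fun x : ℝ => u (a * x + t * x ^ 2) * g x) =
      II.indicator (fun x : ℝ => u (a * x + t * x ^ 2) * g x) := by
    funext x
    by_cases hx : x ∈ II
    · rw [indicator_of_mem hx]
    · rw [indicator_of_notMem hx, hs x hx, mul_zero]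
  rw [hsupp, integrable_indicator_iff measurableSet_Icc]
  have hfin : volume (II : Set ℝ) < ⊤ := by
    rw [Real.volume_Icc]
    exact ENNReal.ofReal_lt_top
  refine Measure.integrableOn_of_bounded (M := A) hfin.ne hm.aestronglyMeasurable ?_
  refine Filter.Eventually.of_forall fun x => ?_
  rw [norm_mul, Pool.Agent.Restr.norm_u, one_mul]
  exact hA x

theorem cs {ι : Type} [Fintype ι] (a b : ι → ℂ) :
    ‖∑ j, a j * b j‖ₑ ^ 2 ≤ (∑ j, ‖a j‖ₑ ^ 2) * ∑ j, ‖b j‖ₑ ^ 2 := by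
  have h1 : ‖∑ j, a j * b j‖ ≤ ∑ j, ‖a j‖ * ‖b j‖ := by
    refine (norm_sum_le _ _).trans (Finset.sum_le_sum fun j _ => ?_)
    rw [norm_mul]
  have h2 : ‖∑ j, a j * b j‖ ^ 2 ≤ (∑ j, ‖a j‖ ^ 2) * ∑ j, ‖b j‖ ^ 2 :=
    (pow_le_pow_left₀ (norm_nonneg _) h1 2).trans
      (Finset.sum_mul_sq_le_sq_mul_sq Finset.univ (fun j => ‖a j‖) (fun j => ‖b j‖))
  have key : ∀ c : ι → ℂ, ∑ j, ‖c j‖ₑ ^ 2 = ENNReal.ofReal (∑ j, ‖c j‖ ^ 2) := by
    intro c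
    rw [ENNReal.ofReal_sum_of_nonneg fun j _ => sq_nonneg _]
    refine Finset.sum_congr rfl fun j _ => ?_
    rw [ENNReal.ofReal_pow (norm_nonneg _), ofReal_norm]
  rw [key a, key b, ← ENNReal.ofReal_mul (Finset.sum_nonneg fun j _ => sq_nonneg _),
    ← ofReal_norm, ← ENNReal.ofReal_pow (norm_nonneg _)]
  exact ENNReal.ofReal_le_ofReal h2

theorem main {ι : Type} [Fintype ι] (U V : ι → ℝ → ℂ) (hU : Fam U) (hV : Fam V)
    {A B : ℝ} (hA : ∀ j x, ‖U j x‖ ≤ A) (hB : ∀ j x, ‖V j x‖ ≤ B) (ξ : ℝ × ℝ × ℝ) :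
    E (ten U V) ξ = ∑ j, E1 (U j) (ξ.1, ξ.2.2) * E1 (V j) (ξ.2.1, ξ.2.2) := by
  have h0 : ∀ x : ℝ × ℝ,
      u (ξ.1 * x.1 + (ξ.2.1 * x.2 + ξ.2.2 * (x.1 ^ 2 + x.2 ^ 2))) * ten U V x =
      ∑ j, (u (ξ.1 * x.1 + ξ.2.2 * x.1 ^ 2) * U j x.1) *
        (u (ξ.2.1 * x.2 + ξ.2.2 * x.2 ^ 2) * V j x.2) := by
    intro x
    have e : ξ.1 * x.1 + (ξ.2.1 * x.2 + ξ.2.2 * (x.1 ^ 2 + x.2 ^ 2)) =
        (ξ.1 * x.1 + ξ.2.2 * x.1 ^ 2) + (ξ.2.1 * x.2 + ξ.2.2 * x.2 ^ 2) := by ring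
    rw [e, u_add, ten, Finset.mul_sum]
    refine Finset.sum_congr rfl fun j _ => ?_
    ring
  have hi1 := fun j => integrable_aux (hU j).1 (hU j).2 (hA j) ξ.1 ξ.2.2
  have hi2 := fun j => integrable_aux (hV j).1 (hV j).2 (hB j) ξ.2.1 ξ.2.2
  unfold E
  simp_rw [h0]
  rw [integral_finsetSum]
  · refine Finset.sum_congr rfl fun j _ => ?_
    have := integral_prod_mul (μ := (volume : Measure ℝ)) (ν := (volume : Measure ℝ))
      (fun x : ℝ => u (ξ.1 * x + ξ.2.2 * x ^ 2) * U j x)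
      (fun y : ℝ => u (ξ.2.1 * y + ξ.2.2 * y ^ 2) * V j y)
    exact this
  · intro j _
    exact (hi1 j).mul_prod (hi2 j)

end FAC_

open MeasureTheory Set Filter
open scoped ENNReal NNReal Topology
open Pool.Agent.Restr (u E E1 QQ)

theorem p_FAC : T_FAC := by
  intro ι _ U V hU hV hA hB ξ
  obtain ⟨A, hA⟩ := hA
  obtain ⟨B, hB⟩ := hB
  rw [FAC_.main U V hU hV hA hB ξ]
  exact FAC_.cs _ _

end TriL
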