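import Pool.Agent.TriL.Targets

/-!
# MP_5ab805_an: interpolation of the trilinear estimate for tensors with Tomas-Stein
-/

set_option autoImplicit false

namespace TriL

open MeasureTheory Set Filter
open scoped ENNReal NNReal Topology
open Pool.Agent.Restr (u E E1 QQ)
open Pool.Agent.H27.Fib (Few fib ind vr)

namespace INT_

theorem sq_ten {ι : Type} [Fintype ι] {U V : ι → ℝ → ℂ} (hU : Fam U) (hV : Fam V) :
    Sq (ten U V) := by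
  constructor
  · unfold ten
    apply Finset.measurable_fun_sum
    intro j _
    exact ((hU j).1.comp measurable_fst).mul ((hV j).1.comp measurable_snd)
  · intro x hx
    unfold ten
    apply Finset.sum_eq_zero
    intro j _
    by_cases h1 : x.1 ∈ II
    · have h2 : x.2 ∉ II := fun h2 => hx ⟨h1, h2⟩
      rw [(hV j).2 _ h2, mul_zero]
    · rw [(hU j).2 _ h1, zero_mul]

/-- the function whose norm is `NN` -/
noncomputable def XX (f g : ℝ × ℝ → ℂ) (ξ : ℝ × ℝ × ℝ) : ℝ≥0∞ := ‖E f ξ‖ₑ ^ 2 * ‖E g ξ‖ₑ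

theorem measurable_XX {f g : ℝ × ℝ → ℂ} (hf : Measurable f) (hg : Measurable g) :
    Measurable (XX f g) :=
  ((Pool.Agent.Restr.measurable_E hf).enorm.pow_const 2).mul
    (Pool.Agent.Restr.measurable_E hg).enorm

/-- interpolation -/
theorem interp {X : ℝ × ℝ × ℝ → ℝ≥0∞} (hX : Measurable X) {r r0 r1 θ : ℝ} (hr : 0 < r)
    (hr0 : 0 < r0) (hr1 : 0 < r1) (hθ : 0 ≤ θ) (hθ1 : θ ≤ 1)
    (h : 1 / r = (1 - θ) / r0 + θ / r1) :
    (∫⁻ ξ, X ξ ^ r) ^ (1 / r) ≤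
      ((∫⁻ ξ, X ξ ^ r0) ^ (1 / r0)) ^ (1 - θ) * ((∫⁻ ξ, X ξ ^ r1) ^ (1 / r1)) ^ θ := by
  have hp : 0 ≤ (1 - θ) * r / r0 := by
    have : 0 ≤ 1 - θ := by linarith
    positivity
  have hq : 0 ≤ θ * r / r1 := by positivity
  have hpq : (1 - θ) * r / r0 + θ * r / r1 = 1 := by
    have h2 : ((1 - θ) / r0 + θ / r1) * r = 1 := by
      rw [← h]
      field_simp
    calc (1 - θ) * r / r0 + θ * r / r1 = ((1 - θ) / r0 + θ / r1) * r := by ring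
      _ = 1 := h2
  have h1 := ENNReal.lintegral_mul_norm_pow_le (μ := (volume : Measure (ℝ × ℝ × ℝ)))
    (hX.pow_const r0).aemeasurable (hX.pow_const r1).aemeasurable hp hq hpq
  have k1 : r0 * ((1 - θ) * r / r0) = (1 - θ) * r := by field_simp
  have k2 : r1 * (θ * r / r1) = θ * r := by field_simp
  have h2 : ∀ ξ, (X ξ ^ r0) ^ ((1 - θ) * r / r0) * (X ξ ^ r1) ^ (θ * r / r1) = X ξ ^ r := by
    intro ξ
    have h1θ : 0 ≤ 1 - θ := by linarith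
    rw [← ENNReal.rpow_mul, ← ENNReal.rpow_mul, k1, k2,
      ← ENNReal.rpow_add_of_nonneg _ _ (by positivity) (by positivity)]
    congr 1
    ring
  simp only [h2] at h1
  calc (∫⁻ ξ, X ξ ^ r) ^ (1 / r) ≤ ((∫⁻ ξ, X ξ ^ r0) ^ ((1 - θ) * r / r0) *
        (∫⁻ ξ, X ξ ^ r1) ^ (θ * r / r1)) ^ (1 / r) := ENNReal.rpow_le_rpow h1 (by positivity)
    _ = _ := by
        rw [ENNReal.mul_rpow_of_nonneg _ _ (by positivity), ← ENNReal.rpow_mul,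
          ← ENNReal.rpow_mul, ← ENNReal.rpow_mul, ← ENNReal.rpow_mul]
        congr 2
        · field_simp
        · field_simp

theorem NN_smul (ρ : ℝ) (hρ : 0 < ρ) (f g : ℝ × ℝ → ℂ) (c : ℂ) :
    NN ρ f (fun x => c * g x) = ‖c‖ₑ * NN ρ f g := by
  unfold NN
  have h1 : ∀ ξ, (‖E f ξ‖ₑ ^ 2 * ‖E (fun x => c * g x) ξ‖ₑ) ^ ρ =
      ‖c‖ₑ ^ ρ * (‖E f ξ‖ₑ ^ 2 * ‖E g ξ‖ₑ) ^ ρ := by
    intro ξ
    rw [Pool.Agent.H27.Fib.E_const_mul, enorm_mul, ← ENNReal.mul_rpow_of_nonneg _ _ hρ.le]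
    congr 1
    ring
  simp only [h1]
  rw [lintegral_const_mul' _ _ (by
    apply ENNReal.rpow_ne_top_of_nonneg hρ.le
    exact enorm_ne_top), ENNReal.mul_rpow_of_nonneg _ _ (by positivity), ← ENNReal.rpow_mul,
    mul_one_div_cancel hρ.ne', ENNReal.rpow_one]

/-- Tomas-Stein -/
theorem ts {f g : ℝ × ℝ → ℂ} (hf : Measurable f) (hg : Measurable g) :
    NN (4 / 3) f g ≤ ENNReal.ofReal (4 * Real.pi ^ 4) ^ (3 / 4 : ℝ) *
      (n2 f * n2 g ^ (1 / 2 : ℝ)) := by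
  have hEf := Pool.Agent.Restr.measurable_E hf
  have hEg := Pool.Agent.Restr.measurable_E hg
  set K : ℝ≥0∞ := ENNReal.ofReal (4 * Real.pi ^ 4) with hK
  have h1 := ENNReal.lintegral_mul_norm_pow_le (μ := (volume : Measure (ℝ × ℝ × ℝ)))
    (hEf.enorm.pow_const 4).aemeasurable (hEg.enorm.pow_const 4).aemeasurable
    (p := 2 / 3) (q := 1 / 3) (by norm_num) (by norm_num) (by norm_num)
  have h2 : ∀ ξ, (‖E f ξ‖ₑ ^ 4) ^ (2 / 3 : ℝ) * (‖E g ξ‖ₑ ^ 4) ^ (1 / 3 : ℝ) =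
      (‖E f ξ‖ₑ ^ 2 * ‖E g ξ‖ₑ) ^ (4 / 3 : ℝ) := by
    intro ξ
    rw [ENNReal.mul_rpow_of_nonneg _ _ (by norm_num), ← ENNReal.rpow_natCast,
      ← ENNReal.rpow_natCast, ← ENNReal.rpow_natCast, ← ENNReal.rpow_mul, ← ENNReal.rpow_mul,
      ← ENNReal.rpow_mul]
    norm_num
  simp only [h2] at h1
  have h3 := Pool.Agent.Restr.tomas_stein hf
  have h4 := Pool.Agent.Restr.tomas_stein hg
  have h5 : ∫⁻ ξ, (‖E f ξ‖ₑ ^ 2 * ‖E g ξ‖ₑ) ^ (4 / 3 : ℝ) ≤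
      (K * n2 f ^ 2) ^ (2 / 3 : ℝ) * (K * n2 g ^ 2) ^ (1 / 3 : ℝ) := by
    refine h1.trans (mul_le_mul' ?_ ?_)
    · exact ENNReal.rpow_le_rpow h3 (by norm_num)
    · exact ENNReal.rpow_le_rpow h4 (by norm_num)
  unfold NN
  refine (ENNReal.rpow_le_rpow h5 (by norm_num)).trans (le_of_eq ?_)
  rw [ENNReal.mul_rpow_of_nonneg K _ (by norm_num), ENNReal.mul_rpow_of_nonneg K _ (by norm_num),
    ← ENNReal.rpow_natCast, ← ENNReal.rpow_natCast, ← ENNReal.rpow_mul, ← ENNReal.rpow_mul]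
  have e1 : K ^ (2 / 3 : ℝ) * n2 f ^ (((2 : ℕ) : ℝ) * (2 / 3)) *
      (K ^ (1 / 3 : ℝ) * n2 g ^ (((2 : ℕ) : ℝ) * (1 / 3))) =
      K * (n2 f ^ (4 / 3 : ℝ) * n2 g ^ (2 / 3 : ℝ)) := by
    have e2 : K ^ (2 / 3 : ℝ) * K ^ (1 / 3 : ℝ) = K := by
      rw [← ENNReal.rpow_add_of_nonneg _ _ (by norm_num) (by norm_num)]
      norm_num
    rw [show (((2 : ℕ) : ℝ) * (2 / 3)) = 4 / 3 by norm_num,
      show (((2 : ℕ) : ℝ) * (1 / 3)) = 2 / 3 by norm_num]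
    calc _ = K ^ (2 / 3 : ℝ) * K ^ (1 / 3 : ℝ) * (n2 f ^ (4 / 3 : ℝ) * n2 g ^ (2 / 3 : ℝ)) := by
          ring
      _ = _ := by rw [e2]
  rw [e1, ENNReal.mul_rpow_of_nonneg _ _ (by norm_num), ENNReal.mul_rpow_of_nonneg _ _ (by norm_num),
    ← ENNReal.rpow_mul, ← ENNReal.rpow_mul]
  norm_num

end INT_

open INT_ in
theorem p_INT (h : T_TEN) : T_INT := by
  intro q θ hq3 hq4 hθ0 hθ
  have hq0 : 0 < q := by linarith
  have h12 : 3 < 12 / q := by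
    rw [lt_div_iff₀ hq0]
    linarith
  have hθ1 : θ < 1 := by linarith
  have h3q : 3 / q = 12 / q / 4 := by ring
  have hden : 0 < 3 / q - 3 * θ / 4 := by
    rw [h3q]
    linarith
  have h1θ : 0 < 1 - θ := by linarith
  set ρ := (1 - θ) / (3 / q - 3 * θ / 4) with hρdef
  have hρ1 : 1 < ρ := by
    rw [hρdef, lt_div_iff₀ hden, h3q]
    linarith
  have hρ0 : 0 < ρ := by linarith
  obtain ⟨C, hC⟩ := h ρ hρ1
  refine ⟨C ^ (1 - θ) * ((ENNReal.ofReal (4 * Real.pi ^ 4)).toNNReal ^ (3 / 4 : ℝ)) ^ θ, ?_⟩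
  intro ι _ U V f M hU hV hM hnU hnV hf
  set g := ten U V with hg
  have hgs : Sq g := sq_ten hU hV
  have hM' : ((M : ℝ) : ℂ) ≠ 0 := by
    exact_mod_cast hM.ne'
  -- (a)
  have ha : NN ρ f g ≤ C * M * n2 f := by
    set U' : ι → ℝ → ℂ := fun j x => ((M : ℝ) : ℂ)⁻¹ * U j x with hU'
    have hFU' : Fam U' := fun j => ⟨(hU j).1.const_mul _, fun x hx => by
      rw [hU']
      simp only
      rw [(hU j).2 x hx, mul_zero]⟩
    have heM : ‖((M : ℝ) : ℂ)‖ₑ = M := by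
      rw [← ofReal_norm, Complex.norm_real, Real.norm_of_nonneg M.coe_nonneg,
        ENNReal.ofReal_coe_nnreal]
    have heM' : ‖((M : ℝ) : ℂ)⁻¹‖ₑ = (M : ℝ≥0∞)⁻¹ := by
      rw [enorm_inv hM', heM]
    have hMe : (M : ℝ≥0∞) ≠ 0 := by exact_mod_cast hM.ne'
    have hMe' : (M : ℝ≥0∞) ≠ ⊤ := ENNReal.coe_ne_top
    have hnU' : ∀ x, nm U' x ≤ 1 := by
      intro x
      have e1 : nm U' x = (M : ℝ≥0∞)⁻¹ ^ 2 * nm U x := by
        unfold nm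
        rw [Finset.mul_sum]
        refine Finset.sum_congr rfl fun j _ => ?_
        rw [hU']
        simp only
        rw [enorm_mul, heM', mul_pow]
      rw [e1]
      calc (M : ℝ≥0∞)⁻¹ ^ 2 * nm U x ≤ (M : ℝ≥0∞)⁻¹ ^ 2 * (M : ℝ≥0∞) ^ 2 :=
            mul_le_mul' le_rfl (hnU x)
        _ = 1 := by rw [← mul_pow, ENNReal.inv_mul_cancel hMe hMe', one_pow]
    have hten : g = fun x => ((M : ℝ) : ℂ) * ten U' V x := by
      funext x
      rw [hg]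
      unfold ten
      rw [Finset.mul_sum]
      refine Finset.sum_congr rfl fun j _ => ?_
      rw [hU']
      simp only
      rw [← mul_assoc, ← mul_assoc, mul_inv_cancel₀ hM', one_mul]
    rw [hten, NN_smul ρ hρ0, heM]
    calc (M : ℝ≥0∞) * NN ρ f (ten U' V) ≤ M * (C * n2 f) :=
          mul_le_mul' le_rfl (hC ι U' V f hFU' hV hnU' hnV hf)
      _ = C * M * n2 f := by ring
  -- (b)
  have hb := ts hf.1 hgs.1
  set K : ℝ≥0∞ := ENNReal.ofReal (4 * Real.pi ^ 4) with hK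
  have hKt : ((K.toNNReal : ℝ≥0) : ℝ≥0∞) = K := ENNReal.coe_toNNReal ENNReal.ofReal_ne_top
  have hc := interp (measurable_XX hf.1 hgs.1) (r := q / 3) (r0 := ρ) (r1 := 4 / 3) (θ := θ)
    (by positivity) hρ0 (by norm_num) hθ0.le hθ1.le (by
      rw [hρdef]
      field_simp
      ring)
  have hc' : NN (q / 3) f g ≤ NN ρ f g ^ (1 - θ) * NN (4 / 3) f g ^ θ := hc
  have hn : n2 f ^ (1 - θ) * n2 f ^ θ = n2 f := by
    rw [← ENNReal.rpow_add_of_nonneg _ _ h1θ.le hθ0.le, sub_add_cancel, ENNReal.rpow_one]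
  calc NN (q / 3) f g ≤ NN ρ f g ^ (1 - θ) * NN (4 / 3) f g ^ θ := hc'
    _ ≤ (C * M * n2 f) ^ (1 - θ) * (K ^ (3 / 4 : ℝ) * (n2 f * n2 g ^ (1 / 2 : ℝ))) ^ θ :=
        mul_le_mul' (ENNReal.rpow_le_rpow ha h1θ.le) (ENNReal.rpow_le_rpow hb hθ0.le)
    _ = ((C : ℝ≥0∞) ^ (1 - θ) * (K ^ (3 / 4 : ℝ)) ^ θ) * (M : ℝ≥0∞) ^ (1 - θ) * n2 g ^ (θ / 2) *
        (n2 f ^ (1 - θ) * n2 f ^ θ) := by
        rw [ENNReal.mul_rpow_of_nonneg _ _ h1θ.le, ENNReal.mul_rpow_of_nonneg _ _ h1θ.le,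
          ENNReal.mul_rpow_of_nonneg _ _ hθ0.le, ENNReal.mul_rpow_of_nonneg _ _ hθ0.le,
          ← ENNReal.rpow_mul (n2 g), show 1 / 2 * θ = θ / 2 by ring]
        ring
    _ = _ := by
        rw [hn, ENNReal.coe_mul, ENNReal.coe_rpow_of_nonneg _ h1θ.le,
          ENNReal.coe_rpow_of_nonneg _ hθ0.le,
          ENNReal.coe_rpow_of_nonneg _ (by norm_num : (0 : ℝ) ≤ 3 / 4), hKt]

end TriL
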