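import Pool.Agent.TriL.Targets

/-!
# MP_5ab805_an, trilinear extension estimate: target IVM (helper59)

Modulus of continuity of a set whose fibres are unions of `m` intervals.
-/

set_option autoImplicit false

namespace TriL

open MeasureTheory Set Filter
open scoped ENNReal NNReal Topology
open Pool.Agent.Restr (u E E1 QQ)
open Pool.Agent.H27.Fib (Few fib ind vr Ls)

namespace IVM_

theorem key {P : Set ℝ} (hP : P.OrdConnected) (hb : P ⊆ II) {p q : ℝ} (hp : p ∈ P)
    (hq : q ∉ P) : (p ≤ sSup P ∧ sSup P ≤ q) ∨ (q ≤ sInf P ∧ sInf P ≤ p) := by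
  have hba : BddAbove P := bddAbove_Icc.mono hb
  have hbb : BddBelow P := bddBelow_Icc.mono hb
  rcases le_total p q with h | h
  · left
    refine ⟨le_csSup hba hp, csSup_le ⟨p, hp⟩ fun r hr => ?_⟩
    by_contra hc
    exact hq (hP.out hp hr ⟨h, (not_le.1 hc).le⟩)
  · right
    refine ⟨le_csInf ⟨p, hp⟩ fun r hr => ?_, csInf_le hbb hp⟩
    by_contra hc
    exact hq (hP.out hr hp ⟨(not_le.1 hc).le, h⟩)

/-- the neighbourhood of the end points -/
def EE (P : Set ℝ) (h : ℝ) : Set ℝ :=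
  Icc (sInf P - |h|) (sInf P + |h|) ∪ Icc (sSup P - |h|) (sSup P + |h|)

theorem near {P : Set ℝ} (hP : P.OrdConnected) (hb : P ⊆ II) {y h : ℝ}
    (hy : (y ∈ P ∧ y + h ∉ P) ∨ (y ∉ P ∧ y + h ∈ P)) : y ∈ EE P h := by
  have h1 : h ≤ |h| := le_abs_self h
  have h2 : -h ≤ |h| := neg_le_abs h
  have h3 : 0 ≤ |h| := abs_nonneg h
  rcases hy with ⟨hp, hq⟩ | ⟨hq, hp⟩
  · rcases key hP hb hp hq with ⟨ha, hc⟩ | ⟨ha, hc⟩
    · right; constructor <;> linarith
    · left; constructor <;> linarith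
  · rcases key hP hb hp hq with ⟨ha, hc⟩ | ⟨ha, hc⟩
    · right; constructor <;> linarith
    · left; constructor <;> linarith

theorem vol_EE (P : Set ℝ) (h : ℝ) : volume (EE P h) ≤ ENNReal.ofReal (4 * |h|) := by
  refine (measure_union_le _ _).trans ?_
  rw [Real.volume_Icc, Real.volume_Icc, ← ENNReal.ofReal_add]
  · apply ENNReal.ofReal_le_ofReal; linarith
  · have := abs_nonneg h; linarith
  · have := abs_nonneg h; linarith

end IVM_

open IVM_ in
theorem p_IVM : T_IVM := by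
  intro B m _ hBQ hm hm1 x h
  obtain ⟨P, hP, hJ⟩ := hm x
  have hPb : ∀ i, P i ⊆ II := by
    intro i y hy
    have hy' : y ∈ fib B x := by rw [hJ]; exact mem_iUnion.2 ⟨i, hy⟩
    exact (hBQ hy').2
  have hpt : ∀ y : ℝ, ‖ind B (x, y + h) - ind B (x, y)‖ₑ ^ 2 ≤
      (⋃ i, EE (P i) h).indicator (1 : ℝ → ℝ≥0∞) y := by
    intro y
    by_cases h1 : (x, y + h) ∈ B <;> by_cases h2 : (x, y) ∈ B
    · have e1 : ind B (x, y + h) = 1 := indicator_of_mem h1 _
      have e2 : ind B (x, y) = 1 := indicator_of_mem h2 _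
      rw [e1, e2]; simp
    · have e1 : ind B (x, y + h) = 1 := indicator_of_mem h1 _
      have e2 : ind B (x, y) = 0 := indicator_of_notMem h2 _
      rw [e1, e2]
      have h3 : y + h ∈ ⋃ i, P i := by rw [← hJ]; exact h1
      have h4 : y ∉ ⋃ i, P i := by rw [← hJ]; exact h2
      obtain ⟨i, hi⟩ := mem_iUnion.1 h3
      have h5 : y ∈ ⋃ i, EE (P i) h :=
        mem_iUnion.2 ⟨i, near (hP i) (hPb i) (Or.inr ⟨fun hc => h4 (mem_iUnion.2 ⟨i, hc⟩), hi⟩)⟩
      rw [indicator_of_mem h5]; simp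
    · have e1 : ind B (x, y + h) = 0 := indicator_of_notMem h1 _
      have e2 : ind B (x, y) = 1 := indicator_of_mem h2 _
      rw [e1, e2]
      have h3 : y + h ∉ ⋃ i, P i := by rw [← hJ]; exact h1
      have h4 : y ∈ ⋃ i, P i := by rw [← hJ]; exact h2
      obtain ⟨i, hi⟩ := mem_iUnion.1 h4
      have h5 : y ∈ ⋃ i, EE (P i) h :=
        mem_iUnion.2 ⟨i, near (hP i) (hPb i) (Or.inl ⟨hi, fun hc => h3 (mem_iUnion.2 ⟨i, hc⟩)⟩)⟩
      rw [indicator_of_mem h5]; simp
    · have e1 : ind B (x, y + h) = 0 := indicator_of_notMem h1 _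
      have e2 : ind B (x, y) = 0 := indicator_of_notMem h2 _
      rw [e1, e2]; simp
  have hmeas : MeasurableSet (⋃ i, EE (P i) h) :=
    MeasurableSet.iUnion fun i => measurableSet_Icc.union measurableSet_Icc
  have hm1' : (1 : ℝ) ≤ m := by exact_mod_cast hm1
  calc ∫⁻ y, ‖ind B (x, y + h) - ind B (x, y)‖ₑ ^ 2
      ≤ ∫⁻ y, (⋃ i, EE (P i) h).indicator (1 : ℝ → ℝ≥0∞) y := lintegral_mono hpt
    _ = volume (⋃ i, EE (P i) h) := by rw [lintegral_indicator_one hmeas]
    _ ≤ ∑ i, volume (EE (P i) h) := by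
        refine (measure_iUnion_le _).trans ?_
        rw [tsum_fintype]
    _ ≤ ∑ _i : Fin m, ENNReal.ofReal (4 * |h|) := Finset.sum_le_sum fun i _ => vol_EE _ _
    _ = ENNReal.ofReal (m * (4 * |h|)) := by
        rw [Finset.sum_const, Finset.card_univ, Fintype.card_fin, nsmul_eq_mul,
          ENNReal.ofReal_mul (p := (m : ℝ)) (by positivity), ENNReal.ofReal_natCast]
    _ ≤ ENNReal.ofReal ((2 * m) ^ 2 * |h|) := by
        apply ENNReal.ofReal_le_ofReal
        have h0 : 0 ≤ |h| := abs_nonneg h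
        nlinarith [mul_nonneg h0 (mul_nonneg (by linarith : (0 : ℝ) ≤ m)
          (sub_nonneg.2 hm1'))]
    _ = ((2 * m : ℝ≥0) : ℝ≥0∞) ^ 2 * ENNReal.ofReal (|h| ^ (2 * (1 / 2 : ℝ))) := by
        rw [ENNReal.ofReal_mul (by positivity)]
        congr 1
        · rw [ENNReal.ofReal_pow (by positivity)]
          congr 1
          rw [ENNReal.ofReal_mul (by norm_num), ENNReal.ofReal_natCast]
          push_cast
          simp
        · norm_num

end TriL
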