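import Pool.Agent.TriL.Targets

/-!
# MP_5ab805_an, TRL-LIN: from sets to nonnegative functions, with a weight (helper49)
-/

set_option autoImplicit false

namespace TriL

open MeasureTheory Set Filter
open scoped ENNReal NNReal Topology
open Pool.Agent.Restr (u norm_u enorm_u u_add measurable_u E QQ measurable_E eLpNorm_le_one
  support_QQ vol_QQ)
open Pool.Agent.H27.Fib (Few fib ind vr Ls measurableSet_Ls enorm_E_le mink cheb vr_nonneg)

namespace LIN_

/-- The extension of a non-negative function with a weight is dominated by the integral over its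
layers. -/
theorem layer {om : ℝ × ℝ → ℂ} (hom : Measurable om) (ho1 : ∀ x, ‖om x‖ ≤ 1)
    {G : ℝ × ℝ → ℝ} (hG : Measurable G) (hi : Integrable G) (h0 : ∀ x, 0 ≤ G x)
    (ξ : ℝ × ℝ × ℝ) :
    ‖E (fun x => om x * ((G x : ℝ) : ℂ)) ξ‖ₑ ≤
      ∫⁻ l in Ioi (0 : ℝ), ‖E (fun x => om x * ind (Ls G l) x) ξ‖ₑ := by
  set ph : ℝ × ℝ → ℂ := fun x => u (ξ.1 * x.1 + (ξ.2.1 * x.2 + ξ.2.2 * (x.1 ^ 2 + x.2 ^ 2))) with hph
  have hphm : Measurable ph := measurable_u.comp (by fun_prop)
  have hnph : ∀ x, ‖ph x‖ = 1 := fun x => norm_u _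
  set f : ℝ × ℝ → ℝ → ℂ := fun x l => ph x * (om x * ind (Ls G l) x) with hf
  have hfm : Measurable (Function.uncurry f) := by
    have hs : MeasurableSet {z : (ℝ × ℝ) × ℝ | z.2 < G z.1} :=
      measurableSet_lt measurable_snd (hG.comp measurable_fst)
    have e : Function.uncurry f = fun z : (ℝ × ℝ) × ℝ => ph z.1 *
        (om z.1 * {z : (ℝ × ℝ) × ℝ | z.2 < G z.1}.indicator (fun _ => (1 : ℂ)) z) := by
      funext z
      rfl
    rw [e]
    exact (hphm.comp measurable_fst).mul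
      ((hom.comp measurable_fst).mul (measurable_const.indicator hs))
  have hnf : ∀ x l, ‖f x l‖ ≤ (Iio (G x)).indicator (fun _ => (1 : ℝ)) l := by
    intro x l
    change ‖ph x * (om x * ind (Ls G l) x)‖ ≤ _
    rw [norm_mul, hnph, one_mul, norm_mul]
    unfold ind
    by_cases hx : l < G x
    · rw [indicator_of_mem (show x ∈ Ls G l from hx), indicator_of_mem (show l ∈ Iio (G x) from hx)]
      simpa using ho1 x
    · rw [indicator_of_notMem (show x ∉ Ls G l from hx),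
        indicator_of_notMem (show l ∉ Iio (G x) from hx)]
      simp
  have hint1 : ∀ x, IntegrableOn (fun l => f x l) (Ioi (0 : ℝ)) := by
    intro x
    have h1 : IntegrableOn (fun l => f x l) (Ioc 0 (G x)) :=
      Measure.integrableOn_of_bounded (M := 1) (by
        rw [Real.volume_Ioc]; exact ENNReal.ofReal_ne_top)
        (hfm.comp measurable_prodMk_left).aestronglyMeasurable
        (Eventually.of_forall fun l => (hnf x l).trans (by
          by_cases hx : l ∈ Iio (G x)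
          · rw [indicator_of_mem hx]
          · rw [indicator_of_notMem hx]; norm_num))
    refine h1.of_forall_sdiff_eq_zero measurableSet_Ioi fun l hl => ?_
    change ph x * (om x * ind (Ls G l) x) = 0
    unfold ind
    rw [indicator_of_notMem, mul_zero, mul_zero]
    intro hx
    exact hl.2 ⟨hl.1, le_of_lt hx⟩
  have hval : ∀ x, ∫ l in Ioi (0 : ℝ), ‖f x l‖ ≤ G x := by
    intro x
    have hI : IntegrableOn (fun l => (Iio (G x)).indicator (fun _ => (1 : ℝ)) l) (Ioi (0 : ℝ)) := by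
      rw [IntegrableOn, integrable_indicator_iff measurableSet_Iio]
      refine integrable_const_iff.2 (Or.inr ?_)
      rw [isFiniteMeasure_iff, Measure.restrict_apply_univ, Measure.restrict_apply measurableSet_Iio,
        inter_comm, Ioi_inter_Iio, Real.volume_Ioo]
      exact ENNReal.ofReal_lt_top
    calc ∫ l in Ioi (0 : ℝ), ‖f x l‖
        ≤ ∫ l in Ioi (0 : ℝ), (Iio (G x)).indicator (fun _ => (1 : ℝ)) l :=
          setIntegral_mono (hint1 x).norm hI (fun l => hnf x l)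
      _ = G x := by
          rw [setIntegral_indicator measurableSet_Iio,
            setIntegral_const, smul_eq_mul, mul_one, Measure.real, Ioi_inter_Iio, Real.volume_Ioo,
            sub_zero, ENNReal.toReal_ofReal (h0 x)]
  have hval2 : ∀ x, ∫ l in Ioi (0 : ℝ), f x l = ph x * (om x * ((G x : ℝ) : ℂ)) := by
    intro x
    have e : ∀ l ∈ Ioi (0 : ℝ), f x l =
        (ph x * om x) * (((Iio (G x)).indicator (fun _ => (1 : ℝ)) l : ℝ) : ℂ) := by
      intro l _
      change ph x * (om x * ind (Ls G l) x) = _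
      unfold ind
      by_cases hx : l < G x
      · rw [indicator_of_mem (show x ∈ Ls G l from hx), indicator_of_mem (show l ∈ Iio (G x) from hx)]
        simp
      · rw [indicator_of_notMem (show x ∉ Ls G l from hx),
          indicator_of_notMem (show l ∉ Iio (G x) from hx)]
        simp
    rw [setIntegral_congr_fun measurableSet_Ioi e, integral_const_mul, integral_complex_ofReal,
      setIntegral_indicator measurableSet_Iio,
      setIntegral_const, smul_eq_mul, mul_one, Measure.real, Ioi_inter_Iio, Real.volume_Ioo,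
      sub_zero, ENNReal.toReal_ofReal (h0 x), mul_assoc]
  have hint : Integrable (Function.uncurry f) ((volume : Measure (ℝ × ℝ)).prod
      (volume.restrict (Ioi (0 : ℝ)))) := by
    rw [integrable_prod_iff hfm.aestronglyMeasurable]
    refine ⟨Eventually.of_forall fun x => hint1 x, ?_⟩
    refine hi.mono ?_ (Eventually.of_forall fun x => ?_)
    · exact (hfm.norm.stronglyMeasurable.integral_prod_right).aestronglyMeasurable
    · rw [Real.norm_of_nonneg (integral_nonneg fun l => norm_nonneg _), Real.norm_of_nonneg (h0 x)]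
      exact hval x
  have key : E (fun x => om x * ((G x : ℝ) : ℂ)) ξ =
      ∫ l in Ioi (0 : ℝ), E (fun x => om x * ind (Ls G l) x) ξ := by
    calc E (fun x => om x * ((G x : ℝ) : ℂ)) ξ = ∫ x, ∫ l in Ioi (0 : ℝ), f x l := by
          unfold E
          refine integral_congr_ae (Eventually.of_forall fun x => ?_)
          exact (hval2 x).symm
      _ = ∫ l in Ioi (0 : ℝ), ∫ x, f x l := integral_integral_swap hint
      _ = _ := rfl
  rw [key]
  exact enorm_integral_le_lintegral_enorm _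

theorem measurable_layer {om : ℝ × ℝ → ℂ} (hom : Measurable om) {G : ℝ × ℝ → ℝ}
    (hG : Measurable G) :
    Measurable (Function.uncurry fun (ξ : ℝ × ℝ × ℝ) (l : ℝ) =>
      ‖E (fun x => om x * ind (Ls G l) x) ξ‖ₑ) := by
  have h1 : StronglyMeasurable fun z : (ℝ × ℝ × ℝ) × ℝ => ∫ x : ℝ × ℝ,
      u (z.1.1 * x.1 + (z.1.2.1 * x.2 + z.1.2.2 * (x.1 ^ 2 + x.2 ^ 2))) *
        (om x * ind (Ls G z.2) x) := by
    apply StronglyMeasurable.integral_prod_right
      (f := fun (z : (ℝ × ℝ × ℝ) × ℝ) (x : ℝ × ℝ) =>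
      u (z.1.1 * x.1 + (z.1.2.1 * x.2 + z.1.2.2 * (x.1 ^ 2 + x.2 ^ 2))) *
        (om x * ind (Ls G z.2) x))
    apply Measurable.stronglyMeasurable
    have hs : MeasurableSet {y : ((ℝ × ℝ × ℝ) × ℝ) × (ℝ × ℝ) | y.1.2 < G y.2} :=
      measurableSet_lt (measurable_snd.comp measurable_fst) (hG.comp measurable_snd)
    have h2 : Measurable fun y : ((ℝ × ℝ × ℝ) × ℝ) × (ℝ × ℝ) =>
        u (y.1.1.1 * y.2.1 + (y.1.1.2.1 * y.2.2 + y.1.1.2.2 * (y.2.1 ^ 2 + y.2.2 ^ 2))) :=
      measurable_u.comp (by fun_prop)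
    have h3 : Measurable ({y : ((ℝ × ℝ × ℝ) × ℝ) × (ℝ × ℝ) | y.1.2 < G y.2}.indicator
        fun _ => (1 : ℂ)) := measurable_const.indicator hs
    exact h2.mul ((hom.comp measurable_snd).mul h3)
  exact h1.measurable.enorm

end LIN_

open LIN_ in
theorem p_LIN (hRST : T_RST) : T_LIN := by
  intro q p hq hq4 hp
  have hq0 : 0 < q := by linarith
  have hq2 : 0 < q - 2 := by linarith
  have hp1 : 1 < p := by
    refine lt_of_le_of_lt ?_ hp
    rw [le_div_iff₀ hq2]
    linarith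
  have hp0 : 0 < p := by linarith
  have hqp : q / p < q - 2 := by
    rw [div_lt_iff₀ hp0]
    rw [div_lt_iff₀ hq2] at hp
    linarith
  set δ : ℝ := min ((q - 3) / 2) ((q - 2 - q / p) / 2) with hδdef
  have hδ : 0 < δ := lt_min (by linarith) (by linarith)
  have hδ1 : δ ≤ (q - 3) / 2 := min_le_left _ _
  have hδ3 : δ ≤ (q - 2 - q / p) / 2 := min_le_right _ _
  clear_value δ
  set s : ℝ := (q - 2 - δ) / q with hs
  have hs0 : 0 < s := div_pos (by linarith) hq0
  have hps : 1 < p * s := by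
    rw [hs, mul_div_assoc', lt_div_iff₀ hq0]
    have h1 : q / p < q - 2 - δ := by linarith
    rw [div_lt_iff₀ hp0] at h1
    linarith
  obtain ⟨C, hC⟩ := hRST q δ hq hq4 hδ hδ1
  set K : ℝ := 1 + 1 / (p * s - 1) with hK
  have hK0 : 0 < K := by
    have : 0 < p * s - 1 := by linarith
    positivity
  refine ⟨C ^ (1 / q) * K.toNNReal + 1, fun G m a b hG hG0 hGn hm hfew ha hb => ?_⟩
  set om : ℝ × ℝ → ℂ := fun x => a x.1 * b x.2 with homdef
  have hom : Measurable om := (ha.1.comp measurable_fst).mul (hb.1.comp measurable_snd)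
  have ho1 : ∀ x, ‖om x‖ ≤ 1 := by
    intro x
    rw [homdef]
    simp only [norm_mul]
    exact mul_le_one₀ (ha.2 _) (norm_nonneg _) (hb.2 _)
  have h1p : (1 : ℝ≥0∞) ≤ ENNReal.ofReal p := by
    rw [← ENNReal.ofReal_one]
    exact ENNReal.ofReal_le_ofReal (by linarith)
  have hm0 : (m : ℝ≥0∞) ≠ 0 := by
    have : m ≠ 0 := by omega
    exact_mod_cast this
  rcases eq_or_ne (eLpNorm G (ENNReal.ofReal p) volume) ⊤ with htop | htop
  · rw [htop, ENNReal.mul_top]
    · exact le_top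
    · refine mul_ne_zero ?_ hm0
      simp
  have hL1 : eLpNorm G 1 volume ≤ eLpNorm G (ENNReal.ofReal p) volume := by
    refine eLpNorm_le_one (s := QQ) ?_ h1p hG.aestronglyMeasurable vol_QQ
    intro x hx
    by_contra hn
    exact hx (hG0 x hn)
  have hint : Integrable G := by
    rw [← memLp_one_iff_integrable]
    exact ⟨hG.aestronglyMeasurable, lt_of_le_of_lt hL1 (lt_top_iff_ne_top.2 htop)⟩
  have hGc : Measurable fun x => om x * ((G x : ℝ) : ℂ) :=
    hom.mul (Complex.measurable_ofReal.comp hG)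
  have hqq : (ENNReal.ofReal q).toReal = q := ENNReal.toReal_ofReal hq0.le
  have hform : ∀ f : ℝ × ℝ × ℝ → ℂ, eLpNorm f (ENNReal.ofReal q) volume =
      (∫⁻ ξ, ‖f ξ‖ₑ ^ q) ^ (1 / q) := by
    intro f
    rw [eLpNorm_eq_lintegral_rpow_enorm_toReal (by simpa using hq0) ENNReal.ofReal_ne_top, hqq]
  rcases eq_or_ne (eLpNorm G (ENNReal.ofReal p) volume) 0 with hz | hz
  · have hG0' : G =ᵐ[volume] 0 := by
      rwa [eLpNorm_eq_zero_iff hG.aestronglyMeasurable (by simpa using hp0)] at hz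
    have hE0 : (E fun x => om x * ((G x : ℝ) : ℂ)) = 0 := by
      funext ξ
      unfold E
      rw [Pi.zero_apply]
      refine integral_eq_zero_of_ae ?_
      filter_upwards [hG0'] with x hx
      rw [hx]
      simp
    change eLpNorm (E fun x => om x * ((G x : ℝ) : ℂ)) (ENNReal.ofReal q) volume ≤ _
    rw [hE0, eLpNorm_zero]
    exact bot_le
  set N : ℝ := (eLpNorm G (ENNReal.ofReal p) volume).toReal with hN
  have hN0 : 0 < N := ENNReal.toReal_pos hz htop
  have hGN : eLpNorm G (ENNReal.ofReal p) volume = ENNReal.ofReal N := (ENNReal.ofReal_toReal htop).symm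
  -- Minkowski
  have hB : ∫⁻ x, ‖om x * ((G x : ℝ) : ℂ)‖ₑ ≠ ⊤ := by
    have h1 := hint.ofReal (𝕜 := ℂ)
    have h2 : ∫⁻ x, ‖om x * ((G x : ℝ) : ℂ)‖ₑ ≤ ∫⁻ x, ‖((G x : ℝ) : ℂ)‖ₑ := by
      refine lintegral_mono fun x => ?_
      rw [enorm_mul]
      calc ‖om x‖ₑ * ‖((G x : ℝ) : ℂ)‖ₑ ≤ 1 * ‖((G x : ℝ) : ℂ)‖ₑ := by
            gcongr
            rw [← ofReal_norm, ← ENNReal.ofReal_one]
            exact ENNReal.ofReal_le_ofReal (ho1 x)
        _ = _ := one_mul _
    exact (lt_of_le_of_lt h2 h1.2).ne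
  have hmink := mink (μ := (volume : Measure (ℝ × ℝ × ℝ)))
    (ν := (volume.restrict (Ioi (0 : ℝ)))) (q := q) (by linarith)
    (F := fun ξ l => ‖E (fun x => om x * ind (Ls G l) x) ξ‖ₑ) (measurable_layer hom hG)
    (Φ := fun ξ => ‖E (fun x => om x * ((G x : ℝ) : ℂ)) ξ‖ₑ) (measurable_E hGc).enorm
    (fun ξ => layer hom ho1 hG hint hGn ξ) hB (fun ξ => enorm_E_le _ ξ)
  have hQ : ∀ l, 0 < l → Ls G l ⊆ QQ := by
    intro l hl x hx
    by_contra hn
    have h1 : l < G x := hx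
    rw [hG0 x hn] at h1
    linarith
  have hlev : ∀ l ∈ Ioi (0 : ℝ), (∫⁻ ξ, ‖E (fun x => om x * ind (Ls G l) x) ξ‖ₑ ^ q) ^ (1 / q) ≤
      ((C : ℝ≥0∞) ^ (1 / q) * m) * ENNReal.ofReal (vr (Ls G l) ^ s) := by
    intro l hl
    have h1 := hC (Ls G l) m a b (measurableSet_Ls hG l) (hQ l hl) (hfew l hl) hm ha hb
    have hv := vr_nonneg (Ls G l)
    calc (∫⁻ ξ, ‖E (fun x => om x * ind (Ls G l) x) ξ‖ₑ ^ q) ^ (1 / q)
        ≤ (C * ENNReal.ofReal (m ^ q * vr (Ls G l) ^ (q - 2 - δ))) ^ (1 / q) := by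
          gcongr
      _ = _ := by
          rw [ENNReal.mul_rpow_of_nonneg _ _ (by positivity),
            ENNReal.ofReal_rpow_of_nonneg (by positivity) (by positivity),
            Real.mul_rpow (by positivity) (by positivity), ← Real.rpow_mul (Nat.cast_nonneg m),
            ← Real.rpow_mul hv, mul_one_div_cancel hq0.ne', Real.rpow_one, mul_one_div, ← hs,
            ENNReal.ofReal_mul (Nat.cast_nonneg m), ENNReal.ofReal_natCast, mul_assoc]
  have hint2 : ∫⁻ l in Ioi (0 : ℝ), (∫⁻ ξ, ‖E (fun x => om x * ind (Ls G l) x) ξ‖ₑ ^ q) ^ (1 / q) ≤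
      ((C : ℝ≥0∞) ^ (1 / q) * m) * ENNReal.ofReal (K * N) := by
    calc ∫⁻ l in Ioi (0 : ℝ), (∫⁻ ξ, ‖E (fun x => om x * ind (Ls G l) x) ξ‖ₑ ^ q) ^ (1 / q)
        ≤ ∫⁻ l in Ioi (0 : ℝ), ((C : ℝ≥0∞) ^ (1 / q) * m) * ENNReal.ofReal (vr (Ls G l) ^ s) :=
          setLIntegral_mono' measurableSet_Ioi hlev
      _ = ((C : ℝ≥0∞) ^ (1 / q) * m) * ∫⁻ l in Ioi (0 : ℝ), ENNReal.ofReal (vr (Ls G l) ^ s) := by
          refine lintegral_const_mul' _ _ (ENNReal.mul_ne_top ?_ (ENNReal.natCast_ne_top m))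
          exact ENNReal.rpow_ne_top_of_nonneg (by positivity) ENNReal.coe_ne_top
      _ ≤ _ := by
          gcongr
          exact cheb hG hG0 hp0 hs0 hps hN0 hGN.le
  rw [hform]
  calc (∫⁻ ξ, ‖E (fun x => om x * ((G x : ℝ) : ℂ)) ξ‖ₑ ^ q) ^ (1 / q)
      ≤ ((∫⁻ l in Ioi (0 : ℝ),
          (∫⁻ ξ, ‖E (fun x => om x * ind (Ls G l) x) ξ‖ₑ ^ q) ^ (1 / q)) ^ q) ^ (1 / q) := by
        gcongr
    _ = ∫⁻ l in Ioi (0 : ℝ), (∫⁻ ξ, ‖E (fun x => om x * ind (Ls G l) x) ξ‖ₑ ^ q) ^ (1 / q) := by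
        rw [← ENNReal.rpow_mul, mul_one_div_cancel hq0.ne', ENNReal.rpow_one]
    _ ≤ ((C : ℝ≥0∞) ^ (1 / q) * m) * ENNReal.ofReal (K * N) := hint2
    _ = ((C : ℝ≥0∞) ^ (1 / q) * (K.toNNReal : ℝ≥0∞)) * m * ENNReal.ofReal N := by
        rw [ENNReal.ofReal_mul hK0.le]
        change ((C : ℝ≥0∞) ^ (1 / q) * m) * ((K.toNNReal : ℝ≥0∞) * ENNReal.ofReal N) = _
        ring
    _ ≤ _ := by
        rw [hGN]
        gcongr
        push_cast
        rw [ENNReal.coe_rpow_of_nonneg _ (by positivity)]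
        exact le_self_add

end TriL
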