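import Pool.Agent.TriL.Targets

/-!
# MP_5ab805_an: MAI, the main estimate on the square (helper72)
-/

set_option autoImplicit false

namespace TriL

open MeasureTheory Set Filter
open scoped ENNReal NNReal Topology
open Pool.Agent.Restr (u E E1 QQ vol_QQ)

namespace MAI_

/-- the first piece, first factor -/
noncomputable def U0 (K : ℝ × ℝ → ℂ) (a : ℝ → ℂ) (_ : Fin 1) (x : ℝ) : ℂ := a x * Em K 0 (x, 0)

/-- the first piece, second factor -/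
noncomputable def V0 (b : ℝ → ℂ) (_ : Fin 1) (y : ℝ) : ℂ := b y * (Iv 0 0).indicator 1 y

theorem Iv00 : Iv 0 0 = Ico (-(1 / 2) : ℝ) (1 / 2) := by
  unfold Iv
  norm_num

theorem vol_Iv00 : volume (Iv 0 0) = 1 := by
  rw [Iv00, Real.volume_Ico]
  norm_num

theorem Em0 (K : ℝ × ℝ → ℂ) (x : ℝ × ℝ) :
    Em K 0 x = (∫ y in Iv 0 0, K (x.1, y)) * (Iv 0 0).indicator 1 x.2 := by
  simp only [Em, Ea, av]
  have : ∀ f : Fin (2 ^ 0) → ℂ, ∑ j, f j = f 0 := fun f => Fin.sum_univ_one f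
  rw [this]
  simp

theorem norm_ind_le (S : Set ℝ) (y : ℝ) : ‖S.indicator (1 : ℝ → ℂ) y‖ ≤ 1 := by
  by_cases h : y ∈ S <;> simp [h]

theorem norm_int_le (K : ℝ × ℝ → ℂ) (hK : ∀ x, ‖K x‖ ≤ 1) (x : ℝ) :
    ‖∫ y in Iv 0 0, K (x, y)‖ ≤ 1 := by
  have h := norm_setIntegral_le_of_norm_le_const (μ := volume) (s := Iv 0 0) (C := 1)
    (f := fun y => K (x, y)) (by rw [vol_Iv00]; exact ENNReal.one_lt_top) (fun y _ => hK _)
  rwa [measureReal_def, vol_Iv00, ENNReal.toReal_one, mul_one] at h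

theorem norm_Em0_le (K : ℝ × ℝ → ℂ) (hK : ∀ x, ‖K x‖ ≤ 1) (x : ℝ × ℝ) : ‖Em K 0 x‖ ≤ 1 := by
  rw [Em0, norm_mul]
  exact mul_le_one₀ (norm_int_le K hK x.1) (norm_nonneg _) (norm_ind_le _ _)

theorem ten0 (K : ℝ × ℝ → ℂ) (a b : ℝ → ℂ) (x : ℝ × ℝ) :
    ten (U0 K a) (V0 b) x = a x.1 * b x.2 * Em K 0 x := by
  have h0 : (0 : ℝ) ∈ Iv 0 0 := by rw [Iv00]; norm_num
  simp only [ten, Fin.sum_univ_one, U0, V0]
  rw [Em0, Em0]
  simp only [indicator_of_mem h0, Pi.one_apply, mul_one]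
  ring

theorem sq_le_one' {z : ℂ} (h : ‖z‖ ≤ 1) : ‖z‖ₑ ^ 2 ≤ 1 := by
  have : ‖z‖ₑ ≤ 1 := by
    rw [← ofReal_norm]
    exact ENNReal.ofReal_le_one.2 h
  exact pow_le_one₀ (zero_le) this

theorem n2_le_one {K : ℝ × ℝ → ℂ} (hK : Sq K) (hK1 : ∀ x, ‖K x‖ ≤ 1) : n2 K ≤ 1 := by
  have hQ : MeasurableSet QQ := measurableSet_Icc.prod measurableSet_Icc
  calc n2 K ≤ ∫⁻ x, QQ.indicator 1 x := by
        apply lintegral_mono
        intro x
        by_cases hx : x ∈ QQ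
        · rw [indicator_of_mem hx]; exact sq_le_one' (hK1 x)
        · change ‖K x‖ₑ ^ 2 ≤ _
          rw [hK.2 x hx]; simp
    _ = 1 := by
        rw [lintegral_indicator_one hQ]; exact vol_QQ

theorem n2_mono {f g : ℝ × ℝ → ℂ} (h : ∀ x, ‖f x‖ ≤ ‖g x‖) : n2 f ≤ n2 g := by
  apply lintegral_mono
  intro x
  have : ‖f x‖ₑ ≤ ‖g x‖ₑ := by
    rw [← ofReal_norm, ← ofReal_norm]
    exact ENNReal.ofReal_le_ofReal (h x)
  exact pow_le_pow_left₀ (zero_le) this 2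

theorem n2_Em0 (hDY3 : T_DY3) {K : ℝ × ℝ → ℂ} (hK : Sq K) (hK1 : ∀ x, ‖K x‖ ≤ 1)
    (hE : Measurable (Em K 0)) : n2 (Em K 0) ≤ n2 K := by
  unfold n2
  rw [Measure.volume_eq_prod, lintegral_prod _ (by fun_prop),
    lintegral_prod _ (by have := hK.1; fun_prop)]
  apply lintegral_mono
  intro x
  refine hDY3 (fun y => K (x, y)) 0 (hK.1.comp measurable_prodMk_left) ⟨1, fun y => hK1 _⟩ ?_
  intro y hy
  exact hK.2 _ (fun h => hy h.2)

theorem Mu_norm {a : ℝ → ℂ} (ha : Mu a) {b : ℝ → ℂ} (hb : Mu b) (x y : ℝ) (z : ℂ) :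
    ‖a x * b y * z‖ ≤ ‖z‖ := by
  rw [norm_mul, norm_mul]
  have h1 : ‖a x‖ * ‖b y‖ ≤ 1 := mul_le_one₀ (ha.2 x) (norm_nonneg _) (hb.2 y)
  calc ‖a x‖ * ‖b y‖ * ‖z‖ ≤ 1 * ‖z‖ := mul_le_mul_of_nonneg_right h1 (norm_nonneg _)
    _ = ‖z‖ := one_mul _

/-- `Sq` for a tensor -/
theorem sq_ten {ι : Type} [Fintype ι] {U V : ι → ℝ → ℂ} (hU : Fam U) (hV : Fam V) :
    Sq (ten U V) := by
  refine ⟨?_, ?_⟩
  · unfold ten
    refine Finset.measurable_sum _ (fun j _ => ?_)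
    exact ((hU j).1.comp measurable_fst).mul ((hV j).1.comp measurable_snd)
  · intro x hx
    unfold ten
    refine Finset.sum_eq_zero (fun j _ => ?_)
    by_cases h1 : x.1 ∈ II
    · have h2 : x.2 ∉ II := fun h2 => hx ⟨h1, h2⟩
      rw [(hV j).2 _ h2, mul_zero]
    · rw [(hU j).2 _ h1, zero_mul]

theorem fam_U0 {K : ℝ × ℝ → ℂ} {a : ℝ → ℂ} (ha : Mu a) (hE : Sq (Em K 0)) : Fam (U0 K a) := by
  intro j
  refine ⟨ha.1.mul (hE.1.comp (measurable_id.prodMk measurable_const)), ?_⟩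
  intro x hx
  unfold U0
  rw [hE.2 (x, 0) (fun h => hx h.1), mul_zero]

theorem fam_V0 {b : ℝ → ℂ} (hb : Mu b) : Fam (V0 b) := by
  intro j
  refine ⟨hb.1.mul ?_, ?_⟩
  · rw [Iv00]
    exact measurable_one.indicator measurableSet_Ico
  · intro x hx
    unfold V0
    have : x ∉ Iv 0 0 := by
      rw [Iv00]
      intro h
      exact hx ⟨h.1, h.2.le⟩
    rw [indicator_of_notMem this, mul_zero]

/-- the pieces -/
noncomputable def Gp (K : ℝ × ℝ → ℂ) (a b : ℝ → ℂ) : ℕ → ℝ × ℝ → ℂ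
  | 0 => ten (U0 K a) (V0 b)
  | (n + 1) => ten (Ua K a n) (Vb b n)

theorem sum_Gp {K : ℝ × ℝ → ℂ} {a b : ℝ → ℂ}
    (h : ∀ n x, ten (Ua K a n) (Vb b n) x = a x.1 * b x.2 * (Em K (n + 1) x - Em K n x))
    (N : ℕ) (x : ℝ × ℝ) :
    ∑ i ∈ Finset.range (N + 1), Gp K a b i x = a x.1 * b x.2 * Em K N x := by
  induction N with
  | zero => simp [Gp, ten0]
  | succ N ih =>
    rw [Finset.sum_range_succ, ih]
    change _ + ten (Ua K a N) (Vb b N) x = _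
    rw [h]
    ring

/-- the powers of two as extended numbers -/
theorem two_rpow (x : ℝ) : ENNReal.ofReal ((2 : ℝ) ^ x) = (2 : ℝ≥0∞) ^ x := by
  rw [← ENNReal.ofReal_rpow_of_pos (by norm_num)]
  norm_num

/-- bound of one piece -/
theorem piece {q s τ θ : ℝ} (hτ : 0 ≤ τ) (hτ1 : τ ≤ 1) (hτθ : τ ≤ θ)
    (hθ1 : θ ≤ 1) {C : ℝ≥0}
    (hC : ∀ (ι : Type) [Fintype ι] (U V : ι → ℝ → ℂ) (f : ℝ × ℝ → ℂ) (M : ℝ≥0), Fam U → Fam V →
      0 < M → (∀ x, nm U x ≤ (M : ℝ≥0∞) ^ 2) → (∀ x, nm V x ≤ 1) → Sq f →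
      NN (q / 3) f (ten U V) ≤ C * (M : ℝ≥0∞) ^ (1 - θ) * n2 (ten U V) ^ (θ / 2) * n2 f)
    {K f : ℝ × ℝ → ℂ} {a b : ℝ → ℂ} {M : ℝ≥0} (hM : 1 ≤ M) (hf : Sq f) (n : ℕ)
    (hU : Fam (Ua K a n)) (hV : Fam (Vb b n)) (hV1 : ∀ y, nm (Vb b n) y ≤ 1)
    (h1 : ∀ x, nm (Ua K a n) x ≤ 16 * (M : ℝ≥0∞) ^ 2 * ENNReal.ofReal (2 ^ ((1 - 2 * s) * n)))
    (h2 : n2 (ten (Ua K a n) (Vb b n)) ≤
      16 * (M : ℝ≥0∞) ^ 2 * ENNReal.ofReal (2 ^ (-(2 * s * n))))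
    (h3 : n2 (ten (Ua K a n) (Vb b n)) ≤ 4 * n2 K) :
    NN (q / 3) f (ten (Ua K a n) (Vb b n)) ≤
      C * (8 * M * (2 : ℝ≥0∞) ^ (-((s * (θ - τ) - (1 / 2 - s) * (1 - θ)) * n))) *
        n2 K ^ (τ / 2) * n2 f := by
  set t : ℝ≥0∞ := 2 with ht
  have ht0 : t ≠ 0 := by rw [ht]; norm_num
  have htt : t ≠ ⊤ := by rw [ht]; norm_num
  set m4 : ℝ≥0∞ := 4 * (M : ℝ≥0∞) with hm4
  have hM1 : (1 : ℝ≥0∞) ≤ M := by exact_mod_cast hM
  have hm41 : 1 ≤ m4 := by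
    rw [hm4]
    calc (1 : ℝ≥0∞) ≤ 4 * 1 := by norm_num
      _ ≤ 4 * M := by gcongr
  have hm40 : m4 ≠ 0 := (lt_of_lt_of_le one_pos hm41).ne'
  have hm4t : m4 ≠ ⊤ := by rw [hm4]; exact ENNReal.mul_ne_top (by norm_num) ENNReal.coe_ne_top
  have e16 : 16 * (M : ℝ≥0∞) ^ 2 = m4 ^ 2 := by rw [hm4]; ring
  let Mn : ℝ≥0 := 4 * M * Real.toNNReal ((2 : ℝ) ^ ((1 / 2 - s) * n))
  have hMn : (Mn : ℝ≥0∞) = m4 * t ^ ((1 / 2 - s) * n) := by
    rw [← two_rpow]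
    simp only [Mn, ENNReal.coe_mul, hm4]
    rfl
  have hMn0 : 0 < Mn := by
    have : 0 < Real.toNNReal ((2 : ℝ) ^ ((1 / 2 - s) * n)) := by
      rw [Real.toNNReal_pos]; positivity
    have h4 : (0 : ℝ≥0) < 4 * M := by
      have : (0 : ℝ≥0) < M := lt_of_lt_of_le one_pos hM
      positivity
    exact mul_pos h4 this
  have hnm : ∀ x, nm (Ua K a n) x ≤ (Mn : ℝ≥0∞) ^ 2 := by
    intro x
    refine (h1 x).trans (le_of_eq ?_)
    have e : (t ^ ((1 / 2 - s) * n)) ^ 2 = t ^ ((1 - 2 * s) * n) := by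
      rw [← ENNReal.rpow_two, ← ENNReal.rpow_mul]
      congr 1
      ring
    rw [hMn, e16, two_rpow, mul_pow m4, e]
  refine (hC _ (Ua K a n) (Vb b n) f Mn hU hV hMn0 hnm hV1 hf).trans ?_
  set G := n2 (ten (Ua K a n) (Vb b n)) with hG
  have hGa : G ^ ((θ - τ) / 2) ≤ m4 ^ (θ - τ) * t ^ (-(s * n) * (θ - τ)) := by
    have h4 : G ≤ (m4 * t ^ (-(s * n))) ^ (2 : ℝ) := by
      refine h2.trans (le_of_eq ?_)
      rw [e16, two_rpow, ENNReal.mul_rpow_of_nonneg _ _ (by norm_num), ← ENNReal.rpow_mul,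
        ENNReal.rpow_two]
      congr 2
      ring
    calc G ^ ((θ - τ) / 2) ≤ ((m4 * t ^ (-(s * n))) ^ (2 : ℝ)) ^ ((θ - τ) / 2) :=
          ENNReal.rpow_le_rpow h4 (by linarith)
      _ = (m4 * t ^ (-(s * n))) ^ (θ - τ) := by
          rw [← ENNReal.rpow_mul]; congr 1; ring
      _ = m4 ^ (θ - τ) * t ^ (-(s * n) * (θ - τ)) := by
          rw [ENNReal.mul_rpow_of_nonneg _ _ (by linarith), ← ENNReal.rpow_mul]
  have hGb : G ^ (τ / 2) ≤ 2 * n2 K ^ (τ / 2) := by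
    calc G ^ (τ / 2) ≤ (4 * n2 K) ^ (τ / 2) := ENNReal.rpow_le_rpow h3 (by linarith)
      _ = 4 ^ (τ / 2) * n2 K ^ (τ / 2) := ENNReal.mul_rpow_of_nonneg _ _ (by linarith)
      _ ≤ 2 * n2 K ^ (τ / 2) := by
          gcongr
          have h5 : (4 : ℝ≥0∞) = 2 ^ (2 : ℝ) := by rw [ENNReal.rpow_two]; norm_num
          rw [h5, ← ENNReal.rpow_mul]
          calc (2 : ℝ≥0∞) ^ (2 * (τ / 2)) ≤ 2 ^ (1 : ℝ) :=
                ENNReal.rpow_le_rpow_of_exponent_le (by norm_num) (by linarith)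
            _ = 2 := ENNReal.rpow_one _
  have hGG : G ^ (θ / 2) ≤
      (m4 ^ (θ - τ) * t ^ (-(s * n) * (θ - τ))) * (2 * n2 K ^ (τ / 2)) := by
    have h5 : θ / 2 = (θ - τ) / 2 + τ / 2 := by ring
    rw [h5, ENNReal.rpow_add_of_nonneg _ _ (by linarith) (by linarith)]
    exact mul_le_mul' hGa hGb
  have hMM : (Mn : ℝ≥0∞) ^ (1 - θ) = m4 ^ (1 - θ) * t ^ ((1 / 2 - s) * n * (1 - θ)) := by
    rw [hMn, ENNReal.mul_rpow_of_nonneg _ _ (by linarith), ← ENNReal.rpow_mul]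
  have hm : m4 ^ (1 - θ) * m4 ^ (θ - τ) ≤ m4 := by
    rw [← ENNReal.rpow_add _ _ hm40 hm4t]
    calc m4 ^ (1 - θ + (θ - τ)) ≤ m4 ^ (1 : ℝ) :=
          ENNReal.rpow_le_rpow_of_exponent_le hm41 (by linarith)
      _ = m4 := ENNReal.rpow_one _
  have htt2 : t ^ ((1 / 2 - s) * n * (1 - θ)) * t ^ (-(s * n) * (θ - τ)) =
      t ^ (-((s * (θ - τ) - (1 / 2 - s) * (1 - θ)) * n)) := by
    rw [← ENNReal.rpow_add _ _ ht0 htt]
    congr 1
    ring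
  calc (C : ℝ≥0∞) * (Mn : ℝ≥0∞) ^ (1 - θ) * G ^ (θ / 2) * n2 f
      ≤ C * (m4 ^ (1 - θ) * t ^ ((1 / 2 - s) * n * (1 - θ))) *
        ((m4 ^ (θ - τ) * t ^ (-(s * n) * (θ - τ))) * (2 * n2 K ^ (τ / 2))) * n2 f := by
        rw [hMM]; gcongr
    _ = C * (2 * (m4 ^ (1 - θ) * m4 ^ (θ - τ)) *
        (t ^ ((1 / 2 - s) * n * (1 - θ)) * t ^ (-(s * n) * (θ - τ)))) * n2 K ^ (τ / 2) *
          n2 f := by ring
    _ ≤ C * (2 * m4 * t ^ (-((s * (θ - τ) - (1 / 2 - s) * (1 - θ)) * n))) * n2 K ^ (τ / 2) *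
          n2 f := by
        rw [htt2]; gcongr
    _ = _ := by rw [hm4]; ring

end MAI_

open MAI_ in
/-- MAI: the main estimate on the square. -/
theorem p_MAI (hINT : T_INT) (hDYM : T_DYM) (hDYD : T_DYD) (hSUM : T_SUM) (hDY3 : T_DY3) :
    T_MAI := by
  intro q s τ hq3 hq4 hs0 hs2 hτ hcond
  set L : ℝ := 4 - 12 / q with hL
  have hq0 : 0 < q := by linarith
  have hq : q * (12 / q) = 12 := by field_simp
  have hL0 : 0 < L := by
    have : 12 / q < 4 := by rw [div_lt_iff₀ hq0]; linarith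
    linarith
  have hL1 : L < 1 := by
    have : 3 < 12 / q := by rw [lt_div_iff₀ hq0]; linarith
    linarith
  have h0 : 0 ≤ (1 / 2 - s) * (1 - L) := mul_nonneg (by linarith) (by linarith)
  have hτL : τ < L := by
    by_contra hcon
    push Not at hcon
    have : s * (L - τ) ≤ 0 := mul_nonpos_of_nonneg_of_nonpos hs0.le (by linarith)
    linarith
  obtain ⟨δ, hδ0, hδ1, hδ2⟩ : ∃ δ : ℝ, 0 < δ ∧ δ ≤ s * (L - τ) - (1 / 2 - s) * (1 - L) ∧
      δ ≤ (L - τ) / 2 :=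
    ⟨min (s * (L - τ) - (1 / 2 - s) * (1 - L)) ((L - τ) / 2),
      lt_min (by linarith) (by linarith), min_le_left _ _, min_le_right _ _⟩
  set θ : ℝ := L - δ with hθ
  have hθ0 : 0 < θ := by linarith
  have hθL : θ < L := by linarith
  have hτθ : τ ≤ θ := by linarith
  set ε : ℝ := s * (θ - τ) - (1 / 2 - s) * (1 - θ) with hε
  have hε0 : 0 < ε := by
    have : ε = (s * (L - τ) - (1 / 2 - s) * (1 - L)) - δ / 2 := by
      rw [hε, hθ]; ring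
    linarith
  obtain ⟨C, hC⟩ := hINT q θ hq3 hq4 hθ0 hθL
  set r : ℝ≥0∞ := (2 : ℝ≥0∞) ^ (-ε) with hr
  have hr1 : r < 1 := ENNReal.rpow_lt_one_of_one_lt_of_neg (by norm_num) (by linarith)
  have hS : (1 - r)⁻¹ ≠ ⊤ := by
    rw [ENNReal.inv_ne_top]
    exact (tsub_pos_of_lt hr1).ne'
  have hCt : (C : ℝ≥0∞) * (1 + 8 * (1 - r)⁻¹) ≠ ⊤ :=
    ENNReal.mul_ne_top ENNReal.coe_ne_top
      (ENNReal.add_ne_top.2 ⟨by norm_num, ENNReal.mul_ne_top (by norm_num) hS⟩)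
  refine ⟨((C : ℝ≥0∞) * (1 + 8 * (1 - r)⁻¹)).toNNReal + 1, ?_⟩
  intro K f a b M hK hK1 ha hb hM hMo hf
  rw [ENNReal.coe_add, ENNReal.coe_toNNReal hCt, ENNReal.coe_one]
  have hM1 : (1 : ℝ≥0∞) ≤ M := by exact_mod_cast hM
  have hg : Sq (fun x => a x.1 * b x.2 * K x) := by
    refine ⟨((ha.1.comp measurable_fst).mul (hb.1.comp measurable_snd)).mul hK.1, ?_⟩
    intro x hx
    change a x.1 * b x.2 * K x = 0
    rw [hK.2 x hx, mul_zero]
  have hgK : n2 (fun x => a x.1 * b x.2 * K x) ≤ n2 K := n2_mono (fun x => Mu_norm ha hb _ _ _)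
  have hKone := n2_le_one hK hK1
  have hKtop : n2 K ≠ ⊤ := (lt_of_le_of_lt hKone ENNReal.one_lt_top).ne
  have hρ : 0 < q / 3 := by linarith
  by_cases hK0 : n2 K = 0
  · -- the function vanishes almost everywhere
    have h1 : ∫⁻ x, ‖a x.1 * b x.2 * K x‖ₑ = 0 := by
      have h2 : ∫⁻ x : ℝ × ℝ, ‖a x.1 * b x.2 * K x‖ₑ ^ 2 = 0 := by
        refine le_antisymm (hgK.trans hK0.le) (zero_le)
      have h3 := (lintegral_eq_zero_iff (by have := hg.1; fun_prop)).1 h2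
      rw [lintegral_eq_zero_iff (by have := hg.1; fun_prop)]
      filter_upwards [h3] with x hx
      simpa using hx
    have h4 : ∀ ξ, ‖E (fun x => a x.1 * b x.2 * K x) ξ‖ₑ = 0 := fun ξ =>
      le_antisymm ((Pool.Agent.H27.Fib.enorm_E_le _ ξ).trans h1.le) (zero_le)
    have h5 : NN (q / 3) f (fun x => a x.1 * b x.2 * K x) = 0 := by
      unfold NN
      simp_rw [h4]
      simp only [mul_zero]
      rw [ENNReal.zero_rpow_of_pos hρ, lintegral_zero, ENNReal.zero_rpow_of_pos (by positivity)]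
    rw [h5]
    exact zero_le
  by_cases hft : n2 f = ⊤
  · rw [hft, ENNReal.mul_top]
    · exact le_top
    · refine mul_ne_zero (mul_ne_zero ?_ ?_) ?_
      · exact (lt_of_lt_of_le one_pos le_add_self).ne'
      · exact (lt_of_lt_of_le one_pos hM1).ne'
      · exact (ENNReal.rpow_pos (pos_iff_ne_zero.2 hK0) hKtop).ne'
  -- the main case
  have hM0 := hDYM K a b 0 hK hK1 ha hb
  have hE0 : Sq (Em K 0) := hM0.1
  have hU0 := fam_U0 (a := a) ha hE0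
  have hV0 := fam_V0 hb
  have hG0 : n2 (ten (U0 K a) (V0 b)) ≤ n2 K := by
    refine le_trans (n2_mono (fun x => ?_)) (n2_Em0 hDY3 hK hK1 hE0.1)
    rw [ten0]
    exact Mu_norm ha hb _ _ _
  have hd := fun n => hDYD K a b s M n hK hK1 ha hb hs0 hs2 hMo
  have hsq : ∀ n, Sq (Gp K a b n) := by
    intro n
    cases n with
    | zero => exact sq_ten hU0 hV0
    | succ n =>
      obtain ⟨-, hU, hV, -⟩ := hDYM K a b n hK hK1 ha hb
      exact sq_ten hU hV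
  have hfin : ∀ n, n2 (Gp K a b n) ≠ ⊤ := by
    intro n
    cases n with
    | zero => exact (lt_of_le_of_lt hG0 (lt_of_le_of_ne le_top hKtop)).ne
    | succ n =>
      refine (lt_of_le_of_lt (hd n).2.2.1 ?_).ne
      exact ENNReal.mul_lt_top (by norm_num) (lt_of_le_of_ne le_top hKtop)
  have hlim : Tendsto (fun N => n2 (fun x => a x.1 * b x.2 * K x -
      ∑ i ∈ Finset.range N, Gp K a b i x)) atTop (𝓝 0) := by
    rw [← tendsto_add_atTop_iff_nat 1]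
    have hb2 : ∀ N : ℕ, n2 (fun x => a x.1 * b x.2 * K x -
        ∑ i ∈ Finset.range (N + 1), Gp K a b i x) ≤
        2 * (M : ℝ≥0∞) ^ 2 * ((2 : ℝ≥0∞) ^ (-(2 * s))) ^ N := by
      intro N
      refine le_trans (n2_mono (g := fun x => K x - Em K N x) (fun x => ?_)) ?_
      · rw [sum_Gp (fun n x => (hd n).2.2.2.1 x), ← mul_sub]
        exact Mu_norm ha hb _ _ _
      · refine (hd N).2.2.2.2.trans (le_of_eq ?_)
        have e : ((2 : ℝ≥0∞) ^ (-(2 * s))) ^ N = 2 ^ (-(2 * s * N)) := by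
          rw [← ENNReal.rpow_natCast, ← ENNReal.rpow_mul]
          congr 1
          ring
        rw [two_rpow, e]
    have hz : Tendsto (fun N : ℕ => 2 * (M : ℝ≥0∞) ^ 2 * ((2 : ℝ≥0∞) ^ (-(2 * s))) ^ N) atTop
        (𝓝 0) := by
      have h1 : Tendsto (fun N : ℕ => ((2 : ℝ≥0∞) ^ (-(2 * s))) ^ N) atTop (𝓝 0) :=
        ENNReal.tendsto_pow_atTop_nhds_zero_of_lt_one
          (ENNReal.rpow_lt_one_of_one_lt_of_neg (by norm_num) (by linarith))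
      have h2 := ENNReal.Tendsto.const_mul (a := 2 * (M : ℝ≥0∞) ^ 2) h1
        (Or.inr (ENNReal.mul_ne_top (by norm_num) (ENNReal.pow_ne_top ENNReal.coe_ne_top)))
      simpa using h2
    exact tendsto_of_tendsto_of_tendsto_of_le_of_le tendsto_const_nhds hz (fun _ => zero_le) hb2
  have hS1 := hSUM (q / 3) f (fun x => a x.1 * b x.2 * K x) (Gp K a b) (by linarith) hf hg hft
    (lt_of_le_of_lt hgK (lt_of_le_of_ne le_top hKtop)).ne hsq hfin hlim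
  refine hS1.trans ?_
  rw [tsum_eq_zero_add' ENNReal.summable]
  have hp0 : NN (q / 3) f (Gp K a b 0) ≤ C * n2 K ^ (τ / 2) * n2 f := by
    have h1 := hC (Fin 1) (U0 K a) (V0 b) f 1 hU0 hV0 one_pos (by
      intro x
      simp only [nm, Fin.sum_univ_one, U0, ENNReal.coe_one, one_pow]
      refine sq_le_one' ?_
      rw [norm_mul]
      exact mul_le_one₀ (ha.2 x) (norm_nonneg _) (norm_Em0_le K hK1 _)) (by
      intro y
      simp only [nm, Fin.sum_univ_one, V0]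
      refine sq_le_one' ?_
      rw [norm_mul]
      exact mul_le_one₀ (hb.2 y) (norm_nonneg _) (norm_ind_le _ _)) hf
    refine h1.trans ?_
    rw [ENNReal.coe_one, ENNReal.one_rpow, mul_one]
    gcongr
    calc n2 (ten (U0 K a) (V0 b)) ^ (θ / 2) ≤ n2 K ^ (θ / 2) :=
          ENNReal.rpow_le_rpow hG0 (by linarith)
      _ ≤ n2 K ^ (τ / 2) := ENNReal.rpow_le_rpow_of_exponent_ge hKone (by linarith)
  have hpn : ∀ n, NN (q / 3) f (Gp K a b (n + 1)) ≤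
      (C * (8 * M) * n2 K ^ (τ / 2) * n2 f) * r ^ n := by
    intro n
    obtain ⟨-, hU, hV, hV1⟩ := hDYM K a b n hK hK1 ha hb
    refine (piece hτ (by linarith) hτθ (by linarith) hC hM hf n hU hV hV1 (hd n).1
      (hd n).2.1 (hd n).2.2.1).trans (le_of_eq ?_)
    have e : (2 : ℝ≥0∞) ^ (-((s * (θ - τ) - (1 / 2 - s) * (1 - θ)) * n)) = r ^ n := by
      rw [hr, ← ENNReal.rpow_natCast, ← ENNReal.rpow_mul]
      congr 1
      rw [hε]
      ring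
    rw [e]
    ring
  calc NN (q / 3) f (Gp K a b 0) + ∑' n, NN (q / 3) f (Gp K a b (n + 1))
      ≤ C * n2 K ^ (τ / 2) * n2 f +
        ∑' n, (C * (8 * M) * n2 K ^ (τ / 2) * n2 f) * r ^ n :=
        add_le_add hp0 (ENNReal.tsum_le_tsum hpn)
    _ = C * n2 K ^ (τ / 2) * n2 f + (C * (8 * M) * n2 K ^ (τ / 2) * n2 f) * (1 - r)⁻¹ := by
        rw [ENNReal.tsum_mul_left, ENNReal.tsum_geometric]
    _ = C * 1 * n2 K ^ (τ / 2) * n2 f + (C * (8 * (1 - r)⁻¹)) * M * n2 K ^ (τ / 2) * n2 f := by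
        ring
    _ ≤ C * M * n2 K ^ (τ / 2) * n2 f + (C * (8 * (1 - r)⁻¹)) * M * n2 K ^ (τ / 2) * n2 f := by
        gcongr
    _ = (C * (1 + 8 * (1 - r)⁻¹)) * M * n2 K ^ (τ / 2) * n2 f := by ring
    _ ≤ (C * (1 + 8 * (1 - r)⁻¹) + 1) * M * n2 K ^ (τ / 2) * n2 f := by
        gcongr
        exact le_self_add

end TriL
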