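import Pool.Agent.TriL.Targets

/-!
# MP_5ab805_an, target ROT: the trilinear statement in every direction
-/

set_option autoImplicit false

namespace TriL

open MeasureTheory Set Filter
open scoped ENNReal NNReal Topology
open Pool.Agent.Restr (u E E1 QQ)
open Pool.Agent.H27.Fib (Few fib ind vr Ls)

namespace ROT_

open Pool.Agent.Restr (rot rot_apply mp_rot continuous_rot E_rot rot3 lintegral_rot3 rot_supp
  measurable_E)

/-- the weight in rotated coordinates -/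
theorem weight_rot {e : ℝ × ℝ} (he : e.1 ^ 2 + e.2 ^ 2 = 1) (a b : ℝ → ℂ) (x : ℝ × ℝ) :
    a ((rot e x).1 * e.2 - (rot e x).2 * e.1) * b ((rot e x).1 * e.1 + (rot e x).2 * e.2) =
      a x.1 * b x.2 := by
  have h1 : (rot e x).1 * e.2 - (rot e x).2 * e.1 = x.1 := by
    rw [rot_apply]
    simp only
    linear_combination x.1 * he
  have h2 : (rot e x).1 * e.1 + (rot e x).2 * e.2 = x.2 := by
    rw [rot_apply]
    simp only
    linear_combination x.2 * he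
  rw [h1, h2]

/-- the `L^2` norm and `n2` -/
theorem eLpNorm_two (f : ℝ × ℝ → ℂ) : eLpNorm f 2 volume = n2 f ^ (1 / 2 : ℝ) := by
  rw [eLpNorm_eq_lintegral_rpow_enorm_toReal (by norm_num) (by norm_num)]
  unfold n2
  simp only [ENNReal.toReal_ofNat]
  congr 1
  refine lintegral_congr fun x => ?_
  rw [← ENNReal.rpow_natCast]
  norm_num

theorem n2_rot {e : ℝ × ℝ} (he : e.1 ^ 2 + e.2 ^ 2 = 1) {f : ℝ × ℝ → ℂ} (hf : Measurable f) :
    n2 (fun x => f (rot e x)) = n2 f := by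
  unfold n2
  exact (mp_rot he).lintegral_comp (hf.enorm.pow_const 2)

/-- Cauchy-Schwarz -/
theorem cs {r : ℝ} (hr : 0 < r) {f₁ f₂ g : ℝ × ℝ → ℂ} (h1 : Measurable f₁) (h2 : Measurable f₂)
    (hg : Measurable g) :
    (∫⁻ ξ, ‖E f₁ ξ * E f₂ ξ * E g ξ‖ₑ ^ r) ^ (1 / r) ≤
      NN r f₁ g ^ (1 / 2 : ℝ) * NN r f₂ g ^ (1 / 2 : ℝ) := by
  have m1 := (measurable_E h1).enorm
  have m2 := (measurable_E h2).enorm
  have mg := (measurable_E hg).enorm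
  have hA : AEMeasurable (fun ξ => (‖E f₁ ξ‖ₑ ^ 2 * ‖E g ξ‖ₑ) ^ (r / 2)) volume :=
    (((m1.pow_const 2).mul mg).pow_const _).aemeasurable
  have hB : AEMeasurable (fun ξ => (‖E f₂ ξ‖ₑ ^ 2 * ‖E g ξ‖ₑ) ^ (r / 2)) volume :=
    (((m2.pow_const 2).mul mg).pow_const _).aemeasurable
  have h22 : (2 : ℝ).HolderConjugate 2 := Real.HolderConjugate.two_two
  have hcs := ENNReal.lintegral_mul_le_Lp_mul_Lq volume h22 hA hB
  have key : ∫⁻ ξ, ‖E f₁ ξ * E f₂ ξ * E g ξ‖ₑ ^ r ≤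
      (∫⁻ ξ, (‖E f₁ ξ‖ₑ ^ 2 * ‖E g ξ‖ₑ) ^ r) ^ (1 / 2 : ℝ) *
        (∫⁻ ξ, (‖E f₂ ξ‖ₑ ^ 2 * ‖E g ξ‖ₑ) ^ r) ^ (1 / 2 : ℝ) := by
    have e1 : ∀ (f : ℝ × ℝ → ℂ), ∫⁻ ξ, ((‖E f ξ‖ₑ ^ 2 * ‖E g ξ‖ₑ) ^ (r / 2)) ^ (2 : ℝ) =
        ∫⁻ ξ, (‖E f ξ‖ₑ ^ 2 * ‖E g ξ‖ₑ) ^ r := by
      intro f
      refine lintegral_congr fun ξ => ?_
      rw [← ENNReal.rpow_mul]
      congr 1
      ring
    rw [e1, e1] at hcs
    refine le_trans (le_of_eq ?_) hcs
    refine lintegral_congr fun ξ => ?_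
    simp only [Pi.mul_apply]
    rw [← ENNReal.mul_rpow_of_nonneg _ _ (by positivity), enorm_mul, enorm_mul]
    have e2 : ‖E f₁ ξ‖ₑ ^ 2 * ‖E g ξ‖ₑ * (‖E f₂ ξ‖ₑ ^ 2 * ‖E g ξ‖ₑ) =
        (‖E f₁ ξ‖ₑ * ‖E f₂ ξ‖ₑ * ‖E g ξ‖ₑ) ^ (2 : ℝ) := by
      rw [show (2 : ℝ) = ((2 : ℕ) : ℝ) by norm_num, ENNReal.rpow_natCast]
      ring
    rw [e2, ← ENNReal.rpow_mul]
    congr 1
    ring
  calc (∫⁻ ξ, ‖E f₁ ξ * E f₂ ξ * E g ξ‖ₑ ^ r) ^ (1 / r)
      ≤ ((∫⁻ ξ, (‖E f₁ ξ‖ₑ ^ 2 * ‖E g ξ‖ₑ) ^ r) ^ (1 / 2 : ℝ) *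
        (∫⁻ ξ, (‖E f₂ ξ‖ₑ ^ 2 * ‖E g ξ‖ₑ) ^ r) ^ (1 / 2 : ℝ)) ^ (1 / r) := by gcongr
    _ = _ := by
      rw [ENNReal.mul_rpow_of_nonneg _ _ (by positivity)]
      unfold NN
      rw [← ENNReal.rpow_mul, ← ENNReal.rpow_mul, ← ENNReal.rpow_mul, ← ENNReal.rpow_mul,
        mul_comm (1 / 2 : ℝ) (1 / r)]

/-- rotation of the left side -/
theorem lint_rot {e : ℝ × ℝ} (he : e.1 ^ 2 + e.2 ^ 2 = 1) {r : ℝ} {f₁ f₂ g : ℝ × ℝ → ℂ}
    (h1 : Measurable f₁) (h2 : Measurable f₂) (hg : Measurable g) :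
    ∫⁻ ξ, ‖E f₁ ξ * E f₂ ξ * E g ξ‖ₑ ^ r =
      ∫⁻ ξ, ‖E (fun x => f₁ (rot e x)) ξ * E (fun x => f₂ (rot e x)) ξ *
        E (fun x => g (rot e x)) ξ‖ₑ ^ r := by
  have hr := (continuous_rot e).measurable
  have m := ((((measurable_E (h1.comp hr)).mul (measurable_E (h2.comp hr))).mul
    (measurable_E (hg.comp hr))).enorm.pow_const r)
  rw [← lintegral_rot3 he (F := fun ξ => ‖E (fun x => f₁ (rot e x)) ξ *
    E (fun x => f₂ (rot e x)) ξ * E (fun x => g (rot e x)) ξ‖ₑ ^ r) m]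
  refine lintegral_congr fun ξ => ?_
  rw [E_rot he h1, E_rot he h2, E_rot he hg]
  rfl

end ROT_

open Pool.Agent.Restr (rot rot_apply mp_rot continuous_rot rot_supp) in
theorem p_ROT (h1 : T_MAI) : T_ROT := by
  intro q s hq hq4 hs hs2
  have hq0 : 0 < q := by linarith
  have hs0 : 0 < s := lt_of_le_of_lt (div_nonneg (by linarith) (by linarith)) hs
  have hcond : (1 / 2 - s) * (1 - (4 - 12 / q)) < s * ((4 - 12 / q) - 0) := by
    have h3 : 3 * (4 - q) / (2 * q) = (1 - (4 - 12 / q)) / 2 := by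
      field_simp
      ring
    rw [h3] at hs
    nlinarith
  obtain ⟨C, hC⟩ := h1 q s 0 hq hq4 hs0 hs2 le_rfl hcond
  refine ⟨C, fun e a b he ha hb f₁ f₂ K M hf1 hf2 hK hs1 hs2' hsK hK1 hM hmo => ?_⟩
  have hr0 : 0 < q / 3 := by positivity
  obtain ⟨Nl, hNs, hNm, hN0⟩ := exists_measurable_superset_of_null (ae_iff.1 hmo)
  have hrm : Measurable (rot e) := (continuous_rot e).measurable
  set g : ℝ × ℝ → ℂ := fun x => K (rot e x) with hg
  have hgm : Measurable g := hK.comp hrm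
  set Z : Set (ℝ × ℝ) := {x | x.1 ∈ Nl} with hZ
  have hZm : MeasurableSet Z := measurable_fst hNm
  have hZ0 : volume Z = 0 := by
    have h1 : Z = Nl ×ˢ univ := by
      ext x
      simp [hZ]
    rw [h1, Measure.volume_eq_prod, Measure.prod_prod, hN0, zero_mul]
  set g' : ℝ × ℝ → ℂ := Zᶜ.indicator g with hg'
  have hg'm : Measurable g' := hgm.indicator hZm.compl
  have hae : g' =ᵐ[volume] g := by
    have h1 : ∀ᵐ x : ℝ × ℝ, x ∉ Z := by
      rw [ae_iff]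
      simpa using hZ0
    filter_upwards [h1] with x hx
    exact indicator_of_mem hx g
  have hFm : Measurable fun x : ℝ × ℝ =>
      a (x.1 * e.2 - x.2 * e.1) * b (x.1 * e.1 + x.2 * e.2) * K x := by
    have m1 : Measurable fun x : ℝ × ℝ => a (x.1 * e.2 - x.2 * e.1) :=
      ha.1.comp ((measurable_fst.mul_const _).sub (measurable_snd.mul_const _))
    have m2 : Measurable fun x : ℝ × ℝ => b (x.1 * e.1 + x.2 * e.2) :=
      hb.1.comp ((measurable_fst.mul_const _).add (measurable_snd.mul_const _))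
    exact (m1.mul m2).mul hK
  have hGm : Measurable fun x : ℝ × ℝ => a x.1 * b x.2 * g' x :=
    ((ha.1.comp measurable_fst).mul (hb.1.comp measurable_snd)).mul hg'm
  have hEe : E (fun x => a ((rot e x).1 * e.2 - (rot e x).2 * e.1) *
      b ((rot e x).1 * e.1 + (rot e x).2 * e.2) * K (rot e x)) =
      E (fun x => a x.1 * b x.2 * g' x) := by
    funext ξ
    unfold E
    refine integral_congr_ae ?_
    filter_upwards [hae] with x hx
    rw [hx, ROT_.weight_rot he a b x]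
  -- the square
  have sq1 : Sq fun x => f₁ (rot e x) := ⟨hf1.comp hrm, rot_supp he hs1⟩
  have sq2 : Sq fun x => f₂ (rot e x) := ⟨hf2.comp hrm, rot_supp he hs2'⟩
  have sqK : Sq g' := by
    refine ⟨hg'm, fun x hx => ?_⟩
    have h1 : g x = 0 := rot_supp he hsK x hx
    rw [hg']
    by_cases hxz : x ∈ Zᶜ
    · rw [indicator_of_mem hxz, h1]
    · rw [indicator_of_notMem hxz]
  have hK1' : ∀ x, ‖g' x‖ ≤ 1 := by
    intro x
    rw [hg']
    by_cases hxz : x ∈ Zᶜ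
    · rw [indicator_of_mem hxz]
      exact hK1 _
    · rw [indicator_of_notMem hxz]
      simp
  have hMo : Mo g' s M := by
    intro x h
    by_cases hx : x ∈ Nl
    · have h0 : ∀ y, g' (x, y) = 0 := fun y =>
        indicator_of_notMem (show (x, y) ∉ Zᶜ from fun h => h hx) _
      simp [h0]
    · have hP : ∀ h : ℝ, ∫⁻ r, ‖K (x * e.2 + (r + h) * e.1, -(x * e.1) + (r + h) * e.2) -
          K (x * e.2 + r * e.1, -(x * e.1) + r * e.2)‖ₑ ^ 2 ≤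
          (M : ℝ≥0∞) ^ 2 * ENNReal.ofReal (|h| ^ (2 * s)) := by
        by_contra hn
        exact hx (hNs hn)
      have h0 : ∀ y, g' (x, y) = K (x * e.2 + y * e.1, -(x * e.1) + y * e.2) := by
        intro y
        have h1 : g' (x, y) = g (x, y) := indicator_of_mem (show (x, y) ∈ Zᶜ from hx) _
        rw [h1]
        change K (rot e (x, y)) = _
        rw [rot_apply]
        congr 2
        · simp only
          ring
        · simp only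
          ring
      simp only [h0]
      exact hP h
  have b1 := hC g' (fun x => f₁ (rot e x)) a b M sqK hK1' ha hb hM hMo sq1
  have b2 := hC g' (fun x => f₂ (rot e x)) a b M sqK hK1' ha hb hM hMo sq2
  rw [zero_div, ENNReal.rpow_zero, mul_one, ROT_.n2_rot he hf1] at b1
  rw [zero_div, ENNReal.rpow_zero, mul_one, ROT_.n2_rot he hf2] at b2
  rw [eLpNorm_eq_lintegral_rpow_enorm_toReal (by simpa using hr0) ENNReal.ofReal_ne_top,
    ENNReal.toReal_ofReal hr0.le, ROT_.lint_rot he hf1 hf2 hFm, hEe, ROT_.eLpNorm_two,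
    ROT_.eLpNorm_two]
  calc (∫⁻ ξ, ‖E (fun x => f₁ (rot e x)) ξ * E (fun x => f₂ (rot e x)) ξ *
        E (fun x => a x.1 * b x.2 * g' x) ξ‖ₑ ^ (q / 3)) ^ (1 / (q / 3))
      ≤ NN (q / 3) (fun x => f₁ (rot e x)) (fun x => a x.1 * b x.2 * g' x) ^ (1 / 2 : ℝ) *
        NN (q / 3) (fun x => f₂ (rot e x)) (fun x => a x.1 * b x.2 * g' x) ^ (1 / 2 : ℝ) :=
        ROT_.cs hr0 sq1.1 sq2.1 hGm
    _ ≤ ((C : ℝ≥0∞) * M * n2 f₁) ^ (1 / 2 : ℝ) * ((C : ℝ≥0∞) * M * n2 f₂) ^ (1 / 2 : ℝ) := by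
        gcongr
    _ = (C : ℝ≥0∞) * M * n2 f₁ ^ (1 / 2 : ℝ) * n2 f₂ ^ (1 / 2 : ℝ) := by
        rw [ENNReal.mul_rpow_of_nonneg ((C : ℝ≥0∞) * M) (n2 f₁) (by norm_num),
          ENNReal.mul_rpow_of_nonneg ((C : ℝ≥0∞) * M) (n2 f₂) (by norm_num)]
        have h2 : ((C : ℝ≥0∞) * M) ^ (1 / 2 : ℝ) * ((C : ℝ≥0∞) * M) ^ (1 / 2 : ℝ) = C * M := by
          rw [← ENNReal.rpow_add_of_nonneg _ _ (by norm_num) (by norm_num)]
          norm_num
        calc _ = (((C : ℝ≥0∞) * M) ^ (1 / 2 : ℝ) * ((C : ℝ≥0∞) * M) ^ (1 / 2 : ℝ)) *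
              (n2 f₁ ^ (1 / 2 : ℝ) * n2 f₂ ^ (1 / 2 : ℝ)) := by ring
          _ = _ := by rw [h2]; ring

end TriL
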