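import Pool.Agent.TriL.Targets

/-!
# MP_5ab805_an, trilinear extension estimate: the restricted estimate (RST)
-/

set_option autoImplicit false

namespace TriL

open MeasureTheory Set Filter
open scoped ENNReal NNReal Topology
open Pool.Agent.Restr (u E E1 QQ)
open Pool.Agent.H27.Fib (Few fib ind vr Ls)

namespace RST_

theorem norm_ind_le (B : Set (ℝ × ℝ)) (x : ℝ × ℝ) : ‖ind B x‖ ≤ 1 := by
  unfold ind
  by_cases hx : x ∈ B
  · rw [indicator_of_mem hx]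
    simp
  · rw [indicator_of_notMem hx]
    simp

theorem sq_ind {B : Set (ℝ × ℝ)} (hB : MeasurableSet B) (hBQ : B ⊆ QQ) : Sq (ind B) := by
  refine ⟨Pool.Agent.H27.Fib.measurable_ind hB, fun x hx => ?_⟩
  unfold ind
  exact indicator_of_notMem (fun h => hx (hBQ h)) _

theorem sq_g {B : Set (ℝ × ℝ)} (hB : MeasurableSet B) (hBQ : B ⊆ QQ) {a b : ℝ → ℂ} (ha : Mu a)
    (hb : Mu b) : Sq (fun x => a x.1 * b x.2 * ind B x) := by
  obtain ⟨h1, h2⟩ := sq_ind hB hBQ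
  refine ⟨((ha.1.comp measurable_fst).mul (hb.1.comp measurable_snd)).mul h1, fun x hx => ?_⟩
  show a x.1 * b x.2 * ind B x = 0
  rw [h2 x hx, mul_zero]

theorem n2_g_le {B : Set (ℝ × ℝ)} (hB : MeasurableSet B) {a b : ℝ → ℂ} (ha : Mu a)
    (hb : Mu b) : n2 (fun x => a x.1 * b x.2 * ind B x) ≤ volume B := by
  rw [← Pool.Agent.H27.Fib.lint_ind hB]
  unfold n2
  refine lintegral_mono fun x => ?_
  have h1 : ‖a x.1 * b x.2 * ind B x‖ ≤ ‖ind B x‖ := by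
    rw [norm_mul, norm_mul]
    have h2 : ‖a x.1‖ * ‖b x.2‖ ≤ 1 := mul_le_one₀ (ha.2 _) (norm_nonneg _) (hb.2 _)
    calc ‖a x.1‖ * ‖b x.2‖ * ‖ind B x‖ ≤ 1 * ‖ind B x‖ :=
          mul_le_mul_of_nonneg_right h2 (norm_nonneg _)
      _ = ‖ind B x‖ := one_mul _
  have h3 : ‖a x.1 * b x.2 * ind B x‖ₑ ≤ ‖ind B x‖ₑ := enorm_le_iff_norm_le.mpr h1
  exact pow_le_pow_left' h3 2

theorem nn_self (g : ℝ × ℝ → ℂ) {q : ℝ} (hq : 0 < q) :
    (NN (q / 3) g g) ^ (q / 3) = ∫⁻ ξ, ‖E g ξ‖ₑ ^ q := by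
  unfold NN
  rw [← ENNReal.rpow_mul]
  have e1 : 1 / (q / 3) * (q / 3) = 1 := by
    field_simp
  rw [e1, ENNReal.rpow_one]
  refine lintegral_congr fun ξ => ?_
  have e2 : ‖E g ξ‖ₑ ^ 2 * ‖E g ξ‖ₑ = ‖E g ξ‖ₑ ^ (3 : ℝ) := by
    rw [← pow_succ]
    norm_num
  rw [e2, ← ENNReal.rpow_mul]
  congr 1
  ring

end RST_

open RST_ in
theorem p_RST (hM : T_MAI) (hI : T_IVM) : T_RST := by
  intro q δ hq hq4 hδ hδ1
  have hq0 : 0 < q := by linarith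
  have hτ0 : 0 ≤ 4 - 12 / q - 6 * δ / q := by
    have e : 4 - 12 / q - 6 * δ / q = (4 * q - 12 - 6 * δ) / q := by
      field_simp
    rw [e]
    exact div_nonneg (by linarith) hq0.le
  have hτ1 : (1 / 2 - (1 / 2 : ℝ)) * (1 - (4 - 12 / q)) <
      1 / 2 * ((4 - 12 / q) - (4 - 12 / q - 6 * δ / q)) := by
    have h1 : 0 < 6 * δ / q := by positivity
    have e1 : (1 / 2 - (1 / 2 : ℝ)) * (1 - (4 - 12 / q)) = 0 := by ring
    have e2 : 1 / 2 * ((4 - 12 / q) - (4 - 12 / q - 6 * δ / q)) = 1 / 2 * (6 * δ / q) := by ring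
    rw [e1, e2]
    positivity
  obtain ⟨C, hC⟩ := hM q (1 / 2) (4 - 12 / q - 6 * δ / q) hq hq4 (by norm_num) le_rfl hτ0 hτ1
  refine ⟨(2 * C) ^ (q / 3), ?_⟩
  intro B m a b hB hBQ hF hm ha hb
  have hm1 : (1 : ℝ≥0) ≤ 2 * m := by
    have : (1 : ℝ≥0) ≤ m := by exact_mod_cast hm
    calc (1 : ℝ≥0) ≤ m := this
      _ ≤ 2 * m := by
        rw [two_mul]
        exact le_add_of_nonneg_left zero_le
  have h1 := hC (ind B) (fun x => a x.1 * b x.2 * ind B x) a b (2 * m) (sq_ind hB hBQ)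
    (norm_ind_le B) ha hb hm1 (hI B m hB hBQ hF hm) (sq_g hB hBQ ha hb)
  have hr : 0 < q - 2 - δ := by linarith
  have hn : n2 (ind B) = volume B := Pool.Agent.H27.Fib.lint_ind hB
  have h2 : NN (q / 3) (fun x => a x.1 * b x.2 * ind B x) (fun x => a x.1 * b x.2 * ind B x) ≤
      ((2 * C : ℝ≥0) : ℝ≥0∞) * (m : ℝ≥0∞) * volume B ^ (1 + (4 - 12 / q - 6 * δ / q) / 2) := by
    refine h1.trans ?_
    rw [hn]
    have e3 : volume B ^ (1 + (4 - 12 / q - 6 * δ / q) / 2) =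
        volume B ^ ((4 - 12 / q - 6 * δ / q) / 2) * volume B := by
      rw [add_comm, ENNReal.rpow_add_of_nonneg _ _ (by linarith) zero_le_one, ENNReal.rpow_one]
    rw [e3]
    have e4 : ((2 * C : ℝ≥0) : ℝ≥0∞) * (m : ℝ≥0∞) = (C : ℝ≥0∞) * ((2 * m : ℝ≥0) : ℝ≥0∞) := by
      push_cast
      ring
    rw [e4, ← mul_assoc]
    exact mul_le_mul_right (n2_g_le hB ha hb) _
  have h3 := ENNReal.rpow_le_rpow h2 (by positivity : (0 : ℝ) ≤ q / 3)
  rw [nn_self _ hq0] at h3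
  refine h3.trans ?_
  rw [ENNReal.mul_rpow_of_nonneg _ _ (by positivity), ENNReal.mul_rpow_of_nonneg _ _ (by positivity),
    ← ENNReal.rpow_mul]
  have e5 : (1 + (4 - 12 / q - 6 * δ / q) / 2) * (q / 3) = q - 2 - δ := by
    field_simp
    ring
  rw [e5, ENNReal.coe_rpow_of_nonneg _ (by positivity : (0 : ℝ) ≤ q / 3), mul_assoc]
  have hm2 : (1 : ℝ≥0∞) ≤ m := by exact_mod_cast hm
  have e6 : ENNReal.ofReal ((m : ℝ) ^ q * vr B ^ (q - 2 - δ)) =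
      (m : ℝ≥0∞) ^ q * volume B ^ (q - 2 - δ) := by
    rw [ENNReal.ofReal_mul (by positivity),
      ← ENNReal.ofReal_rpow_of_nonneg (Nat.cast_nonneg m) hq0.le,
      ← ENNReal.ofReal_rpow_of_nonneg (Pool.Agent.H27.Fib.vr_nonneg B) hr.le,
      Pool.Agent.H27.Fib.ofReal_vr hBQ, ENNReal.ofReal_natCast]
  rw [e6]
  refine mul_le_mul_right ?_ _
  refine mul_le_mul_left ?_ _
  exact ENNReal.rpow_le_rpow_of_exponent_le hm2 (by linarith)

end TriL
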