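import Pool.Agent.TriL.Targets

/-!
# MP_5ab805_an: target SUM, countable triangle inequality
-/

set_option autoImplicit false

namespace TriL

open MeasureTheory Set Filter
open scoped ENNReal NNReal Topology
open Pool.Agent.Restr (u E E1 QQ measurable_E vol_QQ measurable_u norm_u)

namespace SUM_

/-- Cauchy-Schwarz on the square -/
theorem l1_le {h : ℝ × ℝ → ℂ} (hh : Sq h) : ∫⁻ x, ‖h x‖ₑ ≤ (n2 h) ^ (1 / 2 : ℝ) := by
  have hQ : MeasurableSet QQ := measurableSet_Icc.prod measurableSet_Icc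
  have h1 : ∀ x, ‖h x‖ₑ = (fun x => ‖h x‖ₑ) x * (QQ.indicator (fun _ => (1 : ℝ≥0∞))) x := by
    intro x
    by_cases hx : x ∈ QQ
    · simp [hx]
    · simp [hx, hh.2 x hx]
  have h2 : ∫⁻ x, ‖h x‖ₑ = ∫⁻ x, ((fun x => ‖h x‖ₑ) * (QQ.indicator fun _ => (1 : ℝ≥0∞))) x :=
    lintegral_congr fun x => h1 x
  rw [h2]
  have h3 := ENNReal.lintegral_mul_le_Lp_mul_Lq (μ := (volume : Measure (ℝ × ℝ)))
    (p := 2) (q := 2) Real.HolderConjugate.two_two (f := fun x => ‖h x‖ₑ)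
    (g := QQ.indicator fun _ => (1 : ℝ≥0∞)) hh.1.enorm.aemeasurable
    (measurable_const.indicator hQ).aemeasurable
  refine h3.trans ?_
  have h4 : ∫⁻ x, (QQ.indicator (fun _ => (1 : ℝ≥0∞)) x) ^ (2 : ℝ) = 1 := by
    have h5 : ∀ x, (QQ.indicator (fun _ => (1 : ℝ≥0∞)) x) ^ (2 : ℝ) =
        QQ.indicator (fun _ => (1 : ℝ≥0∞)) x := by
      intro x
      by_cases hx : x ∈ QQ <;> simp [hx]
    rw [lintegral_congr h5, lintegral_indicator hQ]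
    simp [vol_QQ]
  rw [h4, ENNReal.one_rpow, mul_one]
  unfold n2
  simp

theorem integrable_of_Sq {h : ℝ × ℝ → ℂ} (hh : Sq h) (hf : n2 h ≠ ⊤) : Integrable h := by
  refine ⟨hh.1.aestronglyMeasurable, ?_⟩
  rw [hasFiniteIntegral_iff_enorm]
  refine lt_of_le_of_lt (l1_le hh) ?_
  exact ENNReal.rpow_lt_top_of_nonneg (by norm_num) hf

theorem Sq_sum {G : ℕ → ℝ × ℝ → ℂ} (hG : ∀ n, Sq (G n)) (N : ℕ) :
    Sq (fun x => ∑ i ∈ Finset.range N, G i x) := by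
  refine ⟨Finset.measurable_fun_sum _ fun i _ => (hG i).1, fun x hx => ?_⟩
  exact Finset.sum_eq_zero fun i _ => (hG i).2 x hx

theorem E_sum {G : ℕ → ℝ × ℝ → ℂ} (hG : ∀ n, Integrable (G n)) (N : ℕ) (ξ : ℝ × ℝ × ℝ) :
    E (fun x => ∑ i ∈ Finset.range N, G i x) ξ = ∑ i ∈ Finset.range N, E (G i) ξ := by
  induction N with
  | zero => simp [E]
  | succ N ih =>
    have h1 : (fun x => ∑ i ∈ Finset.range (N + 1), G i x) =
        fun x => (∑ i ∈ Finset.range N, G i x) + G N x := by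
      funext x
      rw [Finset.sum_range_succ]
    rw [h1, Finset.sum_range_succ, ← ih]
    exact Pool.Agent.H27.Fib.E_add (integrable_finsetSum _ fun i _ => hG i) (hG N) ξ

/-- the pointwise bound -/
theorem pointwise {g : ℝ × ℝ → ℂ} {G : ℕ → ℝ × ℝ → ℂ} (hg : Sq g) (hgf : n2 g ≠ ⊤)
    (hG : ∀ n, Sq (G n)) (hGf : ∀ n, n2 (G n) ≠ ⊤)
    (ht : Tendsto (fun N => n2 (fun x => g x - ∑ i ∈ Finset.range N, G i x)) atTop (𝓝 0))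
    (ξ : ℝ × ℝ × ℝ) : ‖E g ξ‖ₑ ≤ ∑' n, ‖E (G n) ξ‖ₑ := by
  have hgi := integrable_of_Sq hg hgf
  have hGi := fun n => integrable_of_Sq (hG n) (hGf n)
  have h1 : ∀ N : ℕ, ‖E g ξ‖ₑ ≤ (∑' n, ‖E (G n) ξ‖ₑ) +
      (n2 (fun x => g x - ∑ i ∈ Finset.range N, G i x)) ^ (1 / 2 : ℝ) := by
    intro N
    have hS : Sq (fun x => g x - ∑ i ∈ Finset.range N, G i x) := by
      refine ⟨hg.1.sub (Sq_sum hG N).1, fun x hx => ?_⟩
      have h2 := (Sq_sum hG N).2 x hx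
      simp only at h2 ⊢
      rw [hg.2 x hx, h2, sub_zero]
    have hSi : Integrable (fun x => ∑ i ∈ Finset.range N, G i x) :=
      integrable_finsetSum _ fun i _ => hGi i
    have hDi : Integrable (fun x => g x - ∑ i ∈ Finset.range N, G i x) := hgi.sub hSi
    have h3 : E g ξ = (∑ i ∈ Finset.range N, E (G i) ξ) +
        E (fun x => g x - ∑ i ∈ Finset.range N, G i x) ξ := by
      rw [← E_sum hGi N ξ, ← Pool.Agent.H27.Fib.E_add hSi hDi ξ]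
      congr 1
      funext x
      simp
    rw [h3]
    refine (enorm_add_le _ _).trans (add_le_add ?_ ?_)
    · refine (enorm_sum_le _ _).trans ?_
      exact ENNReal.sum_le_tsum _
    · exact (Pool.Agent.H27.Fib.enorm_E_le _ ξ).trans (l1_le hS)
  have h4 : Tendsto (fun N : ℕ => (∑' n, ‖E (G n) ξ‖ₑ) +
      (n2 (fun x => g x - ∑ i ∈ Finset.range N, G i x)) ^ (1 / 2 : ℝ)) atTop
      (𝓝 ((∑' n, ‖E (G n) ξ‖ₑ) + 0)) := by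
    refine Tendsto.const_add _ ?_
    have h5 := (ENNReal.continuous_rpow_const (y := (1 / 2 : ℝ))).tendsto 0
    rw [ENNReal.zero_rpow_of_pos (by norm_num)] at h5
    exact h5.comp ht
  rw [add_zero] at h4
  exact ge_of_tendsto' h4 h1

/-- Minkowski for finite sums -/
theorem finite_mink {ρ : ℝ} (hρ : 1 ≤ ρ) {f : ℝ × ℝ → ℂ} {G : ℕ → ℝ × ℝ → ℂ} (hf : Measurable f)
    (hG : ∀ n, Measurable (G n)) (N : ℕ) :
    (∫⁻ ξ, (‖E f ξ‖ₑ ^ 2 * ∑ i ∈ Finset.range N, ‖E (G i) ξ‖ₑ) ^ ρ) ^ (1 / ρ) ≤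
      ∑ i ∈ Finset.range N, NN ρ f (G i) := by
  have hρ0 : 0 < ρ := by linarith
  induction N with
  | zero =>
    simp [ENNReal.zero_rpow_of_pos hρ0, hρ0]
  | succ N ih =>
    have hmf : Measurable fun ξ => ‖E f ξ‖ₑ ^ 2 := (measurable_E hf).enorm.pow_const 2
    have hm1 : Measurable fun ξ => ‖E f ξ‖ₑ ^ 2 * ∑ i ∈ Finset.range N, ‖E (G i) ξ‖ₑ :=
      hmf.mul (Finset.measurable_fun_sum _ fun i _ => (measurable_E (hG i)).enorm)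
    have hm2 : Measurable fun ξ => ‖E f ξ‖ₑ ^ 2 * ‖E (G N) ξ‖ₑ :=
      hmf.mul (measurable_E (hG N)).enorm
    have h1 := ENNReal.lintegral_Lp_add_le (μ := (volume : Measure (ℝ × ℝ × ℝ)))
      hm1.aemeasurable hm2.aemeasurable hρ
    have h2 : ∀ ξ, ‖E f ξ‖ₑ ^ 2 * ∑ i ∈ Finset.range (N + 1), ‖E (G i) ξ‖ₑ =
        ((fun ξ => ‖E f ξ‖ₑ ^ 2 * ∑ i ∈ Finset.range N, ‖E (G i) ξ‖ₑ) +
          fun ξ => ‖E f ξ‖ₑ ^ 2 * ‖E (G N) ξ‖ₑ) ξ := by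
      intro ξ
      simp only [Pi.add_apply]
      rw [Finset.sum_range_succ, mul_add]
    rw [Finset.sum_range_succ]
    simp only [h2]
    exact h1.trans (add_le_add ih le_rfl)

end SUM_

open SUM_

theorem p_SUM : T_SUM := by
  intro ρ f g G hρ hf hg _ hgf hG hGf ht
  have hρ0 : 0 < ρ := by linarith
  set T : ℝ≥0∞ := ∑' n, NN ρ f (G n) with hT
  have h1 : ∀ N : ℕ, ∫⁻ ξ, (‖E f ξ‖ₑ ^ 2 * ∑ i ∈ Finset.range N, ‖E (G i) ξ‖ₑ) ^ ρ ≤ T ^ ρ := by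
    intro N
    have h2 := (finite_mink hρ hf.1 (fun n => (hG n).1) N).trans
      (ENNReal.sum_le_tsum (f := fun n => NN ρ f (G n)) (Finset.range N))
    have h3 := ENNReal.rpow_le_rpow h2 hρ0.le
    rwa [← ENNReal.rpow_mul, one_div_mul_cancel hρ0.ne', ENNReal.rpow_one] at h3
  have h4 : ∀ ξ, (‖E f ξ‖ₑ ^ 2 * ‖E g ξ‖ₑ) ^ ρ ≤
      liminf (fun N : ℕ => (‖E f ξ‖ₑ ^ 2 * ∑ i ∈ Finset.range N, ‖E (G i) ξ‖ₑ) ^ ρ) atTop := by
    intro ξ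
    have h5 : Tendsto (fun N : ℕ => ∑ i ∈ Finset.range N, ‖E (G i) ξ‖ₑ) atTop
        (𝓝 (∑' n, ‖E (G n) ξ‖ₑ)) := ENNReal.tendsto_nat_tsum _
    have h6 : Tendsto (fun N : ℕ => ‖E f ξ‖ₑ ^ 2 * ∑ i ∈ Finset.range N, ‖E (G i) ξ‖ₑ) atTop
        (𝓝 (‖E f ξ‖ₑ ^ 2 * ∑' n, ‖E (G n) ξ‖ₑ)) :=
      ENNReal.Tendsto.const_mul h5 (Or.inr (ENNReal.pow_ne_top enorm_ne_top))
    have h7 := (ENNReal.continuous_rpow_const (y := ρ)).tendsto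
      (‖E f ξ‖ₑ ^ 2 * ∑' n, ‖E (G n) ξ‖ₑ)
    have h8 := (h7.comp h6).liminf_eq
    have h9 : liminf (fun N : ℕ => (‖E f ξ‖ₑ ^ 2 * ∑ i ∈ Finset.range N, ‖E (G i) ξ‖ₑ) ^ ρ)
        atTop = (‖E f ξ‖ₑ ^ 2 * ∑' n, ‖E (G n) ξ‖ₑ) ^ ρ := h8
    rw [h9]
    refine ENNReal.rpow_le_rpow ?_ hρ0.le
    exact mul_le_mul' le_rfl (pointwise hg hgf hG hGf ht ξ)
  have hm : ∀ N : ℕ, Measurable fun ξ =>
      (‖E f ξ‖ₑ ^ 2 * ∑ i ∈ Finset.range N, ‖E (G i) ξ‖ₑ) ^ ρ := fun N =>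
    (((measurable_E hf.1).enorm.pow_const 2).mul (Finset.measurable_fun_sum _ fun i _ =>
      (measurable_E (hG i).1).enorm)).pow_const ρ
  have h10 : ∫⁻ ξ, (‖E f ξ‖ₑ ^ 2 * ‖E g ξ‖ₑ) ^ ρ ≤ T ^ ρ := by
    calc ∫⁻ ξ, (‖E f ξ‖ₑ ^ 2 * ‖E g ξ‖ₑ) ^ ρ
        ≤ ∫⁻ ξ, liminf (fun N : ℕ =>
          (‖E f ξ‖ₑ ^ 2 * ∑ i ∈ Finset.range N, ‖E (G i) ξ‖ₑ) ^ ρ) atTop := lintegral_mono h4
      _ ≤ liminf (fun N : ℕ => ∫⁻ ξ,
          (‖E f ξ‖ₑ ^ 2 * ∑ i ∈ Finset.range N, ‖E (G i) ξ‖ₑ) ^ ρ) atTop :=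
          lintegral_liminf_le hm
      _ ≤ liminf (fun _ : ℕ => T ^ ρ) atTop := liminf_le_liminf (Eventually.of_forall h1)
      _ = T ^ ρ := by simp
  unfold NN
  have h11 := ENNReal.rpow_le_rpow h10 (one_div_nonneg.2 hρ0.le)
  rwa [← ENNReal.rpow_mul, mul_one_div_cancel hρ0.ne', ENNReal.rpow_one] at h11

end TriL
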