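import Pool.Agent.TriL.Targets

/-!
# MP_5ab805_an, trilinear extension estimate, TEN: trilinear estimate for tensors
-/

set_option autoImplicit false

namespace TriL

open MeasureTheory Set Filter
open scoped ENNReal NNReal Topology
open Pool.Agent.Restr (u E E1 QQ)
open Pool.Agent.H27.Fib (Few fib ind vr Ls)

namespace TEN_

/-- pointwise bound of the extension by the norm -/
theorem enorm_E_sq_le {f : ℝ × ℝ → ℂ} (hf : Sq f) (ξ : ℝ × ℝ × ℝ) : ‖E f ξ‖ₑ ^ (2 : ℝ) ≤ n2 f := by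
  have h1 : ‖E f ξ‖ₑ ≤ ∫⁻ x, ‖f x‖ₑ := Pool.Agent.H27.Fib.enorm_E_le f ξ
  have hQ : MeasurableSet QQ := measurableSet_Icc.prod measurableSet_Icc
  have h2 : ∫⁻ x, ‖f x‖ₑ = ∫⁻ x, (((fun x => ‖f x‖ₑ) : ℝ × ℝ → ℝ≥0∞) *
      (QQ.indicator (1 : ℝ × ℝ → ℝ≥0∞))) x := by
    refine lintegral_congr fun x => ?_
    by_cases hx : x ∈ QQ
    · simp [hx]
    · simp [hx, hf.2 x hx]
  have h3 := ENNReal.lintegral_mul_le_Lp_mul_Lq (volume : Measure (ℝ × ℝ))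
    (Real.HolderConjugate.two_two) (f := fun x => ‖f x‖ₑ) (g := QQ.indicator 1)
    hf.1.enorm.aemeasurable (measurable_one.indicator hQ).aemeasurable
  have h4 : ∫⁻ x, (QQ.indicator (1 : ℝ × ℝ → ℝ≥0∞) x) ^ (2 : ℝ) = 1 := by
    have : ∀ x, (QQ.indicator (1 : ℝ × ℝ → ℝ≥0∞) x) ^ (2 : ℝ) = QQ.indicator 1 x := by
      intro x
      by_cases hx : x ∈ QQ
      · simp [hx]
      · simp [hx]
    simp_rw [this]
    rw [lintegral_indicator_one hQ, Pool.Agent.Restr.vol_QQ]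
  rw [h4] at h3
  have h5 : ‖E f ξ‖ₑ ≤ (n2 f) ^ (1 / 2 : ℝ) := by
    refine h1.trans (h2.le.trans (h3.trans ?_))
    simp only [ENNReal.one_rpow, mul_one, n2]
    refine le_of_eq ?_
    congr 1
    refine lintegral_congr fun x => ?_
    rw [← ENNReal.rpow_natCast]; norm_num
  calc ‖E f ξ‖ₑ ^ (2 : ℝ) ≤ ((n2 f) ^ (1 / 2 : ℝ)) ^ (2 : ℝ) :=
        ENNReal.rpow_le_rpow h5 (by norm_num)
    _ = n2 f := by rw [← ENNReal.rpow_mul]; norm_num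

theorem bdd {ι : Type} [Fintype ι] {U : ι → ℝ → ℂ} (h : ∀ x, nm U x ≤ 1) :
    ∃ A : ℝ, ∀ j x, ‖U j x‖ ≤ A := by
  refine ⟨1, fun j x => ?_⟩
  have h1 : ‖U j x‖ₑ ^ 2 ≤ 1 :=
    (Finset.single_le_sum (f := fun j => ‖U j x‖ₑ ^ 2) (fun _ _ => by simp)
      (Finset.mem_univ j)).trans (h x)
  have h2 : ‖U j x‖ₑ ≤ 1 := by
    by_contra hc
    rw [not_le] at hc
    have : (1 : ℝ≥0∞) < ‖U j x‖ₑ ^ 2 := by
      rw [pow_two]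
      calc (1 : ℝ≥0∞) < ‖U j x‖ₑ := hc
        _ = ‖U j x‖ₑ * 1 := (mul_one _).symm
        _ ≤ ‖U j x‖ₑ * ‖U j x‖ₑ := by gcongr
    exact absurd h1 (not_le.mpr this)
  rw [← ofReal_norm] at h2
  exact (ENNReal.ofReal_le_one.mp h2)

theorem measurable_al {ι : Type} [Fintype ι] {U : ι → ℝ → ℂ} (h : Fam U) : Measurable (al U) := by
  unfold al
  refine Finset.measurable_sum _ fun j _ => ?_
  exact ((Pool.Agent.Restr.measurable_E1 (h j).1).enorm).pow_const 2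

end TEN_

open TEN_

theorem p_TEN (h1 : T_WT2) (h2 : T_FAC) : T_TEN := by
  intro ρ hρ
  obtain ⟨C, hC⟩ := h1 ρ hρ
  have hρ0 : 0 < ρ := by linarith
  refine ⟨(C + 1) ^ (1 / ρ), ?_⟩
  intro ι _ U V f hU hV hnU hnV hf
  obtain ⟨hw1, -⟩ := hC ι U f hU hnU hf
  obtain ⟨-, hw2⟩ := hC ι V f hV hnV hf
  have hfac := h2 ι U V hU hV (bdd hnU) (bdd hnV)
  set a : ℝ × ℝ × ℝ → ℝ≥0∞ := fun ξ => al U (ξ.1, ξ.2.2) with ha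
  set b : ℝ × ℝ × ℝ → ℝ≥0∞ := fun ξ => al V (ξ.2.1, ξ.2.2) with hb
  have ma : Measurable a := (measurable_al hU).comp (by fun_prop)
  have mb : Measurable b := (measurable_al hV).comp (by fun_prop)
  have mE : Measurable (fun ξ => ‖E f ξ‖ₑ) := (Pool.Agent.Restr.measurable_E hf.1).enorm
  -- pointwise bound
  have hpt : ∀ ξ, (‖E f ξ‖ₑ ^ 2 * ‖E (ten U V) ξ‖ₑ) ^ ρ ≤ (n2 f) ^ (ρ - 1) *
      ((‖E f ξ‖ₑ * (a ξ) ^ (ρ / 2)) * (‖E f ξ‖ₑ * (b ξ) ^ (ρ / 2))) := by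
    intro ξ
    have e1 : (‖E f ξ‖ₑ ^ 2) ^ ρ = (‖E f ξ‖ₑ ^ (2 : ℝ)) ^ (ρ - 1) * ‖E f ξ‖ₑ ^ (2 : ℝ) := by
      have : (‖E f ξ‖ₑ ^ (2 : ℝ)) ^ ρ =
          (‖E f ξ‖ₑ ^ (2 : ℝ)) ^ (ρ - 1) * (‖E f ξ‖ₑ ^ (2 : ℝ)) ^ (1 : ℝ) := by
        rw [← ENNReal.rpow_add_of_nonneg _ _ (by linarith) zero_le_one]
        congr 1; ring
      rw [ENNReal.rpow_one] at this
      rw [← this]
      congr 1
      rw [← ENNReal.rpow_natCast]; norm_num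
    have e2 : ‖E (ten U V) ξ‖ₑ ^ ρ ≤ (a ξ) ^ (ρ / 2) * (b ξ) ^ (ρ / 2) := by
      rw [← ENNReal.mul_rpow_of_nonneg _ _ (by positivity)]
      have : ‖E (ten U V) ξ‖ₑ ^ ρ = (‖E (ten U V) ξ‖ₑ ^ 2) ^ (ρ / 2) := by
        rw [← ENNReal.rpow_natCast, ← ENNReal.rpow_mul]
        congr 1; push_cast; ring
      rw [this]
      exact ENNReal.rpow_le_rpow (hfac ξ) (by positivity)
    rw [ENNReal.mul_rpow_of_nonneg _ _ hρ0.le, e1]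
    calc (‖E f ξ‖ₑ ^ (2 : ℝ)) ^ (ρ - 1) * ‖E f ξ‖ₑ ^ (2 : ℝ) * ‖E (ten U V) ξ‖ₑ ^ ρ
        ≤ (n2 f) ^ (ρ - 1) * ‖E f ξ‖ₑ ^ (2 : ℝ) * ((a ξ) ^ (ρ / 2) * (b ξ) ^ (ρ / 2)) := by
          gcongr
          · exact enorm_E_sq_le hf ξ
      _ = _ := by
          have : ‖E f ξ‖ₑ ^ (2 : ℝ) = ‖E f ξ‖ₑ * ‖E f ξ‖ₑ := by
            rw [show (2 : ℝ) = ((2 : ℕ) : ℝ) by norm_num, ENNReal.rpow_natCast, pow_two]
          rw [this]; ring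
  have hcs := ENNReal.lintegral_mul_le_Lp_mul_Lq (volume : Measure (ℝ × ℝ × ℝ))
    (Real.HolderConjugate.two_two) (f := fun ξ => ‖E f ξ‖ₑ * (a ξ) ^ (ρ / 2))
    (g := fun ξ => ‖E f ξ‖ₑ * (b ξ) ^ (ρ / 2))
    (mE.mul (ma.pow_const _)).aemeasurable (mE.mul (mb.pow_const _)).aemeasurable
  have hsq : ∀ c : ℝ≥0∞, ∀ d : ℝ≥0∞, (c * d ^ (ρ / 2)) ^ (2 : ℝ) = c ^ 2 * d ^ ρ := by
    intro c d
    rw [ENNReal.mul_rpow_of_nonneg _ _ (by norm_num), ← ENNReal.rpow_mul,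
      show ρ / 2 * 2 = ρ by ring, show (2 : ℝ) = ((2 : ℕ) : ℝ) by norm_num, ENNReal.rpow_natCast]
  have hA : ∫⁻ ξ, (‖E f ξ‖ₑ * (a ξ) ^ (ρ / 2)) ^ (2 : ℝ) ≤ (C + 1 : ℝ≥0) * n2 f := by
    simp_rw [hsq]
    refine hw1.trans ?_
    gcongr
    exact le_self_add
  have hB : ∫⁻ ξ, (‖E f ξ‖ₑ * (b ξ) ^ (ρ / 2)) ^ (2 : ℝ) ≤ (C + 1 : ℝ≥0) * n2 f := by
    simp_rw [hsq]
    refine hw2.trans ?_
    gcongr
    exact le_self_add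
  have hint : ∫⁻ ξ, (‖E f ξ‖ₑ ^ 2 * ‖E (ten U V) ξ‖ₑ) ^ ρ ≤
      (n2 f) ^ (ρ - 1) * ((C + 1 : ℝ≥0) * n2 f) := by
    refine (lintegral_mono hpt).trans ?_
    have mm : Measurable (fun ξ => (‖E f ξ‖ₑ * (a ξ) ^ (ρ / 2)) * (‖E f ξ‖ₑ * (b ξ) ^ (ρ / 2))) :=
      (mE.mul (ma.pow_const _)).mul (mE.mul (mb.pow_const _))
    rw [lintegral_const_mul _ mm]
    gcongr
    refine (le_of_eq ?_).trans (hcs.trans ?_)
    · rfl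
    · calc (∫⁻ ξ, (‖E f ξ‖ₑ * (a ξ) ^ (ρ / 2)) ^ (2 : ℝ)) ^ (1 / 2 : ℝ) *
            (∫⁻ ξ, (‖E f ξ‖ₑ * (b ξ) ^ (ρ / 2)) ^ (2 : ℝ)) ^ (1 / 2 : ℝ)
          ≤ ((C + 1 : ℝ≥0) * n2 f) ^ (1 / 2 : ℝ) * ((C + 1 : ℝ≥0) * n2 f) ^ (1 / 2 : ℝ) := by
            gcongr
        _ = (C + 1 : ℝ≥0) * n2 f := by
            rw [← ENNReal.rpow_add_of_nonneg _ _ (by norm_num) (by norm_num)]
            norm_num
  unfold NN
  calc (∫⁻ ξ, (‖E f ξ‖ₑ ^ 2 * ‖E (ten U V) ξ‖ₑ) ^ ρ) ^ (1 / ρ)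
      ≤ ((n2 f) ^ (ρ - 1) * ((C + 1 : ℝ≥0) * n2 f)) ^ (1 / ρ) :=
        ENNReal.rpow_le_rpow hint (by positivity)
    _ = ((C + 1 : ℝ≥0) * (n2 f) ^ ρ) ^ (1 / ρ) := by
        congr 1
        have : (n2 f) ^ ρ = (n2 f) ^ (ρ - 1) * n2 f := by
          have h := ENNReal.rpow_add_of_nonneg (x := n2 f) (ρ - 1) 1 (by linarith) zero_le_one
          rw [ENNReal.rpow_one] at h
          rw [← h]; congr 1; ring
        rw [this]; ring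
    _ = (((C + 1) ^ (1 / ρ) : ℝ≥0) : ℝ≥0∞) * n2 f := by
        rw [ENNReal.mul_rpow_of_nonneg _ _ (by positivity), ← ENNReal.rpow_mul,
          mul_one_div_cancel hρ0.ne', ENNReal.rpow_one,
          ENNReal.coe_rpow_of_nonneg _ (by positivity)]

end TriL
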