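import Pool.Agent.TriL.Targets

/-!
# MP_5ab805_an, target WT1: the one-dimensional weighted estimate
-/

set_option autoImplicit false

namespace TriL

open MeasureTheory Set Filter
open scoped ENNReal NNReal Topology
open Pool.Agent.Restr (u E E1 QQ)
open Pool.Agent.H27.Fib (Few fib ind vr Ls)

namespace WT1_

theorem measurable_al {ι : Type} [Fintype ι] {U : ι → ℝ → ℂ} (hU : Fam U) :
    Measurable (al U) := by
  unfold al
  exact Finset.measurable_sum _ fun j _ =>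
    (Pool.Agent.Restr.measurable_E1 (hU j).1).enorm.pow_const 2

theorem lintegral_nm_le {ι : Type} [Fintype ι] {U : ι → ℝ → ℂ} (hU : Fam U)
    (h1 : ∀ x, nm U x ≤ 1) : ∫⁻ x, nm U x ≤ 1 := by
  have h2 : ∀ x, nm U x ≤ II.indicator 1 x := by
    intro x
    by_cases hx : x ∈ II
    · rw [indicator_of_mem hx]
      exact h1 x
    · rw [indicator_of_notMem hx]
      unfold nm
      simp [fun j => (hU j).2 x hx]
  calc ∫⁻ x, nm U x ≤ ∫⁻ x, II.indicator 1 x := lintegral_mono h2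
    _ = 1 := by
        rw [lintegral_indicator_one measurableSet_Icc, Real.volume_Icc]
        norm_num

end WT1_

open WT1_ in
theorem p_WT1 (hB : T_BIL) : T_WT1 := by
  intro ρ hρ
  obtain ⟨C, hC⟩ := hB (ρ + 1) (by linarith)
  refine ⟨C, fun ι _ U f hU h1 hf hf0 => ?_⟩
  set s : ℝ := ρ + 1 with hs
  have hs2 : 2 < s := by rw [hs]; linarith
  have hs0 : 0 < s := by linarith
  set F : Unit → ℝ → ℂ := fun _ => f with hF
  have hFam : Fam F := fun _ => ⟨hf, hf0⟩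
  have eF : ∀ w, al F w = ‖E1 f w‖ₑ ^ 2 := by intro w; simp [al, hF]
  have eN : ∀ x, nm F x = ‖f x‖ₑ ^ 2 := by intro x; simp [nm, hF]
  have b1 : ∫⁻ w, (al F w * al U w) ^ (s / 2) ≤ C * (∫⁻ x, ‖f x‖ₑ ^ 2) ^ (s / 2) := by
    have := hC ι Unit F U hFam hU h1
    simpa only [eN] using this
  have b2 : ∫⁻ w, al U w ^ s ≤ C := by
    have h2 := hC ι ι U U hU hU h1
    have h3 : ∀ w, (al U w * al U w) ^ (s / 2) = al U w ^ s := by
      intro w
      rw [← sq, ← ENNReal.rpow_two, ← ENNReal.rpow_mul]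
      congr 1
      ring
    simp only [h3] at h2
    refine h2.trans ?_
    calc (C : ℝ≥0∞) * (∫⁻ x, nm U x) ^ (s / 2) ≤ C * 1 ^ (s / 2) := by
          gcongr
          exact lintegral_nm_le hU h1
      _ = C := by rw [ENNReal.one_rpow, mul_one]
  have mF : Measurable (al F) := measurable_al hFam
  have mU : Measurable (al U) := measurable_al hU
  have hp1 : 0 ≤ 2 / s := by positivity
  have hq1 : 0 ≤ (s - 2) / s := div_nonneg (by linarith) hs0.le
  have hpq : 2 / s + (s - 2) / s = 1 := by field_simp; ring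
  have e1 : ∀ w, ‖E1 f w‖ₑ ^ 2 * al U w ^ ρ =
      ((al F w * al U w) ^ (s / 2)) ^ (2 / s) * (al U w ^ s) ^ ((s - 2) / s) := by
    intro w
    rw [← ENNReal.rpow_mul, ← ENNReal.rpow_mul]
    have e2 : s / 2 * (2 / s) = 1 := by field_simp
    have e3 : s * ((s - 2) / s) = ρ - 1 := by rw [mul_div_cancel₀ _ hs0.ne']; rw [hs]; ring
    rw [e2, e3, ENNReal.rpow_one, eF, mul_assoc]
    congr 1
    rw [show ρ = 1 + (ρ - 1) by ring, ENNReal.rpow_add_of_nonneg _ _ zero_le_one (by linarith),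
      ENNReal.rpow_one]
    congr 2
    ring
  have e0 : ∫⁻ w, ‖E1 f w‖ₑ ^ 2 * al U w ^ ρ =
      ∫⁻ w, ((al F w * al U w) ^ (s / 2)) ^ (2 / s) * (al U w ^ s) ^ ((s - 2) / s) := by
    simp only [e1]
  rw [e0]
  have hH := ENNReal.lintegral_mul_norm_pow_le (μ := (volume : Measure (ℝ × ℝ)))
    (f := fun w => (al F w * al U w) ^ (s / 2)) (g := fun w => al U w ^ s)
    ((mF.mul mU).pow_const _).aemeasurable (mU.pow_const _).aemeasurable hp1 hq1 hpq
  refine hH.trans ?_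
  calc (∫⁻ w, (al F w * al U w) ^ (s / 2)) ^ (2 / s) * (∫⁻ w, al U w ^ s) ^ ((s - 2) / s)
      ≤ ((C : ℝ≥0∞) * (∫⁻ x, ‖f x‖ₑ ^ 2) ^ (s / 2)) ^ (2 / s) * (C : ℝ≥0∞) ^ ((s - 2) / s) :=
        mul_le_mul' (ENNReal.rpow_le_rpow b1 hp1) (ENNReal.rpow_le_rpow b2 hq1)
    _ = C * ∫⁻ x, ‖f x‖ₑ ^ 2 := by
        rw [ENNReal.mul_rpow_of_nonneg _ _ hp1, ← ENNReal.rpow_mul,
          show s / 2 * (2 / s) = 1 by field_simp, ENNReal.rpow_one,
          mul_right_comm, ← ENNReal.rpow_add_of_nonneg _ _ hp1 hq1, hpq, ENNReal.rpow_one]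

end TriL
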