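import Pool.Agent.TriL.Targets

/-!
# MP_5ab805_an, trilinear extension estimate: weighted estimate for functions on the plane
(target WT2 of helper38's project)
-/

set_option autoImplicit false

namespace TriL

open MeasureTheory Set Filter
open scoped ENNReal NNReal Topology
open Pool.Agent.Restr (u E E1 QQ enorm_u norm_u u_add measurable_u measurable_E measurable_E1
  measurable_E1_joint plancherel1 vol_QQ)

namespace WT2_

theorem meas_al {ι : Type} [Fintype ι] {U : ι → ℝ → ℂ} (hU : Fam U) : Measurable (al U) := by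
  unfold al
  exact Finset.measurable_fun_sum _ fun j _ => (measurable_E1 (hU j).1).enorm.pow_const 2

theorem integrable_of_sq {f : ℝ × ℝ → ℂ} (hf : Sq f) (h2 : n2 f ≠ ⊤) : Integrable f := by
  refine ⟨hf.1.aestronglyMeasurable, ?_⟩
  rw [hasFiniteIntegral_iff_enorm]
  have h1 : ∫⁻ x, ‖f x‖ₑ ≤ ∫⁻ x, (QQ.indicator 1 x + ‖f x‖ₑ ^ 2) := by
    refine lintegral_mono fun x => ?_
    by_cases hx : x ∈ QQ
    · rw [indicator_of_mem hx, Pi.one_apply]
      rcases le_total ‖f x‖ₑ 1 with h | h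
      · exact h.trans le_self_add
      · refine le_trans ?_ le_add_self
        calc ‖f x‖ₑ = ‖f x‖ₑ * 1 := (mul_one _).symm
          _ ≤ ‖f x‖ₑ * ‖f x‖ₑ := by gcongr
          _ = _ := (pow_two _).symm
    · rw [hf.2 x hx]
      simp
  have hQ : MeasurableSet QQ := measurableSet_Icc.prod measurableSet_Icc
  refine lt_of_le_of_lt h1 ?_
  rw [lintegral_add_left ((measurable_one).indicator hQ), lintegral_indicator_one hQ, vol_QQ]
  exact ENNReal.add_lt_top.2 ⟨ENNReal.one_lt_top, lt_top_iff_ne_top.2 h2⟩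

theorem E_slice {f : ℝ × ℝ → ℂ} (hi : Integrable f) (a b t : ℝ) :
    E f (a, b, t) = ∫ z : ℝ, u (b * z) * (u (t * z ^ 2) * E1 (fun x => f (x, z)) (a, t)) := by
  have hi2 := hi
  rw [Measure.volume_eq_prod] at hi2
  have hi3 : Integrable (fun x : ℝ × ℝ => u (a * x.1 + (b * x.2 + t * (x.1 ^ 2 + x.2 ^ 2))) * f x)
      ((volume : Measure ℝ).prod volume) := by
    refine hi2.bdd_mul (c := 1) ?_ (Eventually.of_forall fun x => (norm_u _).le)
    exact (measurable_u.comp (by fun_prop)).aestronglyMeasurable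
  unfold E
  simp only
  rw [Measure.volume_eq_prod, integral_prod_symm _ hi3]
  refine integral_congr_ae (Eventually.of_forall fun z => ?_)
  simp only
  unfold E1
  simp only
  rw [← integral_const_mul, ← integral_const_mul]
  refine integral_congr_ae (Eventually.of_forall fun x => ?_)
  simp only
  rw [show a * x + (b * z + t * (x ^ 2 + z ^ 2)) = b * z + (t * z ^ 2 + (a * x + t * x ^ 2)) by
    ring, u_add, u_add]
  ring

theorem slice {f : ℝ × ℝ → ℂ} (hf : Measurable f) (hi : Integrable f) (a t : ℝ) :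
    ∫⁻ b, ‖E f (a, b, t)‖ₑ ^ 2 ≤
      ENNReal.ofReal (2 * Real.pi) * ∫⁻ z, ‖E1 (fun x => f (x, z)) (a, t)‖ₑ ^ 2 := by
  have hG : Measurable fun z : ℝ => u (t * z ^ 2) * E1 (fun x => f (x, z)) (a, t) := by
    refine (measurable_u.comp (by fun_prop)).mul ?_
    have h := (measurable_E1_joint hf).comp (by fun_prop : Measurable fun z : ℝ => (z, a, t))
    exact h
  have h := plancherel1 (μ := (volume : Measure ℝ)) (s := id) measurable_id (C := 1)
    (fun φ _ => by rw [one_mul]; exact le_rfl) hG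
  simp only [id, one_mul] at h
  simp only [E_slice hi]
  refine h.trans (le_of_eq ?_)
  congr 1
  refine lintegral_congr fun z => ?_
  rw [enorm_mul, enorm_u, one_mul]

theorem swap12 {F : ℝ × ℝ × ℝ → ℝ≥0∞} (hF : Measurable F) :
    ∫⁻ ξ, F ξ = ∫⁻ ξ : ℝ × ℝ × ℝ, F (ξ.2.1, ξ.1, ξ.2.2) := by
  have h1 : ∀ G : ℝ × ℝ × ℝ → ℝ≥0∞, Measurable G →
      ∫⁻ ξ, G ξ = ∫⁻ a, ∫⁻ b, ∫⁻ t, G (a, b, t) := by
    intro G hG
    rw [Measure.volume_eq_prod, lintegral_prod _ hG.aemeasurable]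
    refine lintegral_congr fun a => ?_
    rw [Measure.volume_eq_prod, lintegral_prod _ (by fun_prop : Measurable fun y : ℝ × ℝ =>
      G (a, y)).aemeasurable]
  have hF2 : Measurable fun ξ : ℝ × ℝ × ℝ => F (ξ.2.1, ξ.1, ξ.2.2) :=
    hF.comp (by fun_prop : Measurable fun ξ : ℝ × ℝ × ℝ => (ξ.2.1, ξ.1, ξ.2.2))
  rw [h1 F hF, h1 _ hF2]
  rw [lintegral_lintegral_swap]
  apply Measurable.aemeasurable
  apply Measurable.lintegral_prod_right' (f := fun q : (ℝ × ℝ) × ℝ => F (q.1.1, q.1.2, q.2))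
  exact hF.comp (by fun_prop)

/-- the first estimate for integrable functions -/
theorem part1 {ι : Type} [Fintype ι] {U : ι → ℝ → ℂ} (hU : Fam U) {f : ℝ × ℝ → ℂ}
    (hf : Sq f) (hi : Integrable f) {ρ : ℝ} {C : ℝ≥0∞}
    (hW : ∀ g : ℝ → ℂ, Measurable g → (∀ x, x ∉ II → g x = 0) →
      ∫⁻ w, ‖E1 g w‖ₑ ^ 2 * al U w ^ ρ ≤ C * ∫⁻ x, ‖g x‖ₑ ^ 2) :
    ∫⁻ ξ, ‖E f ξ‖ₑ ^ 2 * al U (ξ.1, ξ.2.2) ^ ρ ≤
      ENNReal.ofReal (2 * Real.pi) * (C * n2 f) := by
  have hal : Measurable (al U) := meas_al hU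
  have hEf : Measurable (E f) := measurable_E hf.1
  have hJ : Measurable fun p : ℝ × ℝ × ℝ => ‖E1 (fun x => f (x, p.1)) (p.2.1, p.2.2)‖ₑ ^ 2 :=
    (measurable_E1_joint hf.1).enorm.pow_const 2
  have hE2 : Measurable fun ξ : ℝ × ℝ × ℝ => ‖E f ξ‖ₑ ^ 2 := hEf.enorm.pow_const 2
  have hF : Measurable fun ξ : ℝ × ℝ × ℝ => ‖E f ξ‖ₑ ^ 2 * al U (ξ.1, ξ.2.2) ^ ρ :=
    hE2.mul ((hal.comp (by fun_prop)).pow_const ρ)
  rw [Measure.volume_eq_prod, lintegral_prod _ hF.aemeasurable]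
  have hA : ∀ a : ℝ, ∫⁻ y : ℝ × ℝ, ‖E f (a, y)‖ₑ ^ 2 * al U (a, y.2) ^ ρ ≤
      ENNReal.ofReal (2 * Real.pi) * ∫⁻ t : ℝ, ∫⁻ z, ‖E1 (fun x => f (x, z)) (a, t)‖ₑ ^ 2 *
        al U (a, t) ^ ρ := by
    intro a
    have hm : Measurable fun y : ℝ × ℝ => ‖E f (a, y)‖ₑ ^ 2 * al U (a, y.2) ^ ρ := by
      have h := hF.comp (by fun_prop : Measurable fun y : ℝ × ℝ => (a, y))
      exact h
    rw [Measure.volume_eq_prod, lintegral_prod_symm _ hm.aemeasurable,
      ← lintegral_const_mul' _ _ ENNReal.ofReal_ne_top]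
    refine lintegral_mono fun t => ?_
    simp only
    have m1 : Measurable fun b : ℝ => ‖E f (a, b, t)‖ₑ ^ 2 := by
      have h := hE2.comp (by fun_prop : Measurable fun b : ℝ => (a, b, t))
      exact h
    have m2 : Measurable fun z : ℝ => ‖E1 (fun x => f (x, z)) (a, t)‖ₑ ^ 2 := by
      have h := hJ.comp (by fun_prop : Measurable fun z : ℝ => (z, a, t))
      exact h
    rw [lintegral_mul_const _ m1, lintegral_mul_const _ m2, ← mul_assoc]
    gcongr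
    exact slice hf.1 hi a t
  refine (lintegral_mono hA).trans ?_
  rw [lintegral_const_mul' _ _ ENNReal.ofReal_ne_top]
  gcongr
  -- Tonelli
  have hK : Measurable fun p : (ℝ × ℝ) × ℝ => ‖E1 (fun x => f (x, p.2)) (p.1.1, p.1.2)‖ₑ ^ 2 *
      al U (p.1.1, p.1.2) ^ ρ := by
    refine Measurable.mul ?_ ?_
    · have h := hJ.comp (by fun_prop : Measurable fun p : (ℝ × ℝ) × ℝ => (p.2, p.1.1, p.1.2))
      exact h
    · exact (hal.comp (by fun_prop)).pow_const ρ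
  have hK1 : Measurable fun w : ℝ × ℝ => ∫⁻ z, ‖E1 (fun x => f (x, z)) (w.1, w.2)‖ₑ ^ 2 *
      al U (w.1, w.2) ^ ρ := hK.lintegral_prod_right'
  have e1 : ∫⁻ a : ℝ, ∫⁻ t : ℝ, ∫⁻ z, ‖E1 (fun x => f (x, z)) (a, t)‖ₑ ^ 2 *
      al U (a, t) ^ ρ = ∫⁻ w : ℝ × ℝ, ∫⁻ z, ‖E1 (fun x => f (x, z)) (w.1, w.2)‖ₑ ^ 2 *
      al U (w.1, w.2) ^ ρ := by
    rw [Measure.volume_eq_prod, lintegral_prod _ hK1.aemeasurable]
  rw [e1, lintegral_lintegral_swap hK.aemeasurable]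
  calc ∫⁻ z : ℝ, ∫⁻ w : ℝ × ℝ, ‖E1 (fun x => f (x, z)) (w.1, w.2)‖ₑ ^ 2 *
        al U (w.1, w.2) ^ ρ
      ≤ ∫⁻ z : ℝ, C * ∫⁻ x, ‖f (x, z)‖ₑ ^ 2 := by
        refine lintegral_mono fun z => ?_
        refine hW (fun x => f (x, z)) (hf.1.comp (by fun_prop)) fun x hx => ?_
        exact hf.2 _ fun h => hx h.1
    _ = C * n2 f := by
        have hm7 : Measurable (fun x : ℝ × ℝ => ‖f x‖ₑ ^ 2) := hf.1.enorm.pow_const 2
        have hm8 : Measurable (fun z => ∫⁻ x, ‖f (x, z)‖ₑ ^ 2) := by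
          apply Measurable.lintegral_prod_right' (f := fun q : ℝ × ℝ => ‖f (q.2, q.1)‖ₑ ^ 2)
          exact hm7.comp measurable_swap
        rw [lintegral_const_mul _ hm8]
        congr 1
        unfold n2
        rw [Measure.volume_eq_prod, lintegral_prod_symm _ hm7.aemeasurable]

theorem E_swap (f : ℝ × ℝ → ℂ) (a b t : ℝ) :
    E (fun x => f x.swap) (b, a, t) = E f (a, b, t) := by
  unfold E
  simp only
  have h := (Measure.measurePreserving_swap (μ := (volume : Measure ℝ))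
    (ν := (volume : Measure ℝ))).integral_comp (MeasurableEquiv.prodComm.measurableEmbedding)
    (fun x : ℝ × ℝ => u (a * x.1 + (b * x.2 + t * (x.1 ^ 2 + x.2 ^ 2))) * f x)
  rw [← Measure.volume_eq_prod] at h
  rw [← h]
  refine integral_congr_ae (Eventually.of_forall fun x => ?_)
  simp only [Prod.fst_swap, Prod.snd_swap]
  congr 2
  ring

theorem n2_swap {f : ℝ × ℝ → ℂ} (hf : Measurable f) : n2 (fun x => f x.swap) = n2 f := by
  unfold n2
  have h := (Measure.measurePreserving_swap (μ := (volume : Measure ℝ))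
    (ν := (volume : Measure ℝ))).lintegral_comp
    (f := fun x : ℝ × ℝ => ‖f x‖ₑ ^ 2) (hf.enorm.pow_const 2)
  rw [← Measure.volume_eq_prod] at h
  exact h

end WT2_

open WT2_ in
theorem p_WT2 (h : T_WT1) : T_WT2 := by
  intro ρ hρ
  obtain ⟨C, hC⟩ := h ρ hρ
  refine ⟨(2 * Real.pi).toNNReal * C + 1, fun ι _ U f hU hn hf => ?_⟩
  rcases eq_or_ne (n2 f) ⊤ with htop | htop
  · have e : ((((2 * Real.pi).toNNReal * C + 1 : ℝ≥0)) : ℝ≥0∞) * n2 f = ⊤ := by
      rw [htop, ENNReal.mul_top]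
      simp
    rw [e]
    exact ⟨le_top, le_top⟩
  have hi := integrable_of_sq hf htop
  have hW : ∀ g : ℝ → ℂ, Measurable g → (∀ x, x ∉ II → g x = 0) →
      ∫⁻ w, ‖E1 g w‖ₑ ^ 2 * al U w ^ ρ ≤ C * ∫⁻ x, ‖g x‖ₑ ^ 2 :=
    fun g hg hg0 => hC ι U g hU hn hg hg0
  have hc : ∀ X : ℝ≥0∞, ENNReal.ofReal (2 * Real.pi) * (C * X) ≤
      (((2 * Real.pi).toNNReal * C + 1 : ℝ≥0) : ℝ≥0∞) * X := by
    intro X
    rw [← mul_assoc]
    gcongr
    rw [ENNReal.coe_add, ENNReal.coe_mul]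
    exact le_self_add
  refine ⟨(part1 hU hf hi hW).trans (hc _), ?_⟩
  have hal : Measurable (al U) := meas_al hU
  have hF : Measurable fun ξ : ℝ × ℝ × ℝ => ‖E f ξ‖ₑ ^ 2 * al U (ξ.2.1, ξ.2.2) ^ ρ :=
    ((measurable_E hf.1).enorm.pow_const 2).mul ((hal.comp (by fun_prop)).pow_const ρ)
  rw [swap12 hF]
  simp only
  have hf' : Sq (fun x => f x.swap) := by
    refine ⟨hf.1.comp measurable_swap, fun x hx => hf.2 _ fun h => hx ?_⟩
    exact ⟨h.2, h.1⟩
  have hs := n2_swap hf.1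
  have hi' := integrable_of_sq hf' (by rw [hs]; exact htop)
  have h1 := part1 hU hf' hi' hW
  rw [hs] at h1
  refine le_trans (le_of_eq ?_) (h1.trans (hc _))
  refine lintegral_congr fun ξ => ?_
  rw [← E_swap f ξ.2.1 ξ.1 ξ.2.2]

end TriL
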