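import Pool.Agent.TriL.BIL
import Pool.Agent.TriL.INT
import Pool.Agent.TriL.MAI
import Pool.Agent.TriL.WT2
import Pool.Agent.TriL.TEN
import Pool.Agent.TriL.DYD
import Pool.Agent.TriL.ROT
import Pool.Agent.TriL.LIN
import Pool.Agent.TriL.BP1
import Pool.Agent.TriL.BP4
import Pool.Agent.TriL.BP3
import Pool.Agent.TriL.SUM
import Pool.Agent.TriL.WT1
import Pool.Agent.TriL.IVM
import Pool.Agent.TriL.RST
import Pool.Agent.TriL.DY1
import Pool.Agent.TriL.DY2
import Pool.Agent.TriL.ROL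
import Pool.Agent.TriL.CPX
import Pool.Agent.TriL.BP2
import Pool.Agent.TriL.DYM
import Pool.Agent.TriL.FAC
import Pool.Agent.TriL.DY3

/-!
# MP_5ab805_an, trilinear extension estimate with two arbitrary functions: assembly (helper38)
-/

set_option autoImplicit false

namespace TriL

theorem bil : T_BIL := p_BIL p_BP3 (p_BP4 p_BP1 p_BP2)

theorem ten_est : T_TEN := p_TEN (p_WT2 (p_WT1 bil)) p_FAC

theorem dyd : T_DYD := p_DYD p_DY1 p_DY2 p_DY3 p_DYM

theorem mai : T_MAI := p_MAI (p_INT ten_est) p_DYM dyd p_SUM p_DY3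

theorem rot : T_ROT := p_ROT mai

theorem rst : T_RST := p_RST mai p_IVM

theorem rol : T_ROL := p_ROL (p_CPX (p_LIN rst))

end TriL
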