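import Pool.Agent.TriL.Defs

/-!
# MP_5ab805_an, trilinear extension estimate with two arbitrary functions: targets (helper38)
-/

set_option autoImplicit false

namespace TriL

open MeasureTheory Set Filter
open scoped ENNReal NNReal Topology
open Pool.Agent.Restr (u E E1 QQ)
open Pool.Agent.H27.Fib (Few fib ind vr Ls)

/-! ## One-dimensional bilinear estimate -/

/-- BP1: `L²` bound of a piece -/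
def T_BP1 : Prop := ∀ (k : ℕ) (f g : ℝ → ℂ), Measurable f → Measurable g →
  ∫⁻ w, ‖Bk k f g w‖ₑ ^ 2 ≤ ENNReal.ofReal (4 * Real.pi ^ 2 * 2 ^ k) *
    ∫⁻ z in Zk k, ‖f z.1‖ₑ ^ 2 * ‖g z.2‖ₑ ^ 2

/-- BP2: vector valued sup bound of a piece -/
def T_BP2 : Prop := ∀ (ι κ : Type) [Fintype ι] [Fintype κ] (F : κ → ℝ → ℂ) (U : ι → ℝ → ℂ),
  Fam F → Fam U → ∀ (k : ℕ) (w : ℝ × ℝ), ∑ i, ∑ j, ‖Bk k (F i) (U j) w‖ₑ ^ 2 ≤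
    (∫⁻ z in Zk k, (nm F z.1 * nm U z.2) ^ (1 / 2 : ℝ)) ^ 2

/-- BP3: decomposition -/
def T_BP3 : Prop := ∀ f g : ℝ → ℂ, Measurable f → Measurable g → (∀ x, x ∉ II → f x = 0) →
  (∀ x, x ∉ II → g x = 0) → ∫⁻ x, ‖f x‖ₑ ^ 2 ≠ ⊤ → ∫⁻ x, ‖g x‖ₑ ^ 2 ≠ ⊤ →
  ∀ w, ‖E1 f w‖ₑ * ‖E1 g w‖ₑ ≤ ∑' k, ‖Bk k f g w‖ₑ

/-- BP4 (from BP1, BP2): `L^s` norm of the vector of the `k`-th pieces -/
def T_BP4 : Prop := ∀ s : ℝ, 2 ≤ s → ∀ (ι κ : Type) [Fintype ι] [Fintype κ] (F : κ → ℝ → ℂ)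
  (U : ι → ℝ → ℂ), Fam F → Fam U → (∀ x, nm U x ≤ 1) → ∀ k : ℕ,
  ∫⁻ w, (∑ i, ∑ j, ‖Bk k (F i) (U j) w‖ₑ ^ 2) ^ (s / 2) ≤
    ENNReal.ofReal (4 * Real.pi ^ 2 * 2 ^ (-((s - 2) * k))) * (∫⁻ x, nm F x) ^ (s / 2)

/-- BIL (from BP3, BP4): bilinear estimate -/
def T_BIL : Prop := ∀ s : ℝ, 2 < s → ∃ C : ℝ≥0, ∀ (ι κ : Type) [Fintype ι] [Fintype κ]
  (F : κ → ℝ → ℂ) (U : ι → ℝ → ℂ), Fam F → Fam U → (∀ x, nm U x ≤ 1) →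
  ∫⁻ w, (al F w * al U w) ^ (s / 2) ≤ C * (∫⁻ x, nm F x) ^ (s / 2)

/-! ## Weighted estimates for one arbitrary function -/

/-- WT1 (from BIL): one-dimensional weighted estimate -/
def T_WT1 : Prop := ∀ ρ : ℝ, 1 < ρ → ∃ C : ℝ≥0, ∀ (ι : Type) [Fintype ι] (U : ι → ℝ → ℂ)
  (f : ℝ → ℂ), Fam U → (∀ x, nm U x ≤ 1) → Measurable f → (∀ x, x ∉ II → f x = 0) →
  ∫⁻ w, ‖E1 f w‖ₑ ^ 2 * al U w ^ ρ ≤ C * ∫⁻ x, ‖f x‖ₑ ^ 2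

/-- WT2 (from WT1): weighted estimate for functions on the plane -/
def T_WT2 : Prop := ∀ ρ : ℝ, 1 < ρ → ∃ C : ℝ≥0, ∀ (ι : Type) [Fintype ι] (U : ι → ℝ → ℂ)
  (f : ℝ × ℝ → ℂ), Fam U → (∀ x, nm U x ≤ 1) → Sq f →
  ∫⁻ ξ, ‖E f ξ‖ₑ ^ 2 * al U (ξ.1, ξ.2.2) ^ ρ ≤ C * n2 f ∧
  ∫⁻ ξ, ‖E f ξ‖ₑ ^ 2 * al U (ξ.2.1, ξ.2.2) ^ ρ ≤ C * n2 f

/-- FAC: factorisation for tensors -/
def T_FAC : Prop := ∀ (ι : Type) [Fintype ι] (U V : ι → ℝ → ℂ), Fam U → Fam V →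
  (∃ A : ℝ, ∀ j x, ‖U j x‖ ≤ A) → (∃ A : ℝ, ∀ j x, ‖V j x‖ ≤ A) →
  ∀ ξ : ℝ × ℝ × ℝ, ‖E (ten U V) ξ‖ₑ ^ 2 ≤ al U (ξ.1, ξ.2.2) * al V (ξ.2.1, ξ.2.2)

/-- TEN (from WT2, FAC): trilinear estimate for tensors -/
def T_TEN : Prop := ∀ ρ : ℝ, 1 < ρ → ∃ C : ℝ≥0, ∀ (ι : Type) [Fintype ι] (U V : ι → ℝ → ℂ)
  (f : ℝ × ℝ → ℂ), Fam U → Fam V → (∀ x, nm U x ≤ 1) → (∀ x, nm V x ≤ 1) → Sq f →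
  NN ρ f (ten U V) ≤ C * n2 f

/-- INT (from TEN): interpolation with Tomas-Stein -/
def T_INT : Prop := ∀ q θ : ℝ, 3 < q → q < 4 → 0 < θ → θ < 4 - 12 / q → ∃ C : ℝ≥0,
  ∀ (ι : Type) [Fintype ι] (U V : ι → ℝ → ℂ) (f : ℝ × ℝ → ℂ) (M : ℝ≥0), Fam U → Fam V →
  0 < M → (∀ x, nm U x ≤ (M : ℝ≥0∞) ^ 2) → (∀ x, nm V x ≤ 1) → Sq f →
  NN (q / 3) f (ten U V) ≤ C * (M : ℝ≥0∞) ^ (1 - θ) * n2 (ten U V) ^ (θ / 2) * n2 f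

/-! ## Dyadic decomposition in the second variable -/

/-- DY1: the dyadic difference and its coefficients -/
def T_DY1 : Prop := ∀ (k : ℝ → ℂ) (n : ℕ),
  (∀ y, Ea k (n + 1) y - Ea k n y =
    ∑ j : Fin (2 ^ (n + 1)), df k n j * (Iv (n + 1) j).indicator 1 y) ∧
  ∑ j : Fin (2 ^ (n + 1)), ‖df k n j‖ₑ ^ 2 =
    ENNReal.ofReal (2 ^ (n + 1)) * ∫⁻ y, ‖Ea k (n + 1) y - Ea k n y‖ₑ ^ 2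

/-- DY2: distance to the dyadic average by the modulus of continuity -/
def T_DY2 : Prop := ∀ (k : ℝ → ℂ) (n : ℕ), Measurable k → (∃ A : ℝ, ∀ y, ‖k y‖ ≤ A) →
  (∀ y, y ∉ II → k y = 0) →
  ∫⁻ y, ‖k y - Ea k n y‖ₑ ^ 2 ≤ ENNReal.ofReal (2 ^ n) *
    ∫⁻ h in Icc (-(1 / 2 : ℝ) ^ n) ((1 / 2 : ℝ) ^ n), ∫⁻ y, ‖k (y + h) - k y‖ₑ ^ 2

/-- DY3: contraction -/
def T_DY3 : Prop := ∀ (k : ℝ → ℂ) (n : ℕ), Measurable k → (∃ A : ℝ, ∀ y, ‖k y‖ ≤ A) →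
  (∀ y, y ∉ II → k y = 0) → ∫⁻ y, ‖Ea k n y‖ₑ ^ 2 ≤ ∫⁻ y, ‖k y‖ₑ ^ 2

/-- DYM: measurability and supports -/
def T_DYM : Prop := ∀ (K : ℝ × ℝ → ℂ) (a b : ℝ → ℂ) (n : ℕ), Sq K → (∀ x, ‖K x‖ ≤ 1) →
  Mu a → Mu b → Sq (Em K n) ∧ Fam (Ua K a n) ∧ Fam (Vb b n) ∧ ∀ y, nm (Vb b n) y ≤ 1

/-- DYD (from DY1, DY2, DY3, DYM): bounds for the dyadic differences -/
def T_DYD : Prop := ∀ (K : ℝ × ℝ → ℂ) (a b : ℝ → ℂ) (s : ℝ) (M : ℝ≥0) (n : ℕ), Sq K →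
  (∀ x, ‖K x‖ ≤ 1) → Mu a → Mu b → 0 < s → s ≤ 1 / 2 → Mo K s M →
  (∀ x, nm (Ua K a n) x ≤ 16 * (M : ℝ≥0∞) ^ 2 * ENNReal.ofReal (2 ^ ((1 - 2 * s) * n))) ∧
  n2 (ten (Ua K a n) (Vb b n)) ≤ 16 * (M : ℝ≥0∞) ^ 2 * ENNReal.ofReal (2 ^ (-(2 * s * n))) ∧
  n2 (ten (Ua K a n) (Vb b n)) ≤ 4 * n2 K ∧
  (∀ x, ten (Ua K a n) (Vb b n) x = a x.1 * b x.2 * (Em K (n + 1) x - Em K n x)) ∧
  n2 (fun x => K x - Em K n x) ≤ 2 * (M : ℝ≥0∞) ^ 2 * ENNReal.ofReal (2 ^ (-(2 * s * n)))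

/-- SUM: countable triangle inequality -/
def T_SUM : Prop := ∀ (ρ : ℝ) (f g : ℝ × ℝ → ℂ) (G : ℕ → ℝ × ℝ → ℂ), 1 ≤ ρ → Sq f → Sq g →
  n2 f ≠ ⊤ → n2 g ≠ ⊤ → (∀ n, Sq (G n)) → (∀ n, n2 (G n) ≠ ⊤) →
  Tendsto (fun N => n2 (fun x => g x - ∑ i ∈ Finset.range N, G i x)) atTop (𝓝 0) →
  NN ρ f g ≤ ∑' n, NN ρ f (G n)

/-- MAI (from INT, DYM, DYD, SUM): the main estimate on the square -/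
def T_MAI : Prop := ∀ q s τ : ℝ, 3 < q → q < 4 → 0 < s → s ≤ 1 / 2 → 0 ≤ τ →
  (1 / 2 - s) * (1 - (4 - 12 / q)) < s * ((4 - 12 / q) - τ) → ∃ C : ℝ≥0,
  ∀ (K f : ℝ × ℝ → ℂ) (a b : ℝ → ℂ) (M : ℝ≥0), Sq K → (∀ x, ‖K x‖ ≤ 1) → Mu a → Mu b →
  1 ≤ M → Mo K s M → Sq f →
  NN (q / 3) f (fun x => a x.1 * b x.2 * K x) ≤ C * M * n2 K ^ (τ / 2) * n2 f

/-! ## Sets with few intervals, linear estimate -/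

/-- IVM: modulus of continuity of a set whose fibres are unions of `m` intervals -/
def T_IVM : Prop := ∀ (B : Set (ℝ × ℝ)) (m : ℕ), MeasurableSet B → B ⊆ QQ →
  (∀ x, Few m (fib B x)) → 1 ≤ m → Mo (ind B) (1 / 2) (2 * m)

/-- RST (from MAI, IVM): restricted estimate -/
def T_RST : Prop := ∀ q δ : ℝ, 3 < q → q < 4 → 0 < δ → δ ≤ (q - 3) / 2 → ∃ C : ℝ≥0,
  ∀ (B : Set (ℝ × ℝ)) (m : ℕ) (a b : ℝ → ℂ), MeasurableSet B → B ⊆ QQ →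
  (∀ x, Few m (fib B x)) → 1 ≤ m → Mu a → Mu b →
  ∫⁻ ξ, ‖E (fun x => a x.1 * b x.2 * ind B x) ξ‖ₑ ^ q ≤
    C * ENNReal.ofReal ((m : ℝ) ^ q * vr B ^ (q - 2 - δ))

/-- LIN (from RST): nonnegative functions -/
def T_LIN : Prop := ∀ q p : ℝ, 3 < q → q < 4 → q / (q - 2) < p → ∃ C : ℝ≥0,
  ∀ (G : ℝ × ℝ → ℝ) (m : ℕ) (a b : ℝ → ℂ), Measurable G → (∀ x, x ∉ QQ → G x = 0) →
  (∀ x, 0 ≤ G x) → 1 ≤ m → (∀ l, 0 < l → ∀ x, Few m (fib (Ls G l) x)) → Mu a → Mu b →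
  eLpNorm (E fun x => a x.1 * b x.2 * ((G x : ℝ) : ℂ)) (ENNReal.ofReal q) volume ≤
    C * m * eLpNorm G (ENNReal.ofReal p) volume

/-- CPX (from LIN): complex functions -/
def T_CPX : Prop := ∀ q p : ℝ, 3 < q → q < 4 → q / (q - 2) < p → ∃ C : ℝ≥0,
  ∀ (f : ℝ × ℝ → ℂ) (m : ℕ) (a b : ℝ → ℂ), Measurable f → (∀ x, x ∉ QQ → f x = 0) → 1 ≤ m →
  (∀ l, 0 < l → ∀ x, Few m (fib (Ls (fun y => (f y).re) l) x) ∧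
    Few m (fib (Ls (fun y => -(f y).re) l) x) ∧ Few m (fib (Ls (fun y => (f y).im) l) x) ∧
    Few m (fib (Ls (fun y => -(f y).im) l) x)) → Mu a → Mu b →
  eLpNorm (E fun x => a x.1 * b x.2 * f x) (ENNReal.ofReal q) volume ≤
    C * m * eLpNorm f (ENNReal.ofReal p) volume

/-! ## Rotation -/

/-- ROL (from CPX): the linear statement in every direction -/
def T_ROL : Prop := ∀ q p : ℝ, 3 < q → q < 4 → q / (q - 2) < p → ∃ C : ℝ≥0,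
  ∀ (e : ℝ × ℝ) (a b : ℝ → ℂ), e.1 ^ 2 + e.2 ^ 2 = 1 → Mu a → Mu b →
  ∀ (f : ℝ × ℝ → ℂ) (m : ℕ), Measurable f →
  (∀ x : ℝ × ℝ, 1 / 4 < x.1 ^ 2 + x.2 ^ 2 → f x = 0) → 1 ≤ m →
  (∀ᵐ s : ℝ, Pool.Agent.H27.Fib.LineFew m f e s) →
  eLpNorm (E fun x => a (x.1 * e.2 - x.2 * e.1) * b (x.1 * e.1 + x.2 * e.2) * f x)
    (ENNReal.ofReal q) volume ≤ C * m * eLpNorm f (ENNReal.ofReal p) volume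

/-- ROT (from MAI): the trilinear statement in every direction -/
def T_ROT : Prop := ∀ q s : ℝ, 3 < q → q < 4 → 3 * (4 - q) / (2 * q) < s → s ≤ 1 / 2 →
  ∃ C : ℝ≥0, ∀ (e : ℝ × ℝ) (a b : ℝ → ℂ), e.1 ^ 2 + e.2 ^ 2 = 1 → Mu a → Mu b →
  ∀ (f₁ f₂ K : ℝ × ℝ → ℂ) (M : ℝ≥0), Measurable f₁ → Measurable f₂ → Measurable K →
  (∀ x : ℝ × ℝ, 1 / 4 < x.1 ^ 2 + x.2 ^ 2 → f₁ x = 0) →
  (∀ x : ℝ × ℝ, 1 / 4 < x.1 ^ 2 + x.2 ^ 2 → f₂ x = 0) →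
  (∀ x : ℝ × ℝ, 1 / 4 < x.1 ^ 2 + x.2 ^ 2 → K x = 0) → (∀ x, ‖K x‖ ≤ 1) → 1 ≤ M →
  (∀ᵐ t : ℝ, ∀ h : ℝ, ∫⁻ r, ‖K (t * e.2 + (r + h) * e.1, -(t * e.1) + (r + h) * e.2) -
    K (t * e.2 + r * e.1, -(t * e.1) + r * e.2)‖ₑ ^ 2 ≤
    (M : ℝ≥0∞) ^ 2 * ENNReal.ofReal (|h| ^ (2 * s))) →
  eLpNorm (fun ξ => E f₁ ξ * E f₂ ξ *
    E (fun x => a (x.1 * e.2 - x.2 * e.1) * b (x.1 * e.1 + x.2 * e.2) * K x) ξ)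
    (ENNReal.ofReal (q / 3)) volume ≤ C * M * eLpNorm f₁ 2 volume * eLpNorm f₂ 2 volume

end TriL
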