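import Mathlib
import Pool.Agent.TriL.Targets

/-!
BIL: the bilinear estimate from the dyadic pieces
-/

set_option autoImplicit false

namespace TriL

open MeasureTheory Set Filter
open scoped ENNReal NNReal Topology
open Pool.Agent.Restr (u E E1 QQ)

namespace BIL_

/-- Jensen's inequality with weights -/
theorem jensen (w x : ℕ → ℝ≥0∞) {p : ℝ} (hp : 1 < p) :
    (∑' k, w k * x k) ^ p ≤ (∑' k, w k) ^ (p - 1) * ∑' k, w k * x k ^ p := by
  have hp0 : 0 < p := by linarith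
  set q : ℝ := p / (p - 1) with hq
  have hpq : p.HolderConjugate q := Real.HolderConjugate.conjExponent hp
  have hq0 : 0 < q := hpq.symm.pos
  have hinv : p⁻¹ + q⁻¹ = 1 := hpq.inv_add_inv_eq_one
  have h1 : ∀ k, w k * x k = w k ^ p⁻¹ * x k * w k ^ q⁻¹ := by
    intro k
    have : w k = w k ^ p⁻¹ * w k ^ q⁻¹ := by
      rw [← ENNReal.rpow_add_of_nonneg _ _ (by positivity) (by positivity), hinv,
        ENNReal.rpow_one]
    calc w k * x k = (w k ^ p⁻¹ * w k ^ q⁻¹) * x k := by rw [← this]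
      _ = w k ^ p⁻¹ * x k * w k ^ q⁻¹ := by ring
  have h2 := ENNReal.lintegral_mul_le_Lp_mul_Lq (μ := Measure.count) hpq
    (f := fun k : ℕ => w k ^ p⁻¹ * x k) (g := fun k : ℕ => w k ^ q⁻¹)
    Measurable.of_discrete.aemeasurable Measurable.of_discrete.aemeasurable
  simp only [lintegral_count, Pi.mul_apply] at h2
  have h3 : ∀ k, (w k ^ p⁻¹ * x k) ^ p = w k * x k ^ p := by
    intro k
    rw [ENNReal.mul_rpow_of_nonneg _ _ hp0.le, ← ENNReal.rpow_mul, inv_mul_cancel₀ hp0.ne',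
      ENNReal.rpow_one]
  have h4 : ∀ k, (w k ^ q⁻¹) ^ q = w k := by
    intro k
    rw [← ENNReal.rpow_mul, inv_mul_cancel₀ hq0.ne', ENNReal.rpow_one]
  simp only [h3, h4] at h2
  have h5 : (∑' k, w k * x k) ≤ (∑' k, w k * x k ^ p) ^ (1 / p) * (∑' k, w k) ^ (1 / q) := by
    rw [tsum_congr h1]
    exact h2
  refine (ENNReal.rpow_le_rpow h5 hp0.le).trans (le_of_eq ?_)
  rw [ENNReal.mul_rpow_of_nonneg _ _ hp0.le, ← ENNReal.rpow_mul, ← ENNReal.rpow_mul,
    one_div_mul_cancel hp0.ne', ENNReal.rpow_one, mul_comm]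
  congr 2
  rw [hq]
  have : p - 1 ≠ 0 := by linarith
  field_simp

/-- the pieces are measurable -/
theorem meas_Bk (k : ℕ) {f g : ℝ → ℂ} (hf : Measurable f) (hg : Measurable g) :
    Measurable (Bk k f g) := by
  have : StronglyMeasurable (fun w : ℝ × ℝ => ∫ z in Zk k,
      u (w.1 * (z.1 - z.2) + w.2 * (z.1 ^ 2 - z.2 ^ 2)) *
        (f z.1 * (starRingEnd ℂ) (g z.2))) := by
    apply StronglyMeasurable.integral_prod_right
      (f := fun (w : ℝ × ℝ) (z : ℝ × ℝ) => u (w.1 * (z.1 - z.2) + w.2 * (z.1 ^ 2 - z.2 ^ 2)) *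
        (f z.1 * (starRingEnd ℂ) (g z.2)))
    apply Measurable.stronglyMeasurable
    refine (Pool.Agent.Restr.measurable_u.comp (by fun_prop)).mul
      ((hf.comp (by fun_prop)).mul ?_)
    exact (Complex.continuous_conj.measurable.comp hg).comp (by fun_prop)
  exact this.measurable

/-- the sum of the squares of the pieces -/
noncomputable def VV {ι κ : Type} [Fintype ι] [Fintype κ] (F : κ → ℝ → ℂ) (U : ι → ℝ → ℂ) (k : ℕ)
    (w : ℝ × ℝ) : ℝ≥0∞ := ∑ i, ∑ j, ‖Bk k (F i) (U j) w‖ₑ ^ 2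

theorem meas_VV {ι κ : Type} [Fintype ι] [Fintype κ] {F : κ → ℝ → ℂ} {U : ι → ℝ → ℂ}
    (hF : Fam F) (hU : Fam U) (k : ℕ) : Measurable (VV F U k) := by
  unfold VV
  exact Finset.measurable_sum _ fun i _ => Finset.measurable_sum _ fun j _ =>
    (meas_Bk k (hF i).1 (hU j).1).enorm.pow_const 2

/-- pointwise bound -/
theorem pointwise {ι κ : Type} [Fintype ι] [Fintype κ] {F : κ → ℝ → ℂ} {U : ι → ℝ → ℂ}
    (hF : Fam F) (hU : Fam U) (h3 : T_BP3) (hF2 : ∀ i, ∫⁻ x, ‖F i x‖ₑ ^ 2 ≠ ⊤)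
    (hU2 : ∀ j, ∫⁻ x, ‖U j x‖ₑ ^ 2 ≠ ⊤) (r ri : ℕ → ℝ≥0∞) (hr : ∀ k, r k * ri k = 1)
    (w : ℝ × ℝ) :
    al F w * al U w ≤ (∑' k, r k) * ∑' k, ri k * VV F U k w := by
  have h1 : ∀ b : ℕ → ℝ≥0∞, (∑' k, b k) ^ 2 ≤ (∑' k, r k) * ∑' k, ri k * b k ^ 2 := by
    intro b
    have h := jensen r (fun k => ri k * b k) (by norm_num : (1 : ℝ) < 2)
    have e1 : ∀ k, r k * (ri k * b k) = b k := fun k => by rw [← mul_assoc, hr, one_mul]
    have e2 : ∀ k, r k * (ri k * b k) ^ 2 = ri k * b k ^ 2 := by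
      intro k
      rw [mul_pow, sq (ri k)]
      calc r k * (ri k * ri k * b k ^ 2) = (r k * ri k) * (ri k * b k ^ 2) := by ring
        _ = ri k * b k ^ 2 := by rw [hr, one_mul]
    simp only [e1, ENNReal.rpow_two, e2] at h
    rwa [show (2 : ℝ) - 1 = 1 by norm_num, ENNReal.rpow_one] at h
  have h2 : ∀ i j, ‖E1 (F i) w‖ₑ ^ 2 * ‖E1 (U j) w‖ₑ ^ 2 ≤
      (∑' k, r k) * ∑' k, ri k * ‖Bk k (F i) (U j) w‖ₑ ^ 2 := by
    intro i j
    rw [← mul_pow]
    refine le_trans (pow_le_pow_left' (h3 (F i) (U j) (hF i).1 (hU j).1 (hF i).2 (hU j).2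
      (hF2 i) (hU2 j) w) 2) (h1 _)
  unfold al
  rw [Finset.sum_mul_sum]
  calc ∑ i, ∑ j, ‖E1 (F i) w‖ₑ ^ 2 * ‖E1 (U j) w‖ₑ ^ 2 ≤
      ∑ i, ∑ j, (∑' k, r k) * ∑' k, ri k * ‖Bk k (F i) (U j) w‖ₑ ^ 2 :=
        Finset.sum_le_sum fun i _ => Finset.sum_le_sum fun j _ => h2 i j
    _ = (∑' k, r k) * ∑' k, ri k * VV F U k w := by
        unfold VV
        simp only [← Finset.mul_sum]
        congr 1
        simp only [Finset.mul_sum]
        rw [Summable.tsum_finsetSum fun i _ => ENNReal.summable]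
        refine Finset.sum_congr rfl fun i _ => ?_
        rw [Summable.tsum_finsetSum fun j _ => ENNReal.summable]

/-- geometric series -/
theorem geo {a : ℝ} (ha : 0 < a) (c : ℝ) (hc : 0 ≤ c) :
    ∑' k : ℕ, ENNReal.ofReal (c * (2 : ℝ) ^ (-(a * k))) ≠ ⊤ := by
  have h1 : ∀ k : ℕ, (2 : ℝ) ^ (-(a * k)) = ((2 : ℝ) ^ (-a)) ^ k := by
    intro k
    rw [← Real.rpow_natCast, ← Real.rpow_mul (by norm_num)]
    congr 1
    ring
  have h2 : Summable fun k : ℕ => c * (2 : ℝ) ^ (-(a * k)) := by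
    simp only [h1]
    exact (summable_geometric_of_lt_one (by positivity)
      (Real.rpow_lt_one_of_one_lt_of_neg (by norm_num) (by linarith))).mul_left c
  have h3 : ∀ k : ℕ, 0 ≤ c * (2 : ℝ) ^ (-(a * k)) := fun k => by positivity
  rw [← ENNReal.ofReal_tsum_of_nonneg h3 h2]
  exact ENNReal.ofReal_ne_top

end BIL_

open BIL_ in
theorem p_BIL (h3 : T_BP3) (h4 : T_BP4) : T_BIL := by
  intro s hs
  have hs1 : 0 < s - 1 := by linarith
  have hs2 : 0 < s - 2 := by linarith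
  set κ₀ : ℝ := (s - 2) / (2 * (s - 1)) with hκ
  have hκ0 : 0 < κ₀ := by positivity
  set p : ℝ := s / 2 with hp
  have hp1 : 1 < p := by rw [hp]; linarith
  have hp0 : 0 < p := by linarith
  set r : ℕ → ℝ≥0∞ := fun k => ENNReal.ofReal ((2 : ℝ) ^ (-(κ₀ * k))) with hr
  set ri : ℕ → ℝ≥0∞ := fun k => ENNReal.ofReal ((2 : ℝ) ^ (κ₀ * k)) with hri
  have hrr : ∀ k, r k * ri k = 1 := by
    intro k
    simp only [hr, hri]
    rw [← ENNReal.ofReal_mul (by positivity), ← Real.rpow_add (by norm_num)]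
    simp
  set c : ℝ≥0∞ := ∑' k, r k with hc
  have hcfin : c ≠ ⊤ := by
    have := geo hκ0 1 zero_le_one
    simpa only [one_mul] using this
  set D : ℝ≥0∞ := ∑' k : ℕ, ENNReal.ofReal (4 * Real.pi ^ 2 * (2 : ℝ) ^ (-((s - 2) / 2 * k)))
    with hD
  have hDfin : D ≠ ⊤ := geo (by positivity) _ (by positivity)
  set C₀ : ℝ≥0∞ := c ^ p * (c ^ (p - 1) * D) with hC0
  have hC0fin : C₀ ≠ ⊤ := by
    refine ENNReal.mul_ne_top (ENNReal.rpow_ne_top_of_nonneg hp0.le hcfin)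
      (ENNReal.mul_ne_top (ENNReal.rpow_ne_top_of_nonneg (by linarith) hcfin) hDfin)
  refine ⟨C₀.toNNReal + 1, fun ι κ _ _ F U hF hU hU1 => ?_⟩
  have hCC : C₀ ≤ ((C₀.toNNReal + 1 : ℝ≥0) : ℝ≥0∞) := by
    push_cast
    rw [ENNReal.coe_toNNReal hC0fin]
    exact le_self_add
  set A : ℝ≥0∞ := ∫⁻ x, nm F x with hA
  by_cases hAtop : A = ⊤
  · rw [hAtop, ENNReal.top_rpow_of_pos (by linarith), ENNReal.mul_top (by simp)]
    exact le_top
  -- square integrability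
  have hF2 : ∀ i, ∫⁻ x, ‖F i x‖ₑ ^ 2 ≠ ⊤ := by
    intro i
    refine ne_top_of_le_ne_top hAtop (lintegral_mono fun x => ?_)
    exact Finset.single_le_sum (f := fun j => ‖F j x‖ₑ ^ 2) (fun _ _ => zero_le)
      (Finset.mem_univ i)
  have hU2 : ∀ j, ∫⁻ x, ‖U j x‖ₑ ^ 2 ≠ ⊤ := by
    intro j
    have h1 : ∫⁻ x, ‖U j x‖ₑ ^ 2 ≤ ∫⁻ x, II.indicator (fun _ => (1 : ℝ≥0∞)) x := by
      refine lintegral_mono fun x => ?_
      by_cases hx : x ∈ II
      · rw [indicator_of_mem hx]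
        exact (Finset.single_le_sum (f := fun j => ‖U j x‖ₑ ^ 2) (fun _ _ => zero_le)
          (Finset.mem_univ j)).trans (hU1 x)
      · rw [indicator_of_notMem hx, (hU j).2 x hx]
        simp
    refine ne_top_of_le_ne_top ?_ h1
    rw [lintegral_indicator measurableSet_Icc, setLIntegral_one]
    simp
  have key : ∀ w, (al F w * al U w) ^ p ≤
      c ^ p * (c ^ (p - 1) * ∑' k, r k * (ri k ^ 2 * VV F U k w) ^ p) := by
    intro w
    have e1 := pointwise hF hU h3 hF2 hU2 r ri hrr w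
    have e2 : ∀ k, ri k * VV F U k w = r k * (ri k ^ 2 * VV F U k w) := by
      intro k
      calc ri k * VV F U k w = (r k * ri k) * (ri k * VV F U k w) := by rw [hrr, one_mul]
        _ = r k * (ri k ^ 2 * VV F U k w) := by ring
    rw [tsum_congr e2] at e1
    refine (ENNReal.rpow_le_rpow e1 hp0.le).trans ?_
    rw [ENNReal.mul_rpow_of_nonneg _ _ hp0.le]
    exact mul_le_mul_right (jensen r (fun k => ri k ^ 2 * VV F U k w) hp1) _
  have hmeas : ∀ k, Measurable fun w => r k * (ri k ^ 2 * VV F U k w) ^ p := fun k =>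
    ((((meas_VV hF hU k).const_mul _).pow_const p)).const_mul _
  have hterm : ∀ k : ℕ, ∫⁻ w, r k * (ri k ^ 2 * VV F U k w) ^ p ≤
      ENNReal.ofReal (4 * Real.pi ^ 2 * (2 : ℝ) ^ (-((s - 2) / 2 * k))) * A ^ p := by
    intro k
    have e1 : ∀ w, r k * (ri k ^ 2 * VV F U k w) ^ p = (r k * (ri k ^ 2) ^ p) * VV F U k w ^ p := by
      intro w
      rw [ENNReal.mul_rpow_of_nonneg _ _ hp0.le]
      ring
    simp only [e1]
    rw [lintegral_const_mul _ ((meas_VV hF hU k).pow_const p)]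
    have e2 := h4 s hs.le ι κ F U hF hU hU1 k
    refine (mul_le_mul_right e2 _).trans (le_of_eq ?_)
    rw [← mul_assoc]
    congr 1
    have e3 : (ri k ^ 2) ^ p = ENNReal.ofReal ((2 : ℝ) ^ (κ₀ * k * s)) := by
      simp only [hri]
      have e5 : (0 : ℝ) ≤ (2 : ℝ) ^ (κ₀ * k) := by positivity
      rw [← ENNReal.ofReal_pow e5, ENNReal.ofReal_rpow_of_pos (by positivity),
        ← Real.rpow_natCast, ← Real.rpow_mul e5, ← Real.rpow_mul (by norm_num)]
      congr 2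
      rw [hp]
      push_cast
      ring
    rw [e3]
    simp only [hr]
    rw [← ENNReal.ofReal_mul (by positivity), ← ENNReal.ofReal_mul (by positivity),
      ← Real.rpow_add (by norm_num)]
    congr 1
    have e4 : (2 : ℝ) ^ (-(κ₀ * k) + κ₀ * k * s) * (4 * Real.pi ^ 2 * 2 ^ (-((s - 2) * k))) =
        4 * Real.pi ^ 2 * (2 ^ (-(κ₀ * k) + κ₀ * k * s) * 2 ^ (-((s - 2) * k))) := by ring
    rw [e4, ← Real.rpow_add (by norm_num)]
    congr 2
    rw [hκ]
    field_simp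
    ring
  calc ∫⁻ w, (al F w * al U w) ^ (s / 2) ≤
      ∫⁻ w, c ^ p * (c ^ (p - 1) * ∑' k, r k * (ri k ^ 2 * VV F U k w) ^ p) :=
        lintegral_mono key
    _ = c ^ p * (c ^ (p - 1) * ∑' k, ∫⁻ w, r k * (ri k ^ 2 * VV F U k w) ^ p) := by
        rw [lintegral_const_mul' _ _ (ENNReal.rpow_ne_top_of_nonneg hp0.le hcfin),
          lintegral_const_mul' _ _ (ENNReal.rpow_ne_top_of_nonneg (by linarith) hcfin),
          lintegral_tsum fun k => (hmeas k).aemeasurable]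
    _ ≤ c ^ p * (c ^ (p - 1) * ∑' k : ℕ,
        ENNReal.ofReal (4 * Real.pi ^ 2 * (2 : ℝ) ^ (-((s - 2) / 2 * k))) * A ^ p) := by
        gcongr with k
        exact hterm k
    _ = C₀ * A ^ p := by
        rw [ENNReal.tsum_mul_right, hC0]
        ring
    _ ≤ ((C₀.toNNReal + 1 : ℝ≥0) : ℝ≥0∞) * A ^ p := mul_le_mul_left hCC _

end TriL
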