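import Pool.Agent.Restr.Trunc
import Pool.Agent.H27.Fib.Final

/-!
# MP_5ab805_an, trilinear extension estimate with two arbitrary functions: definitions (helper38)
-/

set_option autoImplicit false

namespace TriL

open MeasureTheory Set Filter
open scoped ENNReal NNReal Topology
open Pool.Agent.Restr (u E E1 QQ)
open Pool.Agent.H27.Fib (Few fib ind vr)

/-- the unit interval centred at the origin -/
abbrev II : Set ℝ := Icc (-(1 / 2)) (1 / 2)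

/-- a family of measurable functions on the line supported in the unit interval -/
def Fam {ι : Type} (U : ι → ℝ → ℂ) : Prop := ∀ j, Measurable (U j) ∧ ∀ x, x ∉ II → U j x = 0

/-- `∑ |U_j(x)|²` -/
noncomputable def nm {ι : Type} [Fintype ι] (U : ι → ℝ → ℂ) (x : ℝ) : ℝ≥0∞ := ∑ j, ‖U j x‖ₑ ^ 2

/-- `∑ |E₁U_j(w)|²` -/
noncomputable def al {ι : Type} [Fintype ι] (U : ι → ℝ → ℂ) (w : ℝ × ℝ) : ℝ≥0∞ :=
  ∑ j, ‖E1 (U j) w‖ₑ ^ 2

/-- `∑ U_j(x₁) V_j(x₂)` -/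
noncomputable def ten {ι : Type} [Fintype ι] (U V : ι → ℝ → ℂ) (x : ℝ × ℝ) : ℂ :=
  ∑ j, U j x.1 * V j x.2

/-- measurable functions on the plane supported in the unit square -/
def Sq (f : ℝ × ℝ → ℂ) : Prop := Measurable f ∧ ∀ x, x ∉ QQ → f x = 0

/-- the square of the `L²` norm -/
noncomputable def n2 (f : ℝ × ℝ → ℂ) : ℝ≥0∞ := ∫⁻ x, ‖f x‖ₑ ^ 2

/-- the `L^ρ` norm of `|Ef|² |Eg|` -/
noncomputable def NN (ρ : ℝ) (f g : ℝ × ℝ → ℂ) : ℝ≥0∞ :=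
  (∫⁻ ξ, (‖E f ξ‖ₑ ^ 2 * ‖E g ξ‖ₑ) ^ ρ) ^ (1 / ρ)

/-- pairs of points of the unit interval at distance about `2^(-k)` -/
def Zk (k : ℕ) : Set (ℝ × ℝ) :=
  {z | z.1 ∈ II ∧ z.2 ∈ II ∧ (1 / 2 : ℝ) ^ (k + 1) < |z.1 - z.2| ∧ |z.1 - z.2| ≤ (1 / 2 : ℝ) ^ k}

/-- the part of `E₁f · conj (E₁g)` coming from the pairs in `Zk k` -/
noncomputable def Bk (k : ℕ) (f g : ℝ → ℂ) (w : ℝ × ℝ) : ℂ :=
  ∫ z in Zk k, u (w.1 * (z.1 - z.2) + w.2 * (z.1 ^ 2 - z.2 ^ 2)) *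
    (f z.1 * (starRingEnd ℂ) (g z.2))

/-- the `j`-th dyadic interval of length `2^(-n)` of `[-1/2, 1/2)` -/
def Iv (n j : ℕ) : Set ℝ :=
  Ico (-(1 / 2) + j * (1 / 2 : ℝ) ^ n) (-(1 / 2) + (j + 1) * (1 / 2 : ℝ) ^ n)

/-- mean value on the dyadic interval -/
noncomputable def av (k : ℝ → ℂ) (n j : ℕ) : ℂ := 2 ^ n * ∫ y in Iv n j, k y

/-- dyadic average of generation `n` -/
noncomputable def Ea (k : ℝ → ℂ) (n : ℕ) (y : ℝ) : ℂ :=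
  ∑ j : Fin (2 ^ n), av k n j * (Iv n j).indicator 1 y

/-- coefficients of the dyadic difference `Ea k (n+1) - Ea k n` -/
noncomputable def df (k : ℝ → ℂ) (n j : ℕ) : ℂ := av k (n + 1) j - av k n (j / 2)

/-- dyadic average in the second variable -/
noncomputable def Em (K : ℝ × ℝ → ℂ) (n : ℕ) (x : ℝ × ℝ) : ℂ := Ea (fun y => K (x.1, y)) n x.2

/-- the factors of `a(x₁) b(x₂) (Em K (n+1) - Em K n)` -/
noncomputable def Ua (K : ℝ × ℝ → ℂ) (a : ℝ → ℂ) (n : ℕ) (j : Fin (2 ^ (n + 1))) (x : ℝ) : ℂ :=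
  a x * df (fun y => K (x, y)) n j

/-- see `Ua` -/
noncomputable def Vb (b : ℝ → ℂ) (n : ℕ) (j : Fin (2 ^ (n + 1))) (y : ℝ) : ℂ :=
  b y * (Iv (n + 1) j).indicator 1 y

/-- `L²` modulus of continuity in the second variable, uniformly in the first -/
def Mo (K : ℝ × ℝ → ℂ) (s : ℝ) (M : ℝ≥0) : Prop := ∀ x h : ℝ,
  ∫⁻ y, ‖K (x, y + h) - K (x, y)‖ₑ ^ 2 ≤ (M : ℝ≥0∞) ^ 2 * ENNReal.ofReal (|h| ^ (2 * s))

/-- a measurable function bounded by one -/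
def Mu (a : ℝ → ℂ) : Prop := Measurable a ∧ ∀ x, ‖a x‖ ≤ 1

end TriL
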