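import Pool.Agent.TriL.Targets

/-!
# MP_5ab805_an, target ROL: the linear statement in every direction
-/

set_option autoImplicit false

namespace TriL

open MeasureTheory Set Filter
open scoped ENNReal NNReal Topology
open Pool.Agent.Restr (u E E1 QQ)
open Pool.Agent.H27.Fib (Few fib ind vr Ls)

namespace ROL_

open Pool.Agent.Restr (rot rot_apply mp_rot continuous_rot eLpNorm_E_rot rot_supp)
open Pool.Agent.H27.Fib (LineFew few_empty)

/-- the weight in rotated coordinates -/
theorem weight_rot {e : ℝ × ℝ} (he : e.1 ^ 2 + e.2 ^ 2 = 1) (a b : ℝ → ℂ) (x : ℝ × ℝ) :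
    a ((rot e x).1 * e.2 - (rot e x).2 * e.1) * b ((rot e x).1 * e.1 + (rot e x).2 * e.2) =
      a x.1 * b x.2 := by
  have h1 : (rot e x).1 * e.2 - (rot e x).2 * e.1 = x.1 := by
    rw [rot_apply]
    simp only
    linear_combination x.1 * he
  have h2 : (rot e x).1 * e.1 + (rot e x).2 * e.2 = x.2 := by
    rw [rot_apply]
    simp only
    linear_combination x.2 * he
  rw [h1, h2]

end ROL_

open Pool.Agent.Restr (rot rot_apply mp_rot continuous_rot eLpNorm_E_rot rot_supp) in
open Pool.Agent.H27.Fib (LineFew few_empty) in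
theorem p_ROL (h1 : T_CPX) : T_ROL := by
  intro q p hq hq4 hp
  have hq0 : 0 < q := by linarith
  obtain ⟨C, hC⟩ := h1 q p hq hq4 hp
  refine ⟨C, fun e a b he ha hb f m hf hs hm hfew => ?_⟩
  obtain ⟨Nl, hNs, hNm, hN0⟩ := exists_measurable_superset_of_null (ae_iff.1 hfew)
  set g : ℝ × ℝ → ℂ := fun x => f (rot e x) with hg
  have hgm : Measurable g := hf.comp (continuous_rot e).measurable
  set Z : Set (ℝ × ℝ) := {x | x.1 ∈ Nl} with hZ
  have hZm : MeasurableSet Z := measurable_fst hNm
  have hZ0 : volume Z = 0 := by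
    have h1 : Z = Nl ×ˢ univ := by
      ext x
      simp [hZ]
    rw [h1, Measure.volume_eq_prod, Measure.prod_prod, hN0, zero_mul]
  set g' : ℝ × ℝ → ℂ := Zᶜ.indicator g with hg'
  have hg'm : Measurable g' := hgm.indicator hZm.compl
  have hae : g' =ᵐ[volume] g := by
    have h1 : ∀ᵐ x : ℝ × ℝ, x ∉ Z := by
      rw [ae_iff]
      simpa using hZ0
    filter_upwards [h1] with x hx
    exact indicator_of_mem hx g
  have hFm : Measurable fun x : ℝ × ℝ =>
      a (x.1 * e.2 - x.2 * e.1) * b (x.1 * e.1 + x.2 * e.2) * f x := by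
    have m1 : Measurable fun x : ℝ × ℝ => a (x.1 * e.2 - x.2 * e.1) :=
      ha.1.comp ((measurable_fst.mul_const _).sub (measurable_snd.mul_const _))
    have m2 : Measurable fun x : ℝ × ℝ => b (x.1 * e.1 + x.2 * e.2) :=
      hb.1.comp ((measurable_fst.mul_const _).add (measurable_snd.mul_const _))
    exact (m1.mul m2).mul hf
  have hEg : eLpNorm (E fun x => a (x.1 * e.2 - x.2 * e.1) * b (x.1 * e.1 + x.2 * e.2) * f x)
      (ENNReal.ofReal q) volume =
      eLpNorm (E fun x => a x.1 * b x.2 * g' x) (ENNReal.ofReal q) volume := by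
    rw [eLpNorm_E_rot he hFm hq0]
    congr 1
    funext ξ
    unfold E
    refine integral_congr_ae ?_
    filter_upwards [hae] with x hx
    rw [hx, ROL_.weight_rot he a b x]
  have hNg : eLpNorm g' (ENNReal.ofReal p) volume = eLpNorm f (ENNReal.ofReal p) volume := by
    rw [eLpNorm_congr_ae hae]
    exact eLpNorm_comp_measurePreserving hf.aestronglyMeasurable (mp_rot he)
  rw [hEg, ← hNg]
  refine hC g' m a b hg'm (fun x hx => ?_) hm (fun l hl x => ?_) ha hb
  · have h1 : g x = 0 := rot_supp he hs x hx
    rw [hg']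
    by_cases hxz : x ∈ Zᶜ
    · rw [indicator_of_mem hxz, h1]
    · rw [indicator_of_notMem hxz]
  · by_cases hx : x ∈ Nl
    · have h0 : ∀ y, g' (x, y) = 0 := fun y =>
        indicator_of_notMem (show (x, y) ∉ Zᶜ from fun h => h hx) _
      have e1 : fib (Ls (fun y => (g' y).re) l) x = ∅ := by
        ext y
        simp only [fib, Ls, mem_ofPred_eq, h0, Complex.zero_re, mem_empty_iff_false, iff_false]
        linarith
      have e2 : fib (Ls (fun y => -(g' y).re) l) x = ∅ := by
        ext y
        simp only [fib, Ls, mem_ofPred_eq, h0, Complex.zero_re, mem_empty_iff_false, iff_false]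
        linarith
      have e3 : fib (Ls (fun y => (g' y).im) l) x = ∅ := by
        ext y
        simp only [fib, Ls, mem_ofPred_eq, h0, Complex.zero_im, mem_empty_iff_false, iff_false]
        linarith
      have e4 : fib (Ls (fun y => -(g' y).im) l) x = ∅ := by
        ext y
        simp only [fib, Ls, mem_ofPred_eq, h0, Complex.zero_im, mem_empty_iff_false, iff_false]
        linarith
      rw [e1, e2, e3, e4]
      exact ⟨few_empty m, few_empty m, few_empty m, few_empty m⟩
    · have hP : LineFew m f e x := by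
        by_contra hn
        exact hx (hNs hn)
      have h0 : ∀ y, g' (x, y) = f (x * e.2 + y * e.1, -(x * e.1) + y * e.2) := by
        intro y
        have h1 : g' (x, y) = g (x, y) := indicator_of_mem (show (x, y) ∈ Zᶜ from hx) _
        rw [h1]
        change f (rot e (x, y)) = _
        rw [rot_apply]
        congr 2
        · simp only
          ring
        · simp only
          ring
      have h1 := hP l hl
      have e1 : ∀ G : ℂ → ℝ, fib (Ls (fun y => G (g' y)) l) x =
          {r : ℝ | l < G (f (x * e.2 + r * e.1, -(x * e.1) + r * e.2))} := by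
        intro G
        ext y
        simp only [fib, Ls, mem_ofPred_eq, h0]
      refine ⟨?_, ?_, ?_, ?_⟩
      · rw [e1 fun z => z.re]
        exact h1.1
      · rw [e1 fun z => -z.re]
        exact h1.2.1
      · rw [e1 fun z => z.im]
        exact h1.2.2.1
      · rw [e1 fun z => -z.im]
        exact h1.2.2.2

end TriL
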